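import Pool.Agent.Lib.MP_30679c_gt.Dot

/-!
A finite set of points of the plane together with the intersection of the unit discs
centred at these points.
-/

namespace Pool.Agent.Lib.MP_30679c_gt

open Real MeasureTheory Set Filter Topology

/-- The intersection of the closed unit discs centred at the points of `S`. -/
def DD (S : Finset ℂ) : Set ℂ := {x | ∀ s ∈ S, ‖x - s‖ ≤ 1}

lemma convex_DD (S : Finset ℂ) : Convex ℝ (DD S) := by
  have : DD S = ⋂ s ∈ S, Metric.closedBall s 1 := by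
    ext x; simp [DD, dist_eq_norm]
  rw [this]
  exact convex_iInter₂ fun s _ => convex_closedBall s 1

lemma isClosed_DD (S : Finset ℂ) : IsClosed (DD S) := by
  have : DD S = ⋂ s ∈ S, Metric.closedBall s 1 := by
    ext x; simp [DD, dist_eq_norm]
  rw [this]
  exact isClosed_biInter fun s _ => Metric.isClosed_closedBall

lemma isCompact_DD {S : Finset ℂ} (hS : S.Nonempty) : IsCompact (DD S) := by
  obtain ⟨s, hs⟩ := hS
  apply (isCompact_closedBall s (1:ℝ)).of_isClosed_subset (isClosed_DD S)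
  intro x hx
  simpa [dist_eq_norm] using hx s hs

lemma norm_combo_sq (a b : ℂ) (l : ℝ) :
    ‖(1 - l) • a + l • b‖ ^ 2 = (1 - l) * ‖a‖ ^ 2 + l * ‖b‖ ^ 2 - l * (1 - l) * ‖b - a‖ ^ 2 := by
  rw [norm_sq_eq, norm_sq_eq, norm_sq_eq, norm_sq_eq]
  simp
  ring

/-- Strong convexity of intersections of unit discs. -/
lemma bulge_mem {S : Finset ℂ} {y z : ℂ} (hy : y ∈ DD S) (hz : z ∈ DD S) {l : ℝ}
    (h0 : 0 ≤ l) (h1 : l ≤ 1) (t : ℝ) :
    y + l • (z - y) + (l * (1 - l) * ‖z - y‖ ^ 2 / 2) • ee t ∈ DD S := by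
  intro s hs
  have ha := hy s hs
  have hb := hz s hs
  set w := l * (1 - l) * ‖z - y‖ ^ 2 with hw
  have hw0 : 0 ≤ w := by
    have : 0 ≤ 1 - l := by linarith
    positivity
  have e : y + l • (z - y) + (w / 2) • ee t - s
      = ((1 - l) • (y - s) + l • (z - s)) + (w / 2) • ee t := by
    apply Complex.ext <;> simp <;> ring
  rw [e]
  have h2 : ‖(1 - l) • (y - s) + l • (z - s)‖ ^ 2 ≤ 1 - w := by
    rw [norm_combo_sq]
    have e2 : (z - s) - (y - s) = z - y := by ring
    rw [e2]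
    have ha2 : ‖y - s‖ ^ 2 ≤ 1 := by nlinarith [norm_nonneg (y - s)]
    have hb2 : ‖z - s‖ ^ 2 ≤ 1 := by nlinarith [norm_nonneg (z - s)]
    nlinarith
  have h3 : ‖(1 - l) • (y - s) + l • (z - s)‖ ≤ 1 - w / 2 := by
    have hw1 : w ≤ 1 := by nlinarith [sq_nonneg ‖(1 - l) • (y - s) + l • (z - s)‖]
    apply le_of_sq_le_sq _ (by linarith)
    nlinarith
  calc ‖(1 - l) • (y - s) + l • (z - s) + (w / 2) • ee t‖
      ≤ ‖(1 - l) • (y - s) + l • (z - s)‖ + ‖(w / 2) • ee t‖ := norm_add_le _ _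
    _ ≤ (1 - w / 2) + w / 2 := by
        gcongr
        rw [norm_smul, norm_ee, mul_one, Real.norm_eq_abs, abs_of_nonneg (by linarith)]
    _ = 1 := by ring

lemma rolling {S : Finset ℂ} {y z : ℂ} {t : ℝ} (hy : y ∈ DD S) (hz : z ∈ DD S)
    (hmax : ∀ x ∈ DD S, dot x t ≤ dot y t) : dot (z - y) t + ‖z - y‖ ^ 2 / 2 ≤ 0 := by
  have key : ∀ l : ℝ, 0 < l → l ≤ 1 → dot (z - y) t + (1 - l) * ‖z - y‖ ^ 2 / 2 ≤ 0 := by
    intro l hl hl1
    have h := hmax _ (bulge_mem hy hz hl.le hl1 t)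
    simp only [dot_add, dot_smul, dot_ee_self, mul_one] at h
    have h2 : l * (dot (z - y) t + (1 - l) * ‖z - y‖ ^ 2 / 2) ≤ 0 := by nlinarith
    by_contra hcon
    push Not at hcon
    nlinarith [mul_pos hl hcon]
  by_contra hcon
  push Not at hcon
  set A := dot (z - y) t + ‖z - y‖ ^ 2 / 2 with hA
  have hN : 0 ≤ ‖z - y‖ ^ 2 / 2 := by positivity
  set N := ‖z - y‖ ^ 2 / 2 with hNdef
  have h := key (min 1 (A / (2 * (N + 1)))) (lt_min one_pos (by positivity)) (min_le_left _ _)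
  have h1 : min 1 (A / (2 * (N + 1))) * N ≤ A / 2 := by
    calc min 1 (A / (2 * (N + 1))) * N ≤ (A / (2 * (N + 1))) * N := by
          gcongr; exact min_le_right _ _
      _ ≤ A / 2 := by
          rw [div_mul_eq_mul_div, div_le_div_iff₀ (by positivity) (by positivity)]
          nlinarith
  have h2 : dot (z - y) t + (1 - min 1 (A / (2 * (N + 1)))) * ‖z - y‖ ^ 2 / 2
      = A - min 1 (A / (2 * (N + 1))) * N := by rw [hA, hNdef]; ring
  rw [h2] at h
  linarith

/-- The data studied in the planar part of the argument. -/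
structure Body where
  /-- the finite set of points -/
  S : Finset ℂ
  hS : S.Nonempty
  /-- the support points of the intersection of the discs -/
  Y : ℝ → ℂ
  hY : ∀ t, Y t ∈ DD S
  hmax : ∀ t, ∀ x ∈ DD S, dot x t ≤ dot (Y t) t
  /-- a point at distance less than one from all points of `S` -/
  x₀ : ℂ
  hx₀ : ∀ s ∈ S, ‖x₀ - s‖ < 1
  hDK : ∀ t, ∀ x ∈ DD S, ∃ s ∈ S, dot x t ≤ dot s t

namespace Body

variable (P : Body)

/-- support function of the intersection of the discs -/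
noncomputable def hD (t : ℝ) : ℝ := dot (P.Y t) t

/-- support function of the convex hull of `S` -/
noncomputable def hK (t : ℝ) : ℝ := P.S.sup' P.hS (fun s => dot s t)

/-- support function of the disc hull of `S` -/
noncomputable def F (t : ℝ) : ℝ := 1 - P.hD (t + π)

/-- `1` minus the width of the intersection of the discs -/
noncomputable def v (t : ℝ) : ℝ := 1 - P.hD t - P.hD (t + π)

/-- the gap between the disc hull and the convex hull -/
noncomputable def gap (t : ℝ) : ℝ := P.F t - P.hK t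

lemma roll {z : ℂ} (hz : z ∈ DD P.S) (t : ℝ) :
    dot (z - P.Y t) t + ‖z - P.Y t‖ ^ 2 / 2 ≤ 0 :=
  rolling (P.hY t) hz (P.hmax t)

lemma Y_unique {z : ℂ} (hz : z ∈ DD P.S) {t : ℝ} (h : P.hD t ≤ dot z t) : z = P.Y t := by
  have h1 := P.roll hz t
  simp only [dot_sub] at h1
  unfold hD at h
  have h2 : ‖z - P.Y t‖ ^ 2 ≤ 0 := by linarith
  have h3 : ‖z - P.Y t‖ = 0 := by nlinarith [norm_nonneg (z - P.Y t)]
  rwa [norm_eq_zero, sub_eq_zero] at h3

lemma norm_Y_sub_le (s t : ℝ) : ‖P.Y s - P.Y t‖ ≤ ‖ee s - ee t‖ := by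
  have h1 := P.roll (P.hY s) t
  have h2 := P.roll (P.hY t) s
  rw [norm_sub_rev] at h2
  have h3 : ‖P.Y s - P.Y t‖ ^ 2 ≤ dot (P.Y s - P.Y t) s - dot (P.Y s - P.Y t) t := by
    simp only [dot_sub] at h1 h2 ⊢
    linarith
  have h4 : dot (P.Y s - P.Y t) s - dot (P.Y s - P.Y t) t
      ≤ ‖P.Y s - P.Y t‖ * ‖ee s - ee t‖ := by
    have := re_im_le (P.Y s - P.Y t) (ee s - ee t)
    refine le_trans (le_of_eq ?_) this
    simp [dot]; ring
  by_contra hcon
  push Not at hcon
  nlinarith [norm_nonneg (ee s - ee t), norm_nonneg (P.Y s - P.Y t)]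

lemma norm_Y_sub_le' (s t : ℝ) : ‖P.Y s - P.Y t‖ ≤ |s - t| :=
  (P.norm_Y_sub_le s t).trans (norm_ee_sub_ee_le s t)

lemma continuous_Y : Continuous P.Y := by
  have : LipschitzWith 1 P.Y := LipschitzWith.of_dist_le_mul fun s t => by
    rw [dist_eq_norm, Real.dist_eq, NNReal.coe_one, one_mul]; exact P.norm_Y_sub_le' s t
  exact this.continuous

lemma Y_add_two_pi (t : ℝ) : P.Y (t + 2 * π) = P.Y t := by
  have h := P.norm_Y_sub_le (t + 2 * π) t
  rw [ee_add_two_pi, sub_self, norm_zero] at h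
  rw [← sub_eq_zero, ← norm_eq_zero]
  exact le_antisymm h (norm_nonneg _)

lemma le_hD {x : ℂ} (hx : x ∈ DD P.S) (t : ℝ) : dot x t ≤ P.hD t := P.hmax t x hx

lemma hD_add_two_pi (t : ℝ) : P.hD (t + 2 * π) = P.hD t := by
  simp [hD, P.Y_add_two_pi]

lemma le_hK {s : ℂ} (hs : s ∈ P.S) (t : ℝ) : dot s t ≤ P.hK t :=
  Finset.le_sup' (fun s => dot s t) hs

lemma exists_hK (t : ℝ) : ∃ s ∈ P.S, P.hK t = dot s t :=
  Finset.exists_mem_eq_sup' P.hS (fun s => dot s t)

lemma hK_add_two_pi (t : ℝ) : P.hK (t + 2 * π) = P.hK t := by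
  simp [hK]

lemma hD_le_hK (t : ℝ) : P.hD t ≤ P.hK t := by
  obtain ⟨s, hs, h⟩ := P.hDK t (P.Y t) (P.hY t)
  exact h.trans (P.le_hK hs t)

lemma F_eq (t : ℝ) : P.F t = 1 + dot (P.Y (t + π)) t := by
  simp [F, hD]

lemma v_eq (t : ℝ) : P.v t = P.F t - P.hD t := by
  simp [F, v]; ring

lemma v_eq' (t : ℝ) : P.v t = P.F t + P.F (t + π) - 1 := by
  have : P.hD (t + π + π) = P.hD t := by
    rw [add_assoc, ← two_mul]; exact P.hD_add_two_pi t
  simp only [F, v, this]; ring

lemma v_add_pi (t : ℝ) : P.v (t + π) = P.v t := by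
  have : P.hD (t + π + π) = P.hD t := by
    rw [add_assoc, ← two_mul]; exact P.hD_add_two_pi t
  simp only [v, this]; ring

lemma v_add_two_pi (t : ℝ) : P.v (t + 2 * π) = P.v t := by
  rw [two_mul, ← add_assoc, v_add_pi, v_add_pi]

lemma F_add_two_pi (t : ℝ) : P.F (t + 2 * π) = P.F t := by
  simp only [F]
  rw [show t + 2 * π + π = t + π + 2 * π by ring, P.hD_add_two_pi]

lemma gap_add_two_pi (t : ℝ) : P.gap (t + 2 * π) = P.gap t := by
  simp only [gap, P.F_add_two_pi, P.hK_add_two_pi]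

lemma hK_le_F (t : ℝ) : P.hK t ≤ P.F t := by
  obtain ⟨s, hs, h⟩ := P.exists_hK t
  rw [h, P.F_eq]
  have h0 : ‖s - P.Y (t + π)‖ ≤ 1 := by
    rw [norm_sub_rev]; exact P.hY (t + π) s hs
  have h1 := (dot_le_norm (s - P.Y (t + π)) t).trans h0
  simp only [dot_sub] at h1
  linarith

lemma gap_nonneg (t : ℝ) : 0 ≤ P.gap t := sub_nonneg.mpr (P.hK_le_F t)

lemma gap_le_v (t : ℝ) : P.gap t ≤ P.v t := by
  rw [v_eq, gap]; linarith [P.hD_le_hK t]

lemma v_nonneg (t : ℝ) : 0 ≤ P.v t := (P.gap_nonneg t).trans (P.gap_le_v t)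

/-- The support point of the disc hull. -/
noncomputable def X (t : ℝ) : ℂ := P.Y (t + π) + ee t

lemma dot_X_self (t : ℝ) : dot (P.X t) t = P.F t := by
  simp [X, F_eq]; ring

lemma norm_X_sub_le {z : ℂ} (hz : z ∈ DD P.S) (t : ℝ) : ‖P.X t - z‖ ≤ 1 := by
  have h := P.roll hz (t + π)
  simp only [dot_add_pi] at h
  have h2 : ‖P.X t - z‖ ^ 2 ≤ 1 := by
    have e : ‖P.X t - z‖ ^ 2 = ‖z - P.Y (t + π)‖ ^ 2 - 2 * dot (z - P.Y (t + π)) t + 1 := by
      rw [norm_sq_eq, norm_sq_eq, X]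
      simp only [dot, Complex.sub_re, Complex.sub_im, Complex.add_re, Complex.add_im, ee_re, ee_im]
      linear_combination sin_sq_add_cos_sq t
    rw [e]; linarith
  nlinarith [norm_nonneg (P.X t - z)]

lemma dot_X_le (t u : ℝ) : dot (P.X t) u ≤ P.F u := by
  have h := (dot_le_norm (P.X t - P.Y (u + π)) u).trans (P.norm_X_sub_le (P.hY (u + π)) t)
  rw [P.F_eq]
  simp only [dot_sub] at h
  linarith

lemma F_lower (t h : ℝ) : 2 * cos h * P.F t ≤ P.F (t + h) + P.F (t - h) := by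
  rw [← P.dot_X_self t, ← dot_sum_angle]
  exact add_le_add (P.dot_X_le _ _) (P.dot_X_le _ _)

lemma hD_lower (t h : ℝ) : 2 * cos h * P.hD t ≤ P.hD (t + h) + P.hD (t - h) := by
  have : P.hD t = dot (P.Y t) t := rfl
  rw [this, ← dot_sum_angle]
  exact add_le_add (P.le_hD (P.hY t) _) (P.le_hD (P.hY t) _)

lemma F_upper (t h : ℝ) : P.F (t + h) + P.F (t - h) ≤ 2 * cos h * P.F t + 2 * (1 - cos h) := by
  have h1 := P.hD_lower (t + π) h
  simp only [F]
  rw [show t + h + π = t + π + h by ring, show t - h + π = t + π - h by ring]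
  linarith

/-! ### Regularity -/

lemma hasDerivAt_hD (t : ℝ) : HasDerivAt P.hD (dot' (P.Y t) t) t := by
  have key : ∀ u, |P.hD u - P.hD t - (dot (P.Y t) u - dot (P.Y t) t)| ≤ |u - t| ^ 2 := by
    intro u
    have h1 : 0 ≤ P.hD u - P.hD t - (dot (P.Y t) u - dot (P.Y t) t) := by
      have := P.le_hD (P.hY t) u
      simp only [hD] at this ⊢
      linarith
    have h2 : P.hD u - P.hD t - (dot (P.Y t) u - dot (P.Y t) t) ≤ |u - t| ^ 2 := by
      have h3 := P.le_hD (P.hY u) t
      have h4 := abs_dot_sub_dot_le (P.Y u - P.Y t) u t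
      have h5 := P.norm_Y_sub_le' u t
      have h6 := (le_abs_self _).trans h4
      simp only [hD, dot_sub] at h3 h6 ⊢
      nlinarith [abs_nonneg (u - t)]
    rw [abs_of_nonneg h1]; exact h2
  have h1 : HasDerivAt (fun u => P.hD u - P.hD t - (dot (P.Y t) u - dot (P.Y t) t)) 0 t := by
    rw [hasDerivAt_iff_isLittleO]
    have hO : (fun u => P.hD u - P.hD t - (dot (P.Y t) u - dot (P.Y t) t))
        =O[𝓝 t] (fun u => |u - t| ^ 2) := by
      apply Asymptotics.IsBigO.of_bound 1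
      filter_upwards with u
      rw [Real.norm_eq_abs, Real.norm_of_nonneg (sq_nonneg _), one_mul]
      exact key u
    have ho : (fun u : ℝ => |u - t| ^ 2) =o[𝓝 t] (fun u => u - t) := by
      have : (fun u : ℝ => |u - t| ^ 2) = (fun u => (u - t) * (u - t)) := by
        ext u; rw [sq_abs]; ring
      rw [this]
      have h2 : (fun u : ℝ => u - t) =o[𝓝 t] (fun _ => (1:ℝ)) := by
        rw [Asymptotics.isLittleO_one_iff]
        have : Tendsto (fun u : ℝ => u - t) (𝓝 t) (𝓝 (t - t)) :=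
          (continuous_id.sub continuous_const).tendsto t
        simpa using this
      simpa using h2.mul_isBigO (Asymptotics.isBigO_refl (fun u : ℝ => u - t) (𝓝 t))
    have := hO.trans_isLittleO ho
    simpa using this
  have h2 := h1.add (((hasDerivAt_dot (P.Y t) t)).add_const (P.hD t - dot (P.Y t) t))
  have e : (fun u => P.hD u - P.hD t - (dot (P.Y t) u - dot (P.Y t) t)) +
      (fun u => dot (P.Y t) u + (P.hD t - dot (P.Y t) t)) = P.hD := by
    ext u; simp only [Pi.add_apply]; ring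
  rw [e] at h2
  simpa using h2

lemma continuous_hD : Continuous P.hD :=
  continuous_iff_continuousAt.mpr fun t => (P.hasDerivAt_hD t).continuousAt

lemma continuous_F : Continuous P.F := by
  unfold F
  exact continuous_const.sub (P.continuous_hD.comp (continuous_id.add continuous_const))

lemma continuous_v : Continuous P.v := by
  unfold v
  exact (continuous_const.sub P.continuous_hD).sub
    (P.continuous_hD.comp (continuous_id.add continuous_const))

lemma continuous_hK : Continuous P.hK := by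
  unfold hK
  apply Continuous.finset_sup'_apply
  intro s _
  exact continuous_dot s

lemma continuous_gap : Continuous P.gap := P.continuous_F.sub P.continuous_hK

/-- The derivative of `v`. -/
noncomputable def v' (t : ℝ) : ℝ := - dot' (P.Y t) t - dot' (P.Y (t + π)) (t + π)

lemma hasDerivAt_v (t : ℝ) : HasDerivAt P.v (P.v' t) t := by
  have h1 := P.hasDerivAt_hD t
  have h2 : HasDerivAt (fun u => P.hD (u + π)) (dot' (P.Y (t + π)) (t + π)) t := by
    exact (P.hasDerivAt_hD (t + π)).comp_add_const t π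
  have h3 := (h1.const_sub 1).sub h2
  exact h3

lemma continuous_v' : Continuous P.v' := by
  unfold v'
  have h1 : Continuous (fun t => dot' (P.Y t) t) :=
    continuous_dot'_uncurry.comp (P.continuous_Y.prodMk continuous_id)
  have h2 : Continuous (fun t => dot' (P.Y (t + π)) (t + π)) :=
    h1.comp (continuous_id.add continuous_const)
  exact h1.neg.sub h2

end Body

end Pool.Agent.Lib.MP_30679c_gt
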