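import Pool.Agent.Lib.MP_30679c_gt.Defs

/-!
The relative boundary of a compact convex set in terms of supporting directions.
-/

namespace Pool.Agent.Lib.MP_30679c_gt

open Set Filter Topology
open scoped RealInnerProductSpace

variable {E : Type*} [NormedAddCommGroup E] [InnerProductSpace ℝ E]

section

variable {K : Set E} {x : E}

lemma convex_loc (hK : Convex ℝ K) [Nonempty (affineSpan ℝ K)] (x0 : affineSpan ℝ K) :
    Convex ℝ {w : (affineSpan ℝ K).direction | (w : E) + x0 ∈ K} := by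
  intro v hv w hw a b ha hb hab
  have h := hK hv hw ha hb hab
  have e : a • ((v : E) + x0) + b • ((w : E) + x0)
      = ((a • v + b • w : (affineSpan ℝ K).direction) : E) + x0 := by
    rw [Submodule.coe_add, Submodule.coe_smul, Submodule.coe_smul, smul_add, smul_add]
    have : a • (x0 : E) + b • (x0 : E) = x0 := by rw [← add_smul, hab, one_smul]
    nth_rewrite 3 [← this]
    abel
  rw [e] at h
  exact h

lemma exists_support [FiniteDimensional ℝ E] (hK : Convex ℝ K) (hc : IsClosed K)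
    (hx : x ∈ intrinsicFrontier ℝ K) :
    x ∈ K ∧ ∃ u ∈ vectorSpan ℝ K, u ≠ 0 ∧ ∀ y ∈ K, ⟪u, y⟫ ≤ ⟪u, x⟫ := by
  have hxK : x ∈ K := intrinsicFrontier_subset hc hx
  refine ⟨hxK, ?_⟩
  obtain ⟨x0, hx0, rfl⟩ := hx
  have : Nonempty (affineSpan ℝ K) := ⟨x0⟩
  let e : (affineSpan ℝ K).direction ≃ₜ affineSpan ℝ K :=
    (AffineIsometryEquiv.vaddConst ℝ x0).toHomeomorph
  have he : ∀ w, ((e w : affineSpan ℝ K) : E) = (w : E) + x0 := fun w => rfl
  have hK1 : Convex ℝ (e ⁻¹' ((↑) ⁻¹' K)) := convex_loc hK x0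
  have hne : (interior (e ⁻¹' ((↑) ⁻¹' K))).Nonempty := by
    obtain ⟨_, y, hy, rfl⟩ := (Set.Nonempty.intrinsicInterior hK ⟨_, hxK⟩)
    refine ⟨e.symm y, ?_⟩
    rw [← e.preimage_interior]
    simpa using hy
  have h0 : (0 : (affineSpan ℝ K).direction) ∉ interior (e ⁻¹' ((↑) ⁻¹' K)) := by
    rw [← e.preimage_interior]
    intro h
    have h1 : e 0 = x0 := Subtype.ext (by rw [he]; simp)
    rw [mem_preimage, h1] at h
    exact hx0.2 h
  obtain ⟨f, hf⟩ := geometric_hahn_banach_open_point hK1.interior isOpen_interior h0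
  rw [map_zero] at hf
  have hf' : ∀ w ∈ e ⁻¹' ((↑) ⁻¹' K), f w ≤ 0 := by
    intro w hw
    have h1 : w ∈ closure (interior (e ⁻¹' ((↑) ⁻¹' K))) := by
      rw [hK1.closure_interior_eq_closure_of_nonempty_interior hne]
      exact subset_closure hw
    have h2 : closure (interior (e ⁻¹' ((↑) ⁻¹' K))) ⊆ {w | f w ≤ 0} :=
      closure_minimal (fun v hv => (hf v hv).le) (isClosed_le f.continuous continuous_const)
    exact h2 h1
  set u := (InnerProductSpace.toDual ℝ (affineSpan ℝ K).direction).symm f with hu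
  have hfu : ∀ w, ⟪u, w⟫ = f w := fun w => InnerProductSpace.toDual_symm_apply
  refine ⟨(u : E), ?_, ?_, ?_⟩
  · rw [← direction_affineSpan]; exact u.2
  · intro h
    obtain ⟨w, hw⟩ := hne
    have h1 := hf w hw
    have h2 : u = 0 := by exact_mod_cast h
    rw [← hfu, h2, inner_zero_left] at h1
    exact lt_irrefl _ h1
  · intro y hy
    set w : (affineSpan ℝ K).direction := ⟨y - x0, AffineSubspace.vsub_mem_direction
      (subset_affineSpan ℝ K hy) x0.2⟩ with hw
    have h1 := hf' w (by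
      rw [mem_preimage, mem_preimage, he, hw]
      simpa using hy)
    rw [← hfu] at h1
    have h2 : ⟪(u : E), y - x0⟫ ≤ 0 := h1
    rw [inner_sub_right] at h2
    linarith

lemma mem_frontier_of_support [FiniteDimensional ℝ E] (hxK : x ∈ K) {u : E}
    (hu : u ∈ vectorSpan ℝ K) (hu0 : u ≠ 0) (h : ∀ y ∈ K, ⟪u, y⟫ ≤ ⟪u, x⟫) :
    x ∈ intrinsicFrontier ℝ K := by
  set x0 : affineSpan ℝ K := ⟨x, subset_affineSpan ℝ K hxK⟩ with hx0
  have : Nonempty (affineSpan ℝ K) := ⟨x0⟩
  let e : (affineSpan ℝ K).direction ≃ₜ affineSpan ℝ K :=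
    (AffineIsometryEquiv.vaddConst ℝ x0).toHomeomorph
  have he : ∀ w, ((e w : affineSpan ℝ K) : E) = (w : E) + x0 := fun w => rfl
  refine ⟨x0, ⟨subset_closure hxK, ?_⟩, rfl⟩
  intro hint
  have h0 : (0 : (affineSpan ℝ K).direction) ∈ interior (e ⁻¹' ((↑) ⁻¹' K)) := by
    rw [← e.preimage_interior]
    have h1 : e 0 = x0 := Subtype.ext (by rw [he]; simp)
    rw [mem_preimage, h1]
    exact hint
  obtain ⟨ε, hε, hball⟩ := Metric.isOpen_iff.mp isOpen_interior 0 h0
  rw [← direction_affineSpan] at hu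
  set u' : (affineSpan ℝ K).direction := ⟨u, hu⟩ with hu'
  have hn : 0 < ‖u‖ := norm_pos_iff.mpr hu0
  set w : (affineSpan ℝ K).direction := (ε / (2 * ‖u‖)) • u' with hw
  have hwball : w ∈ Metric.ball (0 : (affineSpan ℝ K).direction) ε := by
    rw [mem_ball_zero_iff, hw, norm_smul]
    have : ‖u'‖ = ‖u‖ := rfl
    rw [this, Real.norm_eq_abs, abs_of_pos (by positivity)]
    have : ε / (2 * ‖u‖) * ‖u‖ = ε / 2 := by field_simp
    rw [this]; linarith
  have h1 := interior_subset (hball hwball)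
  rw [mem_preimage, mem_preimage, he] at h1
  have h2 := h _ h1
  have h3 : (w : E) = (ε / (2 * ‖u‖)) • u := rfl
  have h4 : (x0 : E) = x := rfl
  rw [h3, h4, inner_add_right, inner_smul_right, real_inner_self_eq_norm_sq] at h2
  have h5 : 0 < ε / (2 * ‖u‖) * ‖u‖ ^ 2 := by positivity
  linarith

end

end Pool.Agent.Lib.MP_30679c_gt
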