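import Pool.Agent.Lib.MP_30679c_gt.Body

/-!
The components of the set where the gap function is positive.
-/

namespace Pool.Agent.Lib.MP_30679c_gt

open Real MeasureTheory Set Filter Topology

/-- Points at distance one from two distinct points of `S`. -/
def Vert (S : Finset ℂ) : Set ℂ := {x | ∃ a ∈ S, ∃ b ∈ S, a ≠ b ∧ ‖x - a‖ = 1 ∧ ‖x - b‖ = 1}

lemma finite_Vert (S : Finset ℂ) : (Vert S).Finite := by
  have key : ∀ a b : ℂ, a ≠ b → {x : ℂ | ‖x - a‖ = 1 ∧ ‖x - b‖ = 1}.Finite := by
    intro a b hab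
    by_cases h : ({x : ℂ | ‖x - a‖ = 1 ∧ ‖x - b‖ = 1}).Subsingleton
    · exact h.finite
    · rw [Set.not_subsingleton_iff] at h
      obtain ⟨p, hp, q, hq, hpq⟩ := h
      apply (Set.toFinite {p, q}).subset
      intro x hx
      simp only [mem_ofPred_eq, ← dist_eq_norm] at hp hq hx
      exact EuclideanGeometry.eq_of_dist_eq_of_dist_eq_of_finrank_eq_two
        Complex.finrank_real_complex hab hpq hp.1 hq.1 hx.1 hp.2 hq.2 hx.2
  have : Vert S ⊆ ⋃ a ∈ S, ⋃ b ∈ S, {x : ℂ | a ≠ b ∧ ‖x - a‖ = 1 ∧ ‖x - b‖ = 1} := by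
    rintro x ⟨a, ha, b, hb, h⟩
    simp only [mem_iUnion]
    exact ⟨a, ha, b, hb, h⟩
  apply Set.Finite.subset _ this
  apply Set.Finite.biUnion S.finite_toSet
  intro a _
  apply Set.Finite.biUnion S.finite_toSet
  intro b _
  by_cases hab : a = b
  · simp [hab]
  · apply (key a b hab).subset
    rintro x ⟨_, h⟩
    exact h

namespace Body

variable (P : Body)

lemma vert_or_arc (u : ℝ) : P.Y u ∈ Vert P.S ∨ ∃ s ∈ P.S, P.Y u = s + ee u := by
  by_contra hcon
  push Not at hcon
  obtain ⟨hnv, hna⟩ := hcon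
  -- choose `s₀`
  obtain ⟨s₀, hs₀, hoth⟩ : ∃ s₀ ∈ P.S, ∀ s ∈ P.S, s ≠ s₀ → ‖P.Y u - s‖ < 1 := by
    by_cases h : ∃ s₀ ∈ P.S, ‖P.Y u - s₀‖ = 1
    · obtain ⟨s₀, hs₀, h1⟩ := h
      refine ⟨s₀, hs₀, fun s hs hne => lt_of_le_of_ne (P.hY u s hs) fun h2 => ?_⟩
      exact hnv ⟨s, hs, s₀, hs₀, hne, h2, h1⟩
    · push Not at h
      obtain ⟨s₀, hs₀⟩ := P.hS
      exact ⟨s₀, hs₀, fun s hs _ => lt_of_le_of_ne (P.hY u s hs) (h s hs)⟩
  have hlt : dot (P.Y u - s₀) u < 1 := by
    by_contra h
    push Not at h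
    have := eq_ee_of_dot (P.hY u s₀ hs₀) h
    exact hna s₀ hs₀ (by rw [← this]; ring)
  -- for small `l` the perturbed point stays in the intersection
  have hev : ∀ᶠ l : ℝ in 𝓝[>] 0, P.Y u + l • (s₀ + ee u - P.Y u) ∈ DD P.S := by
    have h1 : ∀ s ∈ P.S, ∀ᶠ l : ℝ in 𝓝[>] 0, ‖P.Y u + l • (s₀ + ee u - P.Y u) - s‖ ≤ 1 := by
      intro s hs
      by_cases hss : s = s₀
      · subst hss
        filter_upwards [self_mem_nhdsWithin, nhdsWithin_le_nhds (Iio_mem_nhds one_pos)] with l hl hl1
        simp only [mem_Ioi] at hl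
        simp only [mem_Iio] at hl1
        have e : P.Y u + l • (s + ee u - P.Y u) - s = (1 - l) • (P.Y u - s) + l • ee u := by
          apply Complex.ext <;> simp <;> ring
        rw [e]
        calc ‖(1 - l) • (P.Y u - s) + l • ee u‖ ≤ ‖(1 - l) • (P.Y u - s)‖ + ‖l • ee u‖ :=
              norm_add_le _ _
          _ = (1 - l) * ‖P.Y u - s‖ + l := by
              rw [norm_smul, norm_smul, norm_ee, Real.norm_eq_abs, Real.norm_eq_abs,
                abs_of_nonneg (by linarith), abs_of_pos hl]; ring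
          _ ≤ 1 := by nlinarith [P.hY u s hs]
      · have h2 : Tendsto (fun l : ℝ => ‖P.Y u + l • (s₀ + ee u - P.Y u) - s‖) (𝓝 0)
            (𝓝 ‖P.Y u + (0:ℝ) • (s₀ + ee u - P.Y u) - s‖) := by
          apply Continuous.tendsto
          fun_prop
        have h3 : ‖P.Y u + (0:ℝ) • (s₀ + ee u - P.Y u) - s‖ < 1 := by
          simpa using hoth s hs hss
        filter_upwards [nhdsWithin_le_nhds (h2.eventually (gt_mem_nhds h3))] with l hl
        exact hl.le
    have h2 := (Filter.eventually_all_finset P.S).mpr h1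
    filter_upwards [h2] with l hl
    exact hl
  obtain ⟨l, hl, hl0'⟩ := (hev.and self_mem_nhdsWithin).exists
  have hl0 : 0 < l := hl0'
  have h := P.hmax u _ hl
  simp only [dot_add, dot_smul, dot_sub, dot_ee_self] at h hlt
  nlinarith

lemma mem_Vert_of_gap_pos {t : ℝ} (ht : 0 < P.gap t) : P.Y (t + π) ∈ Vert P.S := by
  rcases P.vert_or_arc (t + π) with h | ⟨s, hs, h⟩
  · exact h
  · exfalso
    have h1 := P.le_hK hs t
    have h2 : P.F t = dot s t := by
      rw [F_eq, h, ee_add_pi]; simp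
    simp only [gap] at ht
    linarith

lemma exists_const {p q : ℝ} (hpq : p < q) (h : ∀ t ∈ Ioo p q, 0 < P.gap t) :
    ∃ d ∈ DD P.S, ∀ t ∈ Icc p q, P.Y (t + π) = d := by
  have hcont : Continuous (fun t => P.Y (t + π)) :=
    P.continuous_Y.comp (continuous_id.add continuous_const)
  have hsub : ((fun t => P.Y (t + π)) '' Ioo p q).Subsingleton := by
    by_contra hns
    rw [Set.not_subsingleton_iff] at hns
    have hpre := isPreconnected_Ioo.image (fun t => P.Y (t + π)) hcont.continuousOn (s := Ioo p q)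
    have hinf := hpre.infinite_of_nontrivial hns
    apply hinf
    apply (finite_Vert P.S).subset
    rintro _ ⟨t, ht, rfl⟩
    exact P.mem_Vert_of_gap_pos (h t ht)
  have hmid : (p + q) / 2 ∈ Ioo p q := ⟨by linarith, by linarith⟩
  refine ⟨P.Y ((p + q) / 2 + π), P.hY _, fun t ht => ?_⟩
  have hcl : IsClosed {t | P.Y (t + π) = P.Y ((p + q) / 2 + π)} :=
    isClosed_eq hcont continuous_const
  have hss : Ioo p q ⊆ {t | P.Y (t + π) = P.Y ((p + q) / 2 + π)} := by
    intro t ht
    exact hsub (mem_image_of_mem _ ht) (mem_image_of_mem _ hmid)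
  have := hcl.closure_subset_iff.mpr hss
  rw [closure_Ioo hpq.ne] at this
  exact this ht

/-- An arc of angles on which the support point of the intersection of the discs is constant has
length less than `π`. -/
lemma sub_lt_pi {p q : ℝ} {d : ℂ} (h : ∀ t ∈ Icc p q, P.Y (t + π) = d) : q - p < π := by
  by_contra hcon
  push Not at hcon
  have hp := h p ⟨le_rfl, by linarith [pi_pos]⟩
  have hq := h (p + π) ⟨by linarith [pi_pos], by linarith⟩
  have hall : ∀ x ∈ DD P.S, dot x p = dot d p := by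
    intro x hx
    have h1 := P.hmax (p + π) x hx
    have h2 := P.hmax (p + π + π) x hx
    rw [hp] at h1
    rw [hq] at h2
    simp only [dot_add_pi] at h1 h2
    linarith
  have hev : ∀ᶠ l : ℝ in 𝓝[>] 0, P.x₀ + l • ee p ∈ DD P.S := by
    have h1 : ∀ s ∈ P.S, ∀ᶠ l : ℝ in 𝓝[>] 0, ‖P.x₀ + l • ee p - s‖ ≤ 1 := by
      intro s hs
      have h2 : Tendsto (fun l : ℝ => ‖P.x₀ + l • ee p - s‖) (𝓝 0)
          (𝓝 ‖P.x₀ + (0:ℝ) • ee p - s‖) := by
        apply Continuous.tendsto
        fun_prop
      have h3 : ‖P.x₀ + (0:ℝ) • ee p - s‖ < 1 := by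
        simpa using P.hx₀ s hs
      filter_upwards [nhdsWithin_le_nhds (h2.eventually (gt_mem_nhds h3))] with l hl
      exact hl.le
    have h2 := (Filter.eventually_all_finset P.S).mpr h1
    filter_upwards [h2] with l hl
    exact hl
  obtain ⟨l, hl, hl0'⟩ := (hev.and self_mem_nhdsWithin).exists
  have hl0 : 0 < l := hl0'
  have h1 := hall _ hl
  have h2 := hall P.x₀ (fun s hs => (P.hx₀ s hs).le)
  simp only [dot_add, dot_smul, dot_ee_self] at h1
  linarith

lemma F_of_const {t : ℝ} {d : ℂ} (h : P.Y (t + π) = d) : P.F t = 1 + dot d t := by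
  rw [F_eq, h]

lemma mem_of_gap_eq_zero {p : ℝ} {d : ℂ} (hd : P.Y (p + π) = d) (h : P.gap p = 0) :
    d + ee p ∈ P.S := by
  obtain ⟨s, hs, hKs⟩ := P.exists_hK p
  have hF := P.F_of_const hd
  have h1 : dot s p = 1 + dot d p := by
    simp only [gap] at h
    linarith
  have h2 : s - d = ee p := by
    apply eq_ee_of_dot
    · rw [norm_sub_rev, ← hd]; exact P.hY _ s hs
    · simp only [dot_sub]; linarith
  rw [← h2]
  simpa using hs

lemma gap_le_of_const {p t : ℝ} {d : ℂ} (hd : P.Y (t + π) = d) (hs : d + ee p ∈ P.S) :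
    P.gap t ≤ (t - p) ^ 2 / 2 := by
  have h1 := P.le_hK hs t
  have h2 := P.F_of_const hd
  simp only [dot_add, dot_ee] at h1
  have h3 := one_sub_sq_div_two_le_cos (x := t - p)
  simp only [gap]
  linarith

lemma trig_identity (x : ℂ) (m a b : ℝ) :
    sin (2 * b) * dot x (m + a) = sin (b + a) * dot x (m + b) + sin (b - a) * dot x (m - b) := by
  rw [dot_add_angle, dot_add_angle, dot_sub_angle, sin_two_mul, sin_add, sin_sub]
  ring

lemma F_trig (m : ℝ) {a b : ℝ} (ha : 0 ≤ a) (hab : a ≤ b) (hb : b < π / 2) :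
    (P.F (m + a) + P.F (m - a)) * cos b ≤ (P.F (m + b) + P.F (m - b)) * cos a := by
  rcases eq_or_lt_of_le (ha.trans hab) with hb0 | hb0
  · have : a = 0 := le_antisymm (hab.trans hb0.symm.le) ha
    subst this; subst hb0; simp
  have hs : 0 < sin b := sin_pos_of_pos_of_lt_pi hb0 (by linarith [pi_pos])
  have h1 : 0 ≤ sin (b + a) := sin_nonneg_of_nonneg_of_le_pi (by linarith) (by linarith)
  have h2 : 0 ≤ sin (b - a) := sin_nonneg_of_nonneg_of_le_pi (by linarith) (by linarith)
  have e1 : sin (2 * b) * P.F (m + a) ≤ sin (b + a) * P.F (m + b) + sin (b - a) * P.F (m - b) := by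
    rw [← P.dot_X_self (m + a), trig_identity]
    gcongr
    · exact P.dot_X_le _ _
    · exact P.dot_X_le _ _
  have e2 : sin (2 * b) * P.F (m - a) ≤ sin (b + a) * P.F (m - b) + sin (b - a) * P.F (m + b) := by
    have h3 := trig_identity (P.X (m - a)) m (-a) b
    rw [← sub_eq_add_neg, sub_neg_eq_add, ← sub_eq_add_neg, P.dot_X_self (m - a)] at h3
    rw [h3]
    have := mul_le_mul_of_nonneg_left (P.dot_X_le (m - a) (m + b)) h2
    have := mul_le_mul_of_nonneg_left (P.dot_X_le (m - a) (m - b)) h1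
    linarith
  have e3 : sin (2 * b) * (P.F (m + a) + P.F (m - a))
      ≤ (sin (b + a) + sin (b - a)) * (P.F (m + b) + P.F (m - b)) := by linarith
  have e4 : sin (b + a) + sin (b - a) = 2 * sin b * cos a := by
    rw [sin_add, sin_sub]; ring
  rw [e4, sin_two_mul] at e3
  have e5 : 2 * sin b * ((P.F (m + a) + P.F (m - a)) * cos b)
      ≤ 2 * sin b * ((P.F (m + b) + P.F (m - b)) * cos a) := by linarith
  exact le_of_mul_le_mul_left e5 (by positivity)

lemma v_trig {p q : ℝ} {d : ℂ} (hc : ∀ t ∈ Icc p q, P.Y (t + π) = d) {m : ℝ}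
    {a b : ℝ} (ha : 0 ≤ a) (hab : a ≤ b) (hb : b < π / 2) (hp : p ≤ m - b) (hq : m + b ≤ q) :
    (P.v (m + a) + P.v (m - a)) * cos b ≤ (P.v (m + b) + P.v (m - b)) * cos a := by
  have hv : ∀ t ∈ Icc p q, P.v t = dot d t + P.F (t + π) := by
    intro t ht
    rw [v_eq', P.F_of_const (hc t ht)]; ring
  rw [hv (m + a) ⟨by linarith, by linarith⟩, hv (m - a) ⟨by linarith, by linarith⟩,
    hv (m + b) ⟨by linarith, by linarith⟩, hv (m - b) ⟨by linarith, by linarith⟩]
  have h1 := P.F_trig (m + π) ha hab hb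
  have h2 := dot_sum_angle d m a
  have h3 := dot_sum_angle d m b
  rw [show m + a + π = m + π + a by ring, show m - a + π = m + π - a by ring,
    show m + b + π = m + π + b by ring, show m - b + π = m + π - b by ring]
  have e1 : (dot d (m + a) + P.F (m + π + a) + (dot d (m - a) + P.F (m + π - a))) * cos b
      = (dot d (m + a) + dot d (m - a)) * cos b + (P.F (m + π + a) + P.F (m + π - a)) * cos b := by
    ring
  have e2 : (dot d (m + b) + P.F (m + π + b) + (dot d (m - b) + P.F (m + π - b))) * cos a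
      = (dot d (m + b) + dot d (m - b)) * cos a + (P.F (m + π + b) + P.F (m + π - b)) * cos a := by
    ring
  rw [e1, e2, h2, h3]
  linarith

end Body

/-- Integral over a symmetric interval. -/
lemma integral_symm {f : ℝ → ℝ} (hf : Continuous f) (m r : ℝ) :
    ∫ t in (m - r)..(m + r), f t = ∫ t in (0:ℝ)..r, (f (m + t) + f (m - t)) := by
  rw [intervalIntegral.integral_add]
  · rw [intervalIntegral.integral_comp_add_left (fun t => f t),
      intervalIntegral.integral_comp_sub_left (fun t => f t)]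
    simp only [add_zero, sub_zero]
    have := intervalIntegral.integral_add_adjacent_intervals
      (hf.intervalIntegrable (m - r) m) (hf.intervalIntegrable (μ := volume) m (m + r))
    linarith
  · exact (hf.comp (continuous_const.add continuous_id)).intervalIntegrable _ _
  · exact (hf.comp (continuous_const.sub continuous_id)).intervalIntegrable _ _

/-- The Chebyshev type inequality used on each component. -/
lemma cheb {W : ℝ → ℝ} (hW : Continuous W) {b : ℝ} (hb0 : 0 < b) (hb : b < π / 2)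
    (hmono : ∀ x y, 0 ≤ x → x ≤ y → y ≤ b → W x * cos y ≤ W y * cos x) {r : ℝ}
    (hr0 : 0 ≤ r) (hr : r ≤ b) :
    sin b * ∫ t in (0:ℝ)..r, W t ≤ sin r * ∫ t in (0:ℝ)..b, W t := by
  have hcr : 0 < cos r := cos_pos_of_mem_Ioo ⟨by linarith, by linarith⟩
  have hint : ∀ x y : ℝ, IntervalIntegrable W volume x y := fun x y => hW.intervalIntegrable x y
  have hcint : ∀ x y : ℝ, IntervalIntegrable (fun t => W r / cos r * cos t) volume x y :=
    fun x y => (continuous_const.mul continuous_cos).intervalIntegrable x y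
  have h1 : ∫ t in (0:ℝ)..r, W t ≤ W r / cos r * sin r := by
    have : ∫ t in (0:ℝ)..r, W t ≤ ∫ t in (0:ℝ)..r, W r / cos r * cos t := by
      apply intervalIntegral.integral_mono_on hr0 (hint _ _) (hcint _ _)
      intro t ht
      have := hmono t r ht.1 ht.2 hr
      rw [div_mul_eq_mul_div, le_div_iff₀ hcr]
      exact this
    refine this.trans (le_of_eq ?_)
    rw [intervalIntegral.integral_const_mul, integral_cos]; simp
  have h2 : W r / cos r * (sin b - sin r) ≤ ∫ t in r..b, W t := by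
    have : ∫ t in r..b, W r / cos r * cos t ≤ ∫ t in r..b, W t := by
      apply intervalIntegral.integral_mono_on hr (hcint _ _) (hint _ _)
      intro t ht
      have := hmono r t hr0 ht.1 ht.2
      rw [div_mul_eq_mul_div, div_le_iff₀ hcr]
      exact this
    refine le_trans (le_of_eq ?_) this
    rw [intervalIntegral.integral_const_mul, integral_cos]
  rw [← intervalIntegral.integral_add_adjacent_intervals (hint 0 r) (hint r b)]
  have hs1 : 0 ≤ sin r := sin_nonneg_of_nonneg_of_le_pi hr0 (by linarith [pi_pos])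
  have hs2 : 0 ≤ sin b - sin r := by
    have := sin_le_sin_of_le_of_le_pi_div_two (by linarith [pi_pos]) hb.le hr
    linarith
  nlinarith [mul_le_mul_of_nonneg_left h2 hs1, mul_le_mul_of_nonneg_right h1 hs2]

lemma sin_sub_bound {a b : ℝ} (ha : 0 ≤ a) (hab : a ≤ b) (hb : b < π / 2) :
    sin (b - a) ≤ sin b - a * cos b := by
  have h : a * cos b ≤ ∫ t in (b - a)..b, cos t := by
    have h1 : ∫ t in (b - a)..b, cos b ≤ ∫ t in (b - a)..b, cos t := by
      apply intervalIntegral.integral_mono_on (by linarith)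
        (continuous_const.intervalIntegrable _ _) (continuous_cos.intervalIntegrable _ _)
      intro t ht
      exact cos_le_cos_of_nonneg_of_le_pi (by linarith [ht.1]) (by linarith [pi_pos]) ht.2
    simpa using h1
  rw [integral_cos] at h
  linarith

namespace Body

variable (P : Body)

lemma integral_gap_left {p : ℝ} {d : ℂ} {a : ℝ} (ha : 0 ≤ a)
    (hc : ∀ t ∈ Icc p (p + a), P.Y (t + π) = d) (hs : d + ee p ∈ P.S) :
    ∫ t in p..(p + a), P.gap t ≤ a ^ 3 / 6 := by
  have h1 : ∫ t in p..(p + a), P.gap t ≤ ∫ t in p..(p + a), (t - p) ^ 2 / 2 := by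
    apply intervalIntegral.integral_mono_on (by linarith)
      (P.continuous_gap.intervalIntegrable _ _)
      ((by fun_prop : Continuous fun t : ℝ => (t - p) ^ 2 / 2).intervalIntegrable _ _)
    intro t ht
    exact P.gap_le_of_const (hc t ht) hs
  refine h1.trans (le_of_eq ?_)
  rw [intervalIntegral.integral_comp_sub_right (fun t => t ^ 2 / 2)]
  simp only [sub_self, add_sub_cancel_left]
  rw [intervalIntegral.integral_div, integral_pow]
  norm_num; ring

lemma integral_gap_right {q : ℝ} {d : ℂ} {a : ℝ} (ha : 0 ≤ a)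
    (hc : ∀ t ∈ Icc (q - a) q, P.Y (t + π) = d) (hs : d + ee q ∈ P.S) :
    ∫ t in (q - a)..q, P.gap t ≤ a ^ 3 / 6 := by
  have h1 : ∫ t in (q - a)..q, P.gap t ≤ ∫ t in (q - a)..q, (t - q) ^ 2 / 2 := by
    apply intervalIntegral.integral_mono_on (by linarith)
      (P.continuous_gap.intervalIntegrable _ _)
      ((by fun_prop : Continuous fun t : ℝ => (t - q) ^ 2 / 2).intervalIntegrable _ _)
    intro t ht
    exact P.gap_le_of_const (hc t ht) hs
  refine h1.trans (le_of_eq ?_)
  rw [intervalIntegral.integral_comp_sub_right (fun t => t ^ 2 / 2)]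
  simp only [sub_self]
  rw [intervalIntegral.integral_div, integral_pow]
  norm_num; ring

/-- The inequality on one component of the set where the gap is positive. -/
lemma comp_ineq {p q c : ℝ} (hpq : p < q) (hp : P.gap p = 0) (hq : P.gap q = 0)
    (h : ∀ t ∈ Ioo p q, 0 < P.gap t) (hc0 : 0 ≤ c)
    (htan : 4 * sin ((q - p) / 2) ≤ 3 * cos ((q - p) / 2)) :
    ∫ t in p..q, P.gap t ≤
      (1 - min 1 (4 / 3 * c)) * (∫ t in p..q, P.v t) + (q - p) * c ^ 2 / 6 := by
  obtain ⟨d, -, hd⟩ := P.exists_const hpq h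
  have hlt := P.sub_lt_pi hd
  have hsp : d + ee p ∈ P.S := P.mem_of_gap_eq_zero (hd p ⟨le_rfl, hpq.le⟩) hp
  have hsq : d + ee q ∈ P.S := P.mem_of_gap_eq_zero (hd q ⟨hpq.le, le_rfl⟩) hq
  set b := (q - p) / 2 with hb
  have hb0 : 0 < b := by rw [hb]; linarith
  have hb2 : b < π / 2 := by rw [hb]; linarith
  have hint : ∀ x y : ℝ, IntervalIntegrable P.gap volume x y :=
    fun x y => P.continuous_gap.intervalIntegrable x y
  have hvint : ∀ x y : ℝ, IntervalIntegrable P.v volume x y :=
    fun x y => P.continuous_v.intervalIntegrable x y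
  have hvnn : 0 ≤ ∫ t in p..q, P.v t :=
    intervalIntegral.integral_nonneg hpq.le fun t _ => P.v_nonneg t
  -- general bound with a parameter `a ≤ b`
  have main : ∀ a : ℝ, 0 ≤ a → a ≤ b →
      sin b * ∫ t in p..q, P.gap t ≤ sin (b - a) * (∫ t in p..q, P.v t) + sin b * (a ^ 3 / 3) := by
    intro a ha hab
    have hl := P.integral_gap_left ha (fun t ht => hd t ⟨ht.1, by linarith [ht.2]⟩) hsp
    have hr := P.integral_gap_right ha (fun t ht => hd t ⟨by linarith [ht.1], ht.2⟩) hsq
    have hm : ∫ t in (p + a)..(q - a), P.gap t ≤ ∫ t in (p + a)..(q - a), P.v t :=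
      intervalIntegral.integral_mono_on (by linarith) (hint _ _) (hvint _ _)
        fun t _ => P.gap_le_v t
    have hsum : ∫ t in p..q, P.gap t = (∫ t in p..(p + a), P.gap t) +
        (∫ t in (p + a)..(q - a), P.gap t) + ∫ t in (q - a)..q, P.gap t := by
      rw [intervalIntegral.integral_add_adjacent_intervals (hint _ _) (hint _ _),
        intervalIntegral.integral_add_adjacent_intervals (hint _ _) (hint _ _)]
    set m := (p + q) / 2 with hmdef
    have e1 : ∫ t in (p + a)..(q - a), P.v t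
        = ∫ t in (0:ℝ)..(b - a), (P.v (m + t) + P.v (m - t)) := by
      rw [← integral_symm P.continuous_v]
      congr 1 <;> rw [hmdef, hb] <;> ring
    have e2 : ∫ t in p..q, P.v t = ∫ t in (0:ℝ)..b, (P.v (m + t) + P.v (m - t)) := by
      rw [← integral_symm P.continuous_v]
      congr 1 <;> rw [hmdef, hb] <;> ring
    have hWc : Continuous (fun t => P.v (m + t) + P.v (m - t)) :=
      (P.continuous_v.comp (continuous_const.add continuous_id)).add
        (P.continuous_v.comp (continuous_const.sub continuous_id))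
    have h3 := cheb hWc hb0 hb2 (fun x y hx hxy hy =>
      P.v_trig hd (m := m) hx hxy (by linarith) (by rw [hmdef, hb] at *; linarith)
        (by rw [hmdef, hb] at *; linarith)) (r := b - a) (by linarith) (by linarith)
    rw [← e1, ← e2] at h3
    have hsb : 0 ≤ sin b := sin_nonneg_of_nonneg_of_le_pi hb0.le (by linarith [pi_pos])
    rw [hsum]
    nlinarith [mul_le_mul_of_nonneg_left hl hsb, mul_le_mul_of_nonneg_left hr hsb,
      mul_le_mul_of_nonneg_left hm hsb]
  have hsb : 0 < sin b := sin_pos_of_pos_of_lt_pi hb0 (by linarith [pi_pos])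
  rcases le_total c b with hcb | hcb
  · -- `a = c`
    have h1 := main c hc0 hcb
    have h2 := sin_sub_bound hc0 hcb hb2
    have hsn : 0 ≤ sin (b - c) := sin_nonneg_of_nonneg_of_le_pi (by linarith) (by linarith [pi_pos])
    have h3 : sin (b - c) ≤ sin b * (1 - 4 / 3 * c) := by nlinarith
    have h4 : 0 ≤ 1 - 4 / 3 * c := by
      by_contra hneg
      push Not at hneg
      nlinarith [mul_neg_of_pos_of_neg hsb hneg]
    rw [min_eq_right (by linarith)]
    have h5 : sin b * ∫ t in p..q, P.gap t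
        ≤ sin b * ((1 - 4 / 3 * c) * (∫ t in p..q, P.v t) + c ^ 3 / 3) := by
      nlinarith [mul_le_mul_of_nonneg_right h3 hvnn]
    have h6 := le_of_mul_le_mul_left h5 hsb
    have h7 : c ^ 3 / 3 ≤ (q - p) * c ^ 2 / 6 := by
      have : 2 * c ≤ q - p := by rw [hb] at hcb; linarith
      nlinarith [sq_nonneg c]
    linarith
  · -- `a = b`
    have h1 := main b hb0.le le_rfl
    rw [sub_self, sin_zero, zero_mul, zero_add] at h1
    have h2 := le_of_mul_le_mul_left h1 hsb
    have h3 : b ^ 3 / 3 ≤ (q - p) * c ^ 2 / 6 := by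
      have e : q - p = 2 * b := by rw [hb]; ring
      rw [e]
      have : b ^ 2 ≤ c ^ 2 := by nlinarith
      nlinarith
    have h4 : 0 ≤ (1 - min 1 (4 / 3 * c)) * ∫ t in p..q, P.v t :=
      mul_nonneg (by linarith [min_le_left 1 (4 / 3 * c)]) hvnn
    linarith

end Body

end Pool.Agent.Lib.MP_30679c_gt
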