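import Mathlib

/-!
Definitions used in the statement: farthest distances, plane convex bodies, constant width.
-/

namespace Pool.Agent.Lib.MP_30679c_gt

open scoped RealInnerProductSpace

variable {E : Type*} [NormedAddCommGroup E] [InnerProductSpace ℝ E]

/-- The distance from `x` to a farthest point of `C` (for a nonempty compact set `C` the supremum
is a maximum). -/
noncomputable def farDist (C : Set E) (x : E) : ℝ := sSup ((fun y => dist x y) '' C)

/-- A plane convex body of `E`: a compact convex set spanning a plane, i.e. a compact convex set
contained in a plane and having nonempty interior relative to that plane. -/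
def IsPlaneConvexBody (K : Set E) : Prop :=
  IsCompact K ∧ Convex ℝ K ∧ Module.finrank ℝ (vectorSpan ℝ K) = 2

/-- `K` has constant width `w` within its span: for each unit direction `u` of the span
of `K`, the two supporting lines of `K` orthogonal to `u` are at distance `w`. -/
def HasConstantWidth (K : Set E) (w : ℝ) : Prop :=
  ∀ u ∈ vectorSpan ℝ K, ‖u‖ = 1 →
    sSup ((fun y => ⟪u, y⟫) '' K) - sInf ((fun y => ⟪u, y⟫) '' K) = w

end Pool.Agent.Lib.MP_30679c_gt
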