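import Pool.Agent.Lib.MP_30679c_gt.Plane

/-!
From a finite set whose convex hull has all its boundary points far from some point of the set
to the data of `Body`.
-/

namespace Pool.Agent.Lib.MP_30679c_gt

open Real MeasureTheory Set Filter Topology

lemma inner_eq_re_im (z w : ℂ) : inner ℝ z w = z.re * w.re + z.im * w.im := by
  rw [Complex.inner]; simp [Complex.mul_re]; ring

lemma norm_mul_dot_arg (z w : ℂ) : ‖z‖ * dot w z.arg = inner ℝ z w := by
  have h1 : z.re = ‖z‖ * cos z.arg := (Complex.norm_mul_cos_arg z).symm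
  have h2 : z.im = ‖z‖ * sin z.arg := (Complex.norm_mul_sin_arg z).symm
  rw [inner_eq_re_im]
  calc ‖z‖ * dot w z.arg = (‖z‖ * cos z.arg) * w.re + (‖z‖ * sin z.arg) * w.im := by
        simp only [dot]; ring
    _ = _ := by rw [← h1, ← h2]

/-- Nearest point projection onto a closed convex set. -/
lemma exists_proj {K : Set ℂ} (hne : K.Nonempty) (hcl : IsClosed K) (hconv : Convex ℝ K) (y : ℂ) :
    ∃ v ∈ K, ∀ w ∈ K, inner ℝ (y - v) (w - v) ≤ 0 := by
  obtain ⟨v, hv, h⟩ := exists_norm_eq_iInf_of_complete_convex hne hcl.isComplete hconv y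
  exact ⟨v, hv, (norm_eq_iInf_iff_real_inner_le_zero hconv hv).mp h⟩

lemma exists_sep {K : Set ℂ} (hne : K.Nonempty) (hcl : IsClosed K) (hconv : Convex ℝ K) {y : ℂ}
    (hy : y ∉ K) : ∃ t, ∀ w ∈ K, dot w t < dot y t := by
  obtain ⟨v, hv, h⟩ := exists_proj hne hcl hconv y
  have hyv : y - v ≠ 0 := fun h0 => hy (by rw [sub_eq_zero] at h0; rw [h0]; exact hv)
  have hn : 0 < ‖y - v‖ := norm_pos_iff.mpr hyv
  refine ⟨(y - v).arg, fun w hw => ?_⟩
  have h1 := h w hw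
  rw [← norm_mul_dot_arg] at h1
  have h2 : ‖y - v‖ * dot (y - v) (y - v).arg = ‖y - v‖ * ‖y - v‖ := by
    rw [norm_mul_dot_arg, real_inner_self_eq_norm_sq]; ring
  have h3 : dot (y - v) (y - v).arg = ‖y - v‖ := mul_left_cancel₀ hn.ne' h2
  have h4 : dot (w - v) (y - v).arg ≤ 0 := by
    by_contra hneg
    push Not at hneg
    nlinarith [mul_pos hn hneg]
  rw [dot_sub] at h3 h4
  linarith

/-- The support function of a finite set. -/
noncomputable def sup (S : Finset ℂ) (hS : S.Nonempty) (t : ℝ) : ℝ := S.sup' hS (fun s => dot s t)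

lemma le_sup {S : Finset ℂ} (hS : S.Nonempty) {s : ℂ} (hs : s ∈ S) (t : ℝ) : dot s t ≤ sup S hS t :=
  Finset.le_sup' (fun s => dot s t) hs

lemma sup_le {S : Finset ℂ} (hS : S.Nonempty) {t a : ℝ} (h : ∀ s ∈ S, dot s t ≤ a) :
    sup S hS t ≤ a := Finset.sup'_le _ _ h

lemma exists_sup {S : Finset ℂ} (hS : S.Nonempty) (t : ℝ) : ∃ s ∈ S, sup S hS t = dot s t :=
  Finset.exists_mem_eq_sup' hS (fun s => dot s t)

lemma continuous_sup {S : Finset ℂ} (hS : S.Nonempty) : Continuous (sup S hS) := by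
  unfold sup
  apply Continuous.finset_sup'_apply
  intro s _
  exact continuous_dot s

lemma sup_add_two_pi {S : Finset ℂ} (hS : S.Nonempty) (t : ℝ) :
    sup S hS (t + 2 * π) = sup S hS t := by
  simp [sup]

lemma isCompact_hull (S : Finset ℂ) : IsCompact (convexHull ℝ (S : Set ℂ)) :=
  S.finite_toSet.isCompact_convexHull (𝕜 := ℝ)

lemma dot_le_of_mem_hull {S : Finset ℂ} {x : ℂ} (hx : x ∈ convexHull ℝ (S : Set ℂ)) {t a : ℝ}
    (h : ∀ s ∈ S, dot s t ≤ a) : dot x t ≤ a := by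
  have hconv : Convex ℝ {y : ℂ | dot y t ≤ a} := by
    intro y hy z hz l m hl hm hlm
    simp only [mem_ofPred_eq, dot_add, dot_smul] at *
    have h1 : l * dot y t ≤ l * a := mul_le_mul_of_nonneg_left hy hl
    have h2 : m * dot z t ≤ m * a := mul_le_mul_of_nonneg_left hz hm
    calc l * dot y t + m * dot z t ≤ l * a + m * a := add_le_add h1 h2
      _ = a := by rw [← add_mul, hlm, one_mul]
  exact convexHull_min (fun s hs => h s hs) hconv hx

lemma exists_ge_of_mem_hull {S : Finset ℂ} {x : ℂ} (hx : x ∈ convexHull ℝ (S : Set ℂ)) (t : ℝ) :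
    ∃ s ∈ S, dot x t ≤ dot s t := by
  have hne : S.Nonempty := by
    rw [← Finset.coe_nonempty, ← convexHull_nonempty_iff (𝕜 := ℝ)]
    exact ⟨x, hx⟩
  obtain ⟨s, hs, hmax⟩ := Finset.exists_max_image S (fun s => dot s t) hne
  exact ⟨s, hs, dot_le_of_mem_hull hx hmax⟩

lemma big_case_real {δ u w : ℝ} (hδ0 : 0 ≤ δ) (hu0 : 0 ≤ u) (hw0 : 0 ≤ w) (h1 : u ≤ δ)
    (h2 : w ≤ δ) (hsq : 2 + δ ^ 2 / 2 ≤ u ^ 2 + w ^ 2) :
    8 / 5 ≤ δ ∨ 16 / 5 ≤ δ + (u + w) := by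
  by_contra hneg
  push Not at hneg
  obtain ⟨hδ1, hs⟩ := hneg
  have hu2 : u ^ 2 ≤ δ ^ 2 := pow_le_pow_left₀ hu0 h1 2
  have hw2 : w ^ 2 ≤ δ ^ 2 := pow_le_pow_left₀ hw0 h2 2
  have hδ2 : 4 / 3 ≤ δ ^ 2 := by linarith
  have hδ3 : 23 / 20 ≤ δ := by
    by_contra hlt
    push Not at hlt
    have : δ ^ 2 ≤ (23 / 20) ^ 2 := pow_le_pow_left₀ hδ0 hlt.le 2
    norm_num at this
    linarith
  have hδ4 : δ ^ 2 ≤ (8 / 5) ^ 2 := pow_le_pow_left₀ hδ0 hδ1.le 2
  have huw0 : 0 ≤ u * w := mul_nonneg hu0 hw0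
  have huw : 0 ≤ (δ - u) * (δ - w) := mul_nonneg (sub_nonneg.mpr h1) (sub_nonneg.mpr h2)
  have hge : δ ≤ u + w := by
    by_contra hlt
    push Not at hlt
    have h3 : (u + w) ^ 2 ≤ δ ^ 2 := pow_le_pow_left₀ (add_nonneg hu0 hw0) hlt.le 2
    have h4 : u ^ 2 + w ^ 2 ≤ (u + w) ^ 2 := by
      have : (u + w) ^ 2 = u ^ 2 + w ^ 2 + 2 * (u * w) := by ring
      linarith
    norm_num at hδ4
    linarith
  have hsd : 2 - δ ^ 2 / 2 ≤ (u + w - δ) ^ 2 := by
    have : (u + w - δ) ^ 2 = u ^ 2 + w ^ 2 - δ ^ 2 + 2 * ((δ - u) * (δ - w)) := by ring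
    linarith
  have hlast : (u + w - δ) ^ 2 ≤ (16 / 5 - 2 * δ) ^ 2 :=
    pow_le_pow_left₀ (sub_nonneg.mpr hge) (by linarith) 2
  have hprod : 0 ≤ (δ - 23 / 20) * (8 / 5 - δ) :=
    mul_nonneg (sub_nonneg.mpr hδ3) (sub_nonneg.mpr hδ1.le)
  have e1 : (16 / 5 - 2 * δ) ^ 2 = 256 / 25 - 64 / 5 * δ + 4 * δ ^ 2 := by ring
  have e2 : (δ - 23 / 20) * (8 / 5 - δ) = 11 / 4 * δ - 46 / 25 - δ ^ 2 := by ring
  rw [e1] at hlast
  rw [e2] at hprod
  linarith

/-- The case where no point is at distance less than one from all points of `S`. -/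
lemma big_case {S : Finset ℂ} (hS : S.Nonempty) (H : ∀ x : ℂ, ∃ s ∈ S, 1 ≤ ‖x - s‖) :
    16 / 5 ≤ ∫ t in (0:ℝ)..(2 * π), sup S hS t := by
  obtain ⟨⟨a, b⟩, hab, hmax⟩ := Finset.exists_max_image (S ×ˢ S) (fun p => ‖p.1 - p.2‖)
    (hS.product hS)
  simp only [Finset.mem_product] at hab hmax
  obtain ⟨ha, hb⟩ := hab
  obtain ⟨q, hq, hq1⟩ := H ((1 / 2 : ℝ) • (a + b))
  have h1 := hmax (a, q) ⟨ha, hq⟩
  have h2 := hmax (b, q) ⟨hb, hq⟩
  simp only at h1 h2
  have htri := triangle_le (continuous_sup hS) (sup_add_two_pi hS) (x := a) (y := b) (z := q)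
    (le_sup hS ha) (le_sup hS hb) (le_sup hS hq)
  have htri2 := triangle_le (continuous_sup hS) (sup_add_two_pi hS) (x := a) (y := b) (z := a)
    (le_sup hS ha) (le_sup hS hb) (le_sup hS ha)
  rw [sub_self, norm_zero, add_zero, norm_sub_rev b a] at htri2
  rw [norm_sub_rev q a] at htri
  have hap : ‖a - q‖ ^ 2 + ‖b - q‖ ^ 2
      = 2 * ‖(1 / 2 : ℝ) • (a + b) - q‖ ^ 2 + ‖a - b‖ ^ 2 / 2 := by
    rw [norm_sq_eq, norm_sq_eq, norm_sq_eq, norm_sq_eq]
    simp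
    ring
  set δ := ‖a - b‖ with hδ
  set u := ‖a - q‖ with hu
  set w := ‖b - q‖ with hw
  have hu0 : 0 ≤ u := norm_nonneg _
  have hw0 : 0 ≤ w := norm_nonneg _
  have hδ0 : 0 ≤ δ := norm_nonneg _
  have hsq : 2 + δ ^ 2 / 2 ≤ u ^ 2 + w ^ 2 := by
    rw [hap]
    have : (1:ℝ) ≤ ‖(1 / 2 : ℝ) • (a + b) - q‖ ^ 2 := one_le_pow₀ hq1
    linarith
  have hfin := big_case_real hδ0 hu0 hw0 h1 h2 hsq
  rcases hfin with h | h <;> linarith

/-- The case distinction for finite sets. -/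
theorem dichotomy {S : Finset ℂ} (hS : S.Nonempty)
    (H : ∀ x ∈ convexHull ℝ (S : Set ℂ), ∀ t : ℝ, (∀ s ∈ S, dot s t ≤ dot x t) →
      ∃ s ∈ S, 1 ≤ ‖x - s‖) :
    16 / 5 ≤ (∫ t in (0:ℝ)..(2 * π), sup S hS t) ∨ ∃ P : Body, P.S = S := by
  by_cases hcase : ∀ x : ℂ, ∃ s ∈ S, 1 ≤ ‖x - s‖
  · left; exact big_case hS hcase
  right
  push Not at hcase
  obtain ⟨x₀, hx₀⟩ := hcase
  set K := convexHull ℝ (S : Set ℂ) with hK
  have hKcomp : IsCompact K := isCompact_hull S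
  have hKcl : IsClosed K := hKcomp.isClosed
  have hKconv : Convex ℝ K := convex_convexHull ℝ _
  have hKne : K.Nonempty := by
    obtain ⟨s, hs⟩ := hS
    exact ⟨s, subset_convexHull ℝ _ hs⟩
  -- a point of `K` close to all points of `S`
  obtain ⟨x₁, hx₁K, hproj⟩ := exists_proj hKne hKcl hKconv x₀
  have hx₁ : ∀ s ∈ S, ‖x₁ - s‖ < 1 := by
    intro s hs
    have h1 := hproj s (subset_convexHull ℝ _ hs)
    have h2 : ‖x₀ - s‖ ^ 2 = ‖x₀ - x₁‖ ^ 2 - 2 * inner ℝ (x₀ - x₁) (s - x₁) + ‖x₁ - s‖ ^ 2 := by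
      rw [inner_eq_re_im, norm_sq_eq, norm_sq_eq, norm_sq_eq]
      simp only [Complex.sub_re, Complex.sub_im]
      ring
    have h3 := hx₀ s hs
    have h4 : ‖x₁ - s‖ ^ 2 ≤ ‖x₀ - s‖ ^ 2 := by
      have := sq_nonneg ‖x₀ - x₁‖
      linarith
    exact (le_of_sq_le_sq h4 (norm_nonneg _)).trans_lt h3
  -- the intersection of the discs is contained in `K`
  have hDK : DD S ⊆ K := by
    intro y hy
    by_contra hyK
    set L : ℝ → ℂ := fun t => (1 - t) • y + t • x₁ with hL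
    have hLc : Continuous L := by
      simp only [hL]; fun_prop
    set T : Set ℝ := {t | t ∈ Icc (0:ℝ) 1 ∧ L t ∈ K} with hT
    have hTc : IsCompact T :=
      isCompact_Icc.inter_right (hKcl.preimage hLc)
    have h1T : (1:ℝ) ∈ T := ⟨⟨zero_le_one, le_rfl⟩, by simp [hL]; exact hx₁K⟩
    have hmin := hTc.sInf_mem ⟨1, h1T⟩
    set t₁ := sInf T with ht₁
    obtain ⟨ht₁I, ht₁K⟩ := hmin
    have ht₁pos : 0 < t₁ := by
      rcases lt_or_eq_of_le ht₁I.1 with h | h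
      · exact h
      · exfalso; apply hyK
        rw [← h] at ht₁K
        simpa [hL] using ht₁K
    -- there is a support direction at `L t₁`
    obtain ⟨θ, hθ⟩ : ∃ θ, sup S hS θ ≤ dot (L t₁) θ := by
      by_contra hno
      push Not at hno
      obtain ⟨θ₀, -, hθ₀⟩ := (isCompact_Icc (a := (0:ℝ)) (b := 2 * π)).exists_isMinOn
        ⟨0, le_rfl, by positivity⟩
        ((continuous_sup hS).sub (continuous_dot (L t₁))).continuousOn
      set δ := sup S hS θ₀ - dot (L t₁) θ₀ with hδ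
      have hδ0 : 0 < δ := sub_pos.mpr (hno θ₀)
      have hall : ∀ θ, δ ≤ sup S hS θ - dot (L t₁) θ := by
        have hper : Function.Periodic (fun θ => sup S hS θ - dot (L t₁) θ) (2 * π) := by
          intro θ; simp [sup_add_two_pi]
        intro θ
        obtain ⟨θ', hθ', he⟩ := hper.exists_mem_Ico₀ (by positivity) θ
        have h10 : sup S hS θ - dot (L t₁) θ = sup S hS θ' - dot (L t₁) θ' := he
        rw [h10]
        exact hθ₀ ⟨hθ'.1, hθ'.2.le⟩
      have hnear : ∀ᶠ t in 𝓝 t₁, ‖L t - L t₁‖ < δ := by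
        have h5 : Tendsto (fun t => ‖L t - L t₁‖) (𝓝 t₁) (𝓝 ‖L t₁ - L t₁‖) :=
          ((hLc.sub continuous_const).norm).tendsto t₁
        rw [sub_self, norm_zero] at h5
        exact h5.eventually (gt_mem_nhds hδ0)
      have hnear2 : ∀ᶠ t in 𝓝[<] t₁, ‖L t - L t₁‖ < δ := nhdsWithin_le_nhds hnear
      have hpos2 : ∀ᶠ t in 𝓝[<] t₁, 0 < t := nhdsWithin_le_nhds (lt_mem_nhds ht₁pos)
      obtain ⟨t, ⟨ht1, ht2⟩, ht3'⟩ := ((hnear2.and hpos2).and self_mem_nhdsWithin).exists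
      have ht3 : t < t₁ := ht3'
      have htK : L t ∉ K := by
        intro h
        have : t₁ ≤ t := csInf_le hTc.bddBelow ⟨⟨ht2.le, by linarith [ht₁I.2]⟩, h⟩
        linarith
      obtain ⟨φ, hφ⟩ := exists_sep hKne hKcl hKconv htK
      obtain ⟨s, hs, hsup⟩ := exists_sup hS φ
      have h6 := hφ s (subset_convexHull ℝ _ hs)
      have h7 := hall φ
      have h8 := dot_le_norm (L t - L t₁) φ
      rw [dot_sub] at h8
      linarith
    obtain ⟨s, hs, hs1⟩ := H (L t₁) ht₁K θ (fun s hs => (le_sup hS hs θ).trans hθ)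
    have h9 : ‖L t₁ - s‖ < 1 := by
      have e : L t₁ - s = (1 - t₁) • (y - s) + t₁ • (x₁ - s) := by
        simp only [hL]
        apply Complex.ext <;> simp <;> ring
      rw [e]
      calc ‖(1 - t₁) • (y - s) + t₁ • (x₁ - s)‖ ≤ ‖(1 - t₁) • (y - s)‖ + ‖t₁ • (x₁ - s)‖ :=
            norm_add_le _ _
        _ = (1 - t₁) * ‖y - s‖ + t₁ * ‖x₁ - s‖ := by
            rw [norm_smul, norm_smul, Real.norm_eq_abs, Real.norm_eq_abs,
              abs_of_nonneg (by linarith [ht₁I.2]), abs_of_pos ht₁pos]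
        _ ≤ (1 - t₁) * 1 + t₁ * ‖x₁ - s‖ := by
            have h11 := mul_le_mul_of_nonneg_left (hy s hs) (show 0 ≤ 1 - t₁ by linarith [ht₁I.2])
            linarith
        _ < (1 - t₁) * 1 + t₁ * 1 := by
            have h12 := mul_lt_mul_of_pos_left (hx₁ s hs) ht₁pos
            linarith
        _ = 1 := by ring
    linarith
  -- build the data
  have hDne : (DD S).Nonempty := ⟨x₀, fun s hs => (hx₀ s hs).le⟩
  have hmaxY : ∀ t : ℝ, ∃ y ∈ DD S, ∀ x ∈ DD S, dot x t ≤ dot y t := by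
    intro t
    have hc : Continuous (fun z : ℂ => dot z t) := by
      unfold dot
      exact (Complex.continuous_re.mul continuous_const).add
        (Complex.continuous_im.mul continuous_const)
    obtain ⟨y, hy, hm⟩ := (isCompact_DD hS).exists_isMaxOn hDne hc.continuousOn
    exact ⟨y, hy, fun x hx => hm hx⟩
  choose Y hY hmax using hmaxY
  exact ⟨{ S := S, hS := hS, Y := Y, hY := hY, hmax := hmax, x₀ := x₀, hx₀ := hx₀,
           hDK := fun t x hx => exists_ge_of_mem_hull (hDK hx) t }, rfl⟩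

end Pool.Agent.Lib.MP_30679c_gt
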