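import Mathlib

/-!
Scalar products with the unit vector of a given angle in the plane, and elementary facts
used in the study of plane sets through their support functions.
-/

namespace Pool.Agent.Lib.MP_30679c_gt

open Real MeasureTheory Set Filter Topology

/-- The scalar product of `z` with the unit vector of angle `t`. -/
noncomputable def dot (z : ℂ) (t : ℝ) : ℝ := z.re * cos t + z.im * sin t

/-- The derivative of `dot z`. -/
noncomputable def dot' (z : ℂ) (t : ℝ) : ℝ := z.im * cos t - z.re * sin t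

/-- The unit vector of angle `t`. -/
noncomputable def ee (t : ℝ) : ℂ := ⟨cos t, sin t⟩

@[simp] lemma ee_re (t : ℝ) : (ee t).re = cos t := rfl
@[simp] lemma ee_im (t : ℝ) : (ee t).im = sin t := rfl

lemma norm_sq_eq (z : ℂ) : ‖z‖ ^ 2 = z.re ^ 2 + z.im ^ 2 := by
  rw [Complex.sq_norm, Complex.normSq_apply]; ring

@[simp] lemma norm_ee (t : ℝ) : ‖ee t‖ = 1 := by
  have h : ‖ee t‖ ^ 2 = 1 := by
    rw [norm_sq_eq]; simp
  have h0 := norm_nonneg (ee t)
  nlinarith

@[simp] lemma dot_add (z w : ℂ) (t : ℝ) : dot (z + w) t = dot z t + dot w t := by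
  simp [dot]; ring

@[simp] lemma dot_sub (z w : ℂ) (t : ℝ) : dot (z - w) t = dot z t - dot w t := by
  simp [dot]; ring

@[simp] lemma dot_neg (z : ℂ) (t : ℝ) : dot (-z) t = - dot z t := by
  simp [dot]; ring

@[simp] lemma dot_smul (r : ℝ) (z : ℂ) (t : ℝ) : dot (r • z) t = r * dot z t := by
  simp [dot]; ring

@[simp] lemma dot_zero (t : ℝ) : dot 0 t = 0 := by simp [dot]

@[simp] lemma dot_add_pi (z : ℂ) (t : ℝ) : dot z (t + π) = - dot z t := by
  simp [dot, cos_add_pi, sin_add_pi]; ring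

@[simp] lemma dot_add_two_pi (z : ℂ) (t : ℝ) : dot z (t + 2 * π) = dot z t := by
  simp [dot]

lemma dot_ee (a t : ℝ) : dot (ee a) t = cos (t - a) := by
  simp [dot, cos_sub]; ring

@[simp] lemma dot_ee_self (t : ℝ) : dot (ee t) t = 1 := by
  simp [dot_ee]

lemma ee_add_pi (t : ℝ) : ee (t + π) = - ee t := by
  apply Complex.ext <;> simp [cos_add_pi, sin_add_pi]

lemma ee_add_two_pi (t : ℝ) : ee (t + 2 * π) = ee t := by
  apply Complex.ext <;> simp

lemma norm_sq_eq_dot (z : ℂ) (t : ℝ) : ‖z‖ ^ 2 = dot z t ^ 2 + dot' z t ^ 2 := by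
  rw [norm_sq_eq]
  simp only [dot, dot']
  have := sin_sq_add_cos_sq t
  linear_combination (-(z.re ^ 2 + z.im ^ 2)) * this

lemma abs_dot_le (z : ℂ) (t : ℝ) : |dot z t| ≤ ‖z‖ := by
  apply abs_le_of_sq_le_sq _ (norm_nonneg z)
  rw [norm_sq_eq_dot z t]; nlinarith [sq_nonneg (dot' z t)]

lemma dot_le_norm (z : ℂ) (t : ℝ) : dot z t ≤ ‖z‖ := (le_abs_self _).trans (abs_dot_le z t)

lemma abs_dot'_le (z : ℂ) (t : ℝ) : |dot' z t| ≤ ‖z‖ := by
  apply abs_le_of_sq_le_sq _ (norm_nonneg z)
  rw [norm_sq_eq_dot z t]; nlinarith [sq_nonneg (dot z t)]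

lemma exists_dot_eq_norm (z : ℂ) : ∃ t, dot z t = ‖z‖ := by
  refine ⟨Complex.arg z, ?_⟩
  simp only [dot]
  by_cases hz : z = 0
  · simp [hz]
  have h1 : z.re = ‖z‖ * cos z.arg := (Complex.norm_mul_cos_arg z).symm
  have h2 : z.im = ‖z‖ * sin z.arg := (Complex.norm_mul_sin_arg z).symm
  have := sin_sq_add_cos_sq z.arg
  calc z.re * cos z.arg + z.im * sin z.arg
      = (‖z‖ * cos z.arg) * cos z.arg + (‖z‖ * sin z.arg) * sin z.arg := by
        rw [← h1, ← h2]
    _ = ‖z‖ := by linear_combination ‖z‖ * this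

lemma norm_le_of_dot_le {z : ℂ} {c : ℝ} (h : ∀ t, dot z t ≤ c) : ‖z‖ ≤ c := by
  obtain ⟨t, ht⟩ := exists_dot_eq_norm z
  rw [← ht]; exact h t

lemma eq_ee_of_dot {z : ℂ} {t : ℝ} (h1 : ‖z‖ ≤ 1) (h2 : 1 ≤ dot z t) : z = ee t := by
  have h3 := dot_le_norm z t
  have h4 : dot z t = 1 := le_antisymm (h3.trans h1) h2
  have h5 : ‖z‖ = 1 := le_antisymm h1 (h4 ▸ h3)
  have h6 : dot' z t = 0 := by
    have := norm_sq_eq_dot z t
    rw [h4, h5] at this
    nlinarith
  simp only [dot] at h4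
  simp only [dot'] at h6
  have := sin_sq_add_cos_sq t
  apply Complex.ext
  · simp only [ee_re]
    linear_combination cos t * h4 - sin t * h6 - z.re * this
  · simp only [ee_im]
    linear_combination sin t * h4 + cos t * h6 - z.im * this

lemma dot_add_angle (z : ℂ) (t h : ℝ) : dot z (t + h) = dot z t * cos h + dot' z t * sin h := by
  simp only [dot, dot', cos_add, sin_add]; ring

lemma dot_sub_angle (z : ℂ) (t h : ℝ) : dot z (t - h) = dot z t * cos h - dot' z t * sin h := by
  simp only [dot, dot', cos_sub, sin_sub]; ring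

lemma dot_sum_angle (z : ℂ) (t h : ℝ) : dot z (t + h) + dot z (t - h) = 2 * cos h * dot z t := by
  rw [dot_add_angle, dot_sub_angle]; ring

lemma hasDerivAt_dot (z : ℂ) (t : ℝ) : HasDerivAt (dot z) (dot' z t) t := by
  have h := ((hasDerivAt_cos t).const_mul z.re).add ((hasDerivAt_sin t).const_mul z.im)
  refine h.congr_deriv ?_
  simp only [dot']; ring

lemma continuous_dot (z : ℂ) : Continuous (dot z) := by
  unfold dot; fun_prop

lemma continuous_dot_uncurry : Continuous (fun p : ℂ × ℝ => dot p.1 p.2) := by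
  unfold dot
  have h1 : Continuous (fun p : ℂ × ℝ => p.1.re) := Complex.continuous_re.comp continuous_fst
  have h2 : Continuous (fun p : ℂ × ℝ => p.1.im) := Complex.continuous_im.comp continuous_fst
  fun_prop

lemma continuous_dot'_uncurry : Continuous (fun p : ℂ × ℝ => dot' p.1 p.2) := by
  unfold dot'
  have h1 : Continuous (fun p : ℂ × ℝ => p.1.re) := Complex.continuous_re.comp continuous_fst
  have h2 : Continuous (fun p : ℂ × ℝ => p.1.im) := Complex.continuous_im.comp continuous_fst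
  fun_prop

lemma abs_dot_sub_dot_le (z : ℂ) (s t : ℝ) : |dot z s - dot z t| ≤ ‖z‖ * |s - t| := by
  have := (convex_univ (𝕜 := ℝ) (E := ℝ)).norm_image_sub_le_of_norm_hasDerivWithin_le
    (f := dot z) (f' := dot' z) (C := ‖z‖) (s := univ) (x := t) (y := s)
    (fun x _ => (hasDerivAt_dot z x).hasDerivWithinAt)
    (fun x _ => by rw [Real.norm_eq_abs]; exact abs_dot'_le z x) (mem_univ _) (mem_univ _)
  simpa [Real.norm_eq_abs] using this

lemma norm_ee_sub_ee_sq (s t : ℝ) : ‖ee s - ee t‖ ^ 2 = 2 - 2 * cos (s - t) := by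
  rw [norm_sq_eq]
  simp only [Complex.sub_re, Complex.sub_im, ee_re, ee_im, cos_sub]
  linear_combination sin_sq_add_cos_sq s + sin_sq_add_cos_sq t

lemma norm_ee_sub_ee_le (s t : ℝ) : ‖ee s - ee t‖ ≤ |s - t| := by
  apply le_of_sq_le_sq _ (abs_nonneg _)
  rw [norm_ee_sub_ee_sq, sq_abs]
  have := one_sub_sq_div_two_le_cos (x := s - t)
  linarith

/-- Cauchy-Schwarz in coordinates. -/
lemma re_im_le (z w : ℂ) : z.re * w.re + z.im * w.im ≤ ‖z‖ * ‖w‖ := by
  have h : (z.re * w.re + z.im * w.im) ^ 2 ≤ (‖z‖ * ‖w‖) ^ 2 := by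
    rw [mul_pow, norm_sq_eq, norm_sq_eq]
    nlinarith [sq_nonneg (z.re * w.im - z.im * w.re)]
  exact (abs_le_of_sq_le_sq' h (by positivity)).2

/-! ### The integral of `|dot z|` -/

lemma integral_abs_cos : ∫ t in (0:ℝ)..(2 * π), |cos t| = 4 := by
  have hper : Function.Periodic (fun t : ℝ => |cos t|) (2 * π) := by
    intro t; simp
  have h := hper.intervalIntegral_add_eq 0 (-(π / 2))
  simp only [zero_add] at h
  rw [h]
  have e : -(π / 2) + 2 * π = 3 * π / 2 := by ring
  rw [e]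
  have hint : ∀ a b : ℝ, IntervalIntegrable (fun t : ℝ => |cos t|) volume a b :=
    fun a b => (continuous_cos.abs).intervalIntegrable a b
  rw [← intervalIntegral.integral_add_adjacent_intervals (hint (-(π / 2)) (π / 2))
    (hint (π / 2) (3 * π / 2))]
  have h1 : ∫ t in (-(π / 2))..(π / 2), |cos t| = 2 := by
    rw [intervalIntegral.integral_congr (g := cos)]
    · rw [integral_cos]; simp; norm_num
    · intro t ht
      rw [uIcc_of_le (by linarith [pi_pos])] at ht
      exact abs_of_nonneg (cos_nonneg_of_mem_Icc ht)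
  have h2 : ∫ t in (π / 2)..(3 * π / 2), |cos t| = 2 := by
    rw [intervalIntegral.integral_congr (g := fun t => - cos t)]
    · rw [intervalIntegral.integral_neg, integral_cos]
      have : sin (3 * π / 2) = -1 := by
        rw [show 3 * π / 2 = π / 2 + π by ring, sin_add_pi, sin_pi_div_two]
      rw [this, sin_pi_div_two]; norm_num
    · intro t ht
      rw [uIcc_of_le (by linarith [pi_pos])] at ht
      exact abs_of_nonpos (cos_nonpos_of_pi_div_two_le_of_le ht.1 (by linarith [ht.2]))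
  rw [h1, h2]; norm_num

lemma dot_eq_norm_mul_cos (z : ℂ) (t : ℝ) : dot z t = ‖z‖ * cos (t - z.arg) := by
  have h1 : z.re = ‖z‖ * cos z.arg := (Complex.norm_mul_cos_arg z).symm
  have h2 : z.im = ‖z‖ * sin z.arg := (Complex.norm_mul_sin_arg z).symm
  rw [cos_sub]
  calc dot z t = z.re * cos t + z.im * sin t := rfl
    _ = (‖z‖ * cos z.arg) * cos t + (‖z‖ * sin z.arg) * sin t := by rw [← h1, ← h2]
    _ = _ := by ring

lemma integral_abs_dot (z : ℂ) : ∫ t in (0:ℝ)..(2 * π), |dot z t| = 4 * ‖z‖ := by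
  have h1 : ∀ t, |dot z t| = ‖z‖ * |cos (t - z.arg)| := by
    intro t; rw [dot_eq_norm_mul_cos, abs_mul, abs_of_nonneg (norm_nonneg z)]
  simp_rw [h1]
  rw [intervalIntegral.integral_const_mul]
  have hper : Function.Periodic (fun t : ℝ => |cos t|) (2 * π) := by
    intro t; simp
  rw [intervalIntegral.integral_comp_sub_right (fun t => |cos t|)]
  have h := hper.intervalIntegral_add_eq (0 - z.arg) 0
  have e : 2 * π - z.arg = 0 - z.arg + 2 * π := by ring
  rw [e, h, zero_add, integral_abs_cos]; ring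

end Pool.Agent.Lib.MP_30679c_gt
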