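import Mathlib

/-!
Closed polygons in a Euclidean space: maximisers of the sum of the squared distances under
stretching constraints, and the reflection argument.
-/

namespace Pool.Agent.Lib.MP_30679c_gt

open Finset

variable {E : Type*} [NormedAddCommGroup E] [InnerProductSpace ℝ E]
variable {N : ℕ} [NeZero N]

/-- `q` is obtained from the closed polygon `p` by stretching chords without lengthening edges. -/
def Stretches {E' : Type*} [NormedAddCommGroup E'] (p : ZMod N → E) (q : ZMod N → E') : Prop :=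
  (∀ i, ‖q (i + 1) - q i‖ ≤ ‖p (i + 1) - p i‖) ∧ ∀ i j, ‖p i - p j‖ ≤ ‖q i - q j‖

/-- Sum of the squared mutual distances. -/
noncomputable def energy (q : ZMod N → E) : ℝ := ∑ i, ∑ j, ‖q i - q j‖ ^ 2

omit [InnerProductSpace ℝ E] in
lemma norm_sub_zero_le {p q : ZMod N → E} (h : Stretches p q) (i : ZMod N) :
    ‖q i - q 0‖ ≤ N * ∑ i, ‖p (i + 1) - p i‖ := by
  have hL : ∀ i : ZMod N, ‖q (i + 1) - q i‖ ≤ ∑ i, ‖p (i + 1) - p i‖ := fun i =>
    (h.1 i).trans (Finset.single_le_sum (f := fun i => ‖p (i + 1) - p i‖)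
      (fun _ _ => norm_nonneg _) (mem_univ i))
  have key : ∀ k : ℕ, ‖q (k : ZMod N) - q 0‖ ≤ k * ∑ i, ‖p (i + 1) - p i‖ := by
    intro k
    induction k with
    | zero => simp
    | succ k ih =>
      have e : q ((k + 1 : ℕ) : ZMod N) - q 0
          = (q ((k : ZMod N) + 1) - q (k : ZMod N)) + (q (k : ZMod N) - q 0) := by
        rw [Nat.cast_succ]; abel
      rw [e]
      refine (norm_add_le _ _).trans ?_
      have := hL (k : ZMod N)
      push_cast
      linarith
  have h1 := key i.val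
  rw [ZMod.natCast_zmod_val] at h1
  refine h1.trans ?_
  have h2 : (i.val : ℝ) ≤ N := by exact_mod_cast (ZMod.val_lt i).le
  have h3 : 0 ≤ ∑ i : ZMod N, ‖p (i + 1) - p i‖ := Finset.sum_nonneg fun _ _ => norm_nonneg _
  exact mul_le_mul_of_nonneg_right h2 h3

lemma exists_maximizer [FiniteDimensional ℝ E] (p : ZMod N → E) :
    ∃ q : ZMod N → E, Stretches p q ∧ ∀ q' : ZMod N → E, Stretches p q' → energy q' ≤ energy q := by
  have : ProperSpace E := FiniteDimensional.proper ℝ E
  set K : Set (ZMod N → E) := {q | q 0 = 0 ∧ Stretches p q} with hK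
  have hcl : IsClosed K := by
    have h0 : IsClosed {q : ZMod N → E | q 0 = 0} :=
      isClosed_eq (continuous_apply 0) continuous_const
    have h1 : IsClosed {q : ZMod N → E | ∀ i, ‖q (i + 1) - q i‖ ≤ ‖p (i + 1) - p i‖} := by
      have : {q : ZMod N → E | ∀ i, ‖q (i + 1) - q i‖ ≤ ‖p (i + 1) - p i‖}
          = ⋂ i, {q : ZMod N → E | ‖q (i + 1) - q i‖ ≤ ‖p (i + 1) - p i‖} := by
        ext q; simp
      rw [this]
      exact isClosed_iInter fun i => isClosed_le (by fun_prop) continuous_const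
    have h2 : IsClosed {q : ZMod N → E | ∀ i j, ‖p i - p j‖ ≤ ‖q i - q j‖} := by
      have : {q : ZMod N → E | ∀ i j, ‖p i - p j‖ ≤ ‖q i - q j‖}
          = ⋂ i, ⋂ j, {q : ZMod N → E | ‖p i - p j‖ ≤ ‖q i - q j‖} := by
        ext q; simp
      rw [this]
      exact isClosed_iInter fun i => isClosed_iInter fun j => isClosed_le
        continuous_const (by fun_prop)
    exact h0.inter (h1.inter h2)
  have hbdd : Bornology.IsBounded K := by
    apply (Metric.isBounded_closedBall (x := (0 : ZMod N → E))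
      (r := N * ∑ i, ‖p (i + 1) - p i‖)).subset
    intro q hq
    rw [mem_closedBall_zero_iff]
    have h3 : 0 ≤ (N : ℝ) * ∑ i : ZMod N, ‖p (i + 1) - p i‖ := by
      apply mul_nonneg (Nat.cast_nonneg _)
      exact Finset.sum_nonneg fun _ _ => norm_nonneg _
    rw [pi_norm_le_iff_of_nonneg h3]
    intro i
    have := norm_sub_zero_le hq.2 i
    rwa [hq.1, sub_zero] at this
  have hcomp : IsCompact K := Metric.isCompact_of_isClosed_isBounded hcl hbdd
  have hne : K.Nonempty := ⟨fun i => p i - p 0, by simp, by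
    constructor
    · intro i; simp
    · intro i j; simp⟩
  have hcont : Continuous (energy : (ZMod N → E) → ℝ) := by
    unfold energy
    fun_prop
  obtain ⟨q, hq, hmax⟩ := hcomp.exists_isMaxOn hne hcont.continuousOn
  refine ⟨q, hq.2, fun q' hq' => ?_⟩
  have h1 : (fun i => q' i - q' 0) ∈ K := by
    refine ⟨by simp, ?_, ?_⟩
    · intro i; simpa using hq'.1 i
    · intro i j; simpa using hq'.2 i j
  have h2 : energy (fun i => q' i - q' 0) ≤ energy q := hmax h1
  have h3 : energy (fun i => q' i - q' 0) = energy q' := by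
    unfold energy; simp
  linarith

/-- Reflection in the hyperplane `⟪u, x⟫ = M`, for a unit vector `u`. -/
noncomputable def refl (u : E) (M : ℝ) (x : E) : E := x + (2 * (M - inner ℝ u x)) • u

lemma refl_eq_self {u : E} {M : ℝ} {x : E} (h : inner ℝ u x = M) : refl u M x = x := by
  simp [refl, h]

lemma norm_refl_sub_refl {u : E} (hu : ‖u‖ = 1) (M : ℝ) (x y : E) :
    ‖refl u M x - refl u M y‖ = ‖x - y‖ := by
  have e : refl u M x - refl u M y = (x - y) - (2 * inner ℝ u (x - y)) • u := by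
    simp only [refl, inner_sub_right]
    module
  rw [e, ← sq_eq_sq₀ (norm_nonneg _) (norm_nonneg _), norm_sub_sq_real, norm_smul, hu,
    real_inner_smul_right, real_inner_comm u (x - y), mul_one, Real.norm_eq_abs, sq_abs]
  ring

lemma norm_refl_sub_sq {u : E} (hu : ‖u‖ = 1) (M : ℝ) (x y : E) :
    ‖refl u M x - y‖ ^ 2 = ‖x - y‖ ^ 2 + 4 * (M - inner ℝ u x) * (M - inner ℝ u y) := by
  have e : refl u M x - y = (x - y) + (2 * (M - inner ℝ u x)) • u := by
    simp only [refl]; abel
  rw [e, norm_add_sq_real, norm_smul, hu, real_inner_smul_right, real_inner_comm u (x - y),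
    mul_one, Real.norm_eq_abs, sq_abs, inner_sub_right]
  ring

lemma val_add_one (m : ℕ) (hm : m + 1 < N) (i : ZMod N) (h : i.val = m) : (i + 1).val = m + 1 := by
  have : i = (m : ZMod N) := by rw [← h, ZMod.natCast_zmod_val]
  rw [this, ← Nat.cast_succ, ZMod.val_natCast, Nat.mod_eq_of_lt hm]

lemma val_add_one' (i : ZMod N) : (i + 1).val = i.val + 1 ∨ (i + 1).val = 0 := by
  have hlt := ZMod.val_lt i
  rcases Nat.lt_or_ge (i.val + 1) N with h | h
  · left; exact val_add_one _ h i rfl
  · right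
    have : i.val + 1 = N := by omega
    have e : i + 1 = ((i.val + 1 : ℕ) : ZMod N) := by
      rw [Nat.cast_succ, ZMod.natCast_zmod_val]
    rw [e, this, ZMod.natCast_self, ZMod.val_zero]

/-- The flip property of maximisers, unit vector version. -/
lemma flip_unit {p q : ZMod N → E} (hq : Stretches p q)
    (hmax : ∀ q' : ZMod N → E, Stretches p q' → energy q' ≤ energy q) {u : E} (hu : ‖u‖ = 1) {M : ℝ}
    (hM : ∀ i, inner ℝ u (q i) ≤ M) {j₀ : ZMod N} {k₁ : ℕ} (hk1 : k₁ < N)
    (h0 : inner ℝ u (q j₀) = M) (h1 : inner ℝ u (q (j₀ + k₁)) = M) :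
    (∀ k : ℕ, 0 < k → k < k₁ → inner ℝ u (q (j₀ + k)) = M) ∨
    (∀ k : ℕ, k₁ < k → k < N → inner ℝ u (q (j₀ + k)) = M) := by
  by_contra hcon
  push Not at hcon
  obtain ⟨⟨ka, hka0, hka1, hka⟩, ⟨kb, hkb0, hkb1, hkb⟩⟩ := hcon
  have hka' : inner ℝ u (q (j₀ + ka)) < M := lt_of_le_of_ne (hM _) hka
  have hkb' : inner ℝ u (q (j₀ + kb)) < M := lt_of_le_of_ne (hM _) hkb
  classical
  let A : ZMod N → Prop := fun i => 0 < (i - j₀).val ∧ (i - j₀).val < k₁
  let q' : ZMod N → E := fun i => if A i then refl u M (q i) else q i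
  have hq'A : ∀ i, A i → q' i = refl u M (q i) := fun i hi => if_pos hi
  have hq'nA : ∀ i, ¬ A i → q' i = q i := fun i hi => if_neg hi
  have hle : ∀ i j, ‖q i - q j‖ ^ 2 ≤ ‖q' i - q' j‖ ^ 2 := by
    intro i j
    by_cases hi : A i <;> by_cases hj : A j
    · rw [hq'A i hi, hq'A j hj, norm_refl_sub_refl hu]
    · rw [hq'A i hi, hq'nA j hj, norm_refl_sub_sq hu]
      have := mul_nonneg (sub_nonneg.mpr (hM i)) (sub_nonneg.mpr (hM j))
      nlinarith
    · rw [hq'nA i hi, hq'A j hj, norm_sub_rev (q i) (refl u M (q j)), norm_refl_sub_sq hu,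
        norm_sub_rev (q j)]
      have := mul_nonneg (sub_nonneg.mpr (hM i)) (sub_nonneg.mpr (hM j))
      nlinarith
    · rw [hq'nA i hi, hq'nA j hj]
  have hst : Stretches p q' := by
    constructor
    · intro i
      have hedge : ‖q' (i + 1) - q' i‖ = ‖q (i + 1) - q i‖ := by
        by_cases hi : A i <;> by_cases hj : A (i + 1)
        · rw [hq'A _ hi, hq'A _ hj, norm_refl_sub_refl hu]
        · -- `i + 1 = j₀ + k₁`
          have hfix : inner ℝ u (q (i + 1)) = M := by
            have hlt : (i - j₀).val + 1 < N := by have := hi.2; omega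
            have hval := val_add_one _ hlt (i - j₀) rfl
            have e : i - j₀ + 1 = i + 1 - j₀ := by ring
            rw [e] at hval
            have h3 : (i + 1 - j₀).val = k₁ := by
              by_contra hne
              apply hj
              refine ⟨by omega, ?_⟩
              have := hi.2; omega
            have h4 : i + 1 = j₀ + k₁ := by
              rw [← h3, ZMod.natCast_zmod_val]; ring
            rw [h4]; exact h1
          rw [hq'A _ hi, hq'nA _ hj, ← norm_refl_sub_refl hu M (q (i + 1)) (q i),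
            refl_eq_self hfix]
        · -- `i = j₀`
          have hfix : inner ℝ u (q i) = M := by
            have e : i - j₀ + 1 = i + 1 - j₀ := by ring
            rcases val_add_one' (i - j₀) with h3 | h3
            · rw [e] at h3
              have h4 : (i - j₀).val = 0 := by
                by_contra hne
                apply hi
                refine ⟨by omega, ?_⟩
                have := hj.2; omega
              rw [ZMod.val_eq_zero, sub_eq_zero] at h4
              rw [h4]; exact h0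
            · rw [e] at h3
              have := hj.1
              omega
          rw [hq'nA _ hi, hq'A _ hj, ← norm_refl_sub_refl hu M (q (i + 1)) (q i),
            refl_eq_self hfix]
        · rw [hq'nA _ hi, hq'nA _ hj]
      rw [hedge]; exact hq.1 i
    · intro i j
      refine (hq.2 i j).trans ?_
      exact le_of_sq_le_sq (hle i j) (norm_nonneg _)
  have hlt : energy q < energy q' := by
    unfold energy
    apply Finset.sum_lt_sum
    · intro i _
      exact Finset.sum_le_sum fun j _ => hle i j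
    · refine ⟨j₀ + ka, mem_univ _, ?_⟩
      apply Finset.sum_lt_sum
      · intro j _; exact hle _ j
      · refine ⟨j₀ + kb, mem_univ _, ?_⟩
        have hA : A (j₀ + ka) := by
          have e : j₀ + (ka : ZMod N) - j₀ = (ka : ZMod N) := by ring
          simp only [A]
          rw [e, ZMod.val_natCast, Nat.mod_eq_of_lt (by omega)]
          exact ⟨hka0, hka1⟩
        have hB : ¬ A (j₀ + kb) := by
          have e : j₀ + (kb : ZMod N) - j₀ = (kb : ZMod N) := by ring
          simp only [A]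
          rw [e, ZMod.val_natCast, Nat.mod_eq_of_lt hkb1]
          intro h; omega
        rw [hq'A _ hA, hq'nA _ hB, norm_refl_sub_sq hu]
        have := mul_pos (sub_pos.mpr hka') (sub_pos.mpr hkb')
        nlinarith
  exact absurd (hmax q' hst) (not_le.mpr hlt)

/-- The flip property of maximisers. -/
lemma flip_vec {p q : ZMod N → E} (hq : Stretches p q)
    (hmax : ∀ q' : ZMod N → E, Stretches p q' → energy q' ≤ energy q) {w : E} {M : ℝ}
    (hM : ∀ i, inner ℝ w (q i) ≤ M) {j₀ : ZMod N} {k₁ : ℕ} (hk1 : k₁ < N)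
    (h0 : inner ℝ w (q j₀) = M) (h1 : inner ℝ w (q (j₀ + k₁)) = M) :
    (∀ k : ℕ, 0 < k → k < k₁ → inner ℝ w (q (j₀ + k)) = M) ∨
    (∀ k : ℕ, k₁ < k → k < N → inner ℝ w (q (j₀ + k)) = M) := by
  by_cases hw : w = 0
  · left; intro k _ _
    rw [hw, inner_zero_left] at h0 ⊢
    exact h0
  · have hn : 0 < ‖w‖ := norm_pos_iff.mpr hw
    set u : E := (‖w‖⁻¹) • w with hu
    have hu1 : ‖u‖ = 1 := by
      rw [hu, norm_smul, norm_inv, norm_norm, inv_mul_cancel₀ hn.ne']
    have hinner : ∀ x, inner ℝ u x = ‖w‖⁻¹ * inner ℝ w x := by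
      intro x; rw [hu, real_inner_smul_left]
    have hiff : ∀ x, inner ℝ u x = ‖w‖⁻¹ * M ↔ inner ℝ w x = M := by
      intro x
      rw [hinner]
      constructor
      · intro h; exact mul_left_cancel₀ (inv_ne_zero hn.ne') h
      · intro h; rw [h]
    have hM' : ∀ i, inner ℝ u (q i) ≤ ‖w‖⁻¹ * M := by
      intro i; rw [hinner]
      exact mul_le_mul_of_nonneg_left (hM i) (inv_nonneg.mpr hn.le)
    have := flip_unit hq hmax hu1 hM' hk1 ((hiff _).mpr h0) ((hiff _).mpr h1)
    simp only [hiff] at this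
    exact this

/-- A maximiser is contained in a plane. -/
lemma planar_of_max {p q : ZMod N → E} (hq : Stretches p q)
    (hmax : ∀ q' : ZMod N → E, Stretches p q' → energy q' ≤ energy q) :
    ∃ (j₀ : ZMod N) (a b : E), ∀ i, q i - q j₀ ∈ Submodule.span ℝ {a, b} := by
  classical
  -- an extreme point
  obtain ⟨j₀, -, hj₀⟩ := Finset.exists_max_image (univ : Finset (ZMod N)) (fun i => ‖q i‖)
    univ_nonempty
  set w₀ := q j₀ with hw₀
  have hα : ∀ i, inner ℝ w₀ (q i - q j₀) ≤ - (‖q i - q j₀‖ ^ 2 / 2) := by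
    intro i
    have h1 := norm_sub_sq_real (q i) (q j₀)
    have h2 := hj₀ i (mem_univ _)
    have h3 : ‖q i‖ ^ 2 ≤ ‖q j₀‖ ^ 2 := pow_le_pow_left₀ (norm_nonneg _) h2 2
    rw [inner_sub_right, hw₀, real_inner_self_eq_norm_sq]
    rw [real_inner_comm] at h1
    linarith
  have hα0 : ∀ i, q i ≠ q j₀ → inner ℝ w₀ (q i - q j₀) < 0 := by
    intro i hi
    have h1 : 0 < ‖q i - q j₀‖ := norm_pos_iff.mpr (sub_ne_zero.mpr hi)
    have := hα i
    nlinarith
  have hα1 : ∀ i, inner ℝ w₀ (q i - q j₀) ≤ 0 := fun i => (hα i).trans (by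
    have := sq_nonneg ‖q i - q j₀‖; linarith)
  by_cases hall : ∀ i, q i = q j₀
  · exact ⟨j₀, 0, 0, fun i => by rw [hall i, sub_self]; exact Submodule.zero_mem _⟩
  push Not at hall
  obtain ⟨i₀, hi₀⟩ := hall
  -- the set of steps leading to a different point
  set T : Finset ℕ := (range N).filter (fun k => q (j₀ + k) ≠ q j₀) with hT
  have hTmem : ∀ k, k ∈ T ↔ k < N ∧ q (j₀ + k) ≠ q j₀ := by
    intro k; simp [hT]
  have hval : ∀ i : ZMod N, q i ≠ q j₀ → (i - j₀).val ∈ T := by
    intro i hi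
    rw [hTmem]
    refine ⟨ZMod.val_lt _, ?_⟩
    rw [ZMod.natCast_zmod_val]
    simpa using hi
  have hTne : T.Nonempty := ⟨_, hval i₀ hi₀⟩
  set ka := T.min' hTne with hka
  set kb := T.max' hTne with hkb
  have hkaT : ka ∈ T := Finset.min'_mem _ _
  have hkbT : kb ∈ T := Finset.max'_mem _ _
  obtain ⟨hkaN, hka1⟩ := (hTmem ka).mp hkaT
  obtain ⟨hkbN, hkb1⟩ := (hTmem kb).mp hkbT
  refine ⟨j₀, q (j₀ + ka) - q j₀, q (j₀ + kb) - q j₀, ?_⟩
  set W := Submodule.span ℝ {q (j₀ + ka) - q j₀, q (j₀ + kb) - q j₀} with hW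
  by_contra hcon
  push Not at hcon
  obtain ⟨i, hi⟩ := hcon
  -- the component orthogonal to `W`
  have : FiniteDimensional ℝ W := by
    rw [hW]; exact FiniteDimensional.span_of_finite ℝ (Set.toFinite _)
  set x := q i - q j₀ with hx
  obtain ⟨y, hyW, n, hnW, hxyn⟩ := W.exists_add_mem_mem_orthogonal x
  have hn0 : n ≠ 0 := by
    intro h; apply hi; rw [hxyn, h, add_zero]; exact hyW
  have hnn : 0 < ‖n‖ ^ 2 := by positivity
  have hort : ∀ w ∈ W, inner ℝ n w = 0 := by
    intro w hw
    exact Submodule.inner_left_of_mem_orthogonal hw hnW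
  have hnx : inner ℝ n x = ‖n‖ ^ 2 := by
    rw [hxyn, inner_add_right, hort y hyW, zero_add, real_inner_self_eq_norm_sq]
  set α : ZMod N → ℝ := fun j => inner ℝ w₀ (q j - q j₀) with hαdef
  set β : ZMod N → ℝ := fun j => inner ℝ n (q j - q j₀) with hβdef
  set J : Finset (ZMod N) := univ.filter (fun j => 0 < β j) with hJ
  have hJne : J.Nonempty := ⟨i, by
    simp only [hJ, mem_filter, mem_univ, true_and, hβdef]
    rw [← hx, hnx]; exact hnn⟩
  obtain ⟨j₁, hj₁J, hj₁⟩ := Finset.exists_min_image J (fun j => - α j / β j) hJne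
  have hβ1 : 0 < β j₁ := by simpa [hJ] using hj₁J
  set t := - α j₁ / β j₁ with ht
  have hj₁ne : q j₁ ≠ q j₀ := by
    intro h
    have : β j₁ = 0 := by simp only [hβdef]; rw [h, sub_self, inner_zero_right]
    linarith
  have ht0 : 0 < t := div_pos (by have := hα0 j₁ hj₁ne; simp only [hαdef]; linarith) hβ1
  have hfle : ∀ j, α j + t * β j ≤ 0 := by
    intro j
    rcases le_or_gt (β j) 0 with h | h
    · have h1 := hα1 j
      have h2 : t * β j ≤ 0 := mul_nonpos_of_nonneg_of_nonpos ht0.le h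
      simp only [hαdef]; linarith
    · have h1 := hj₁ j (by simp [hJ, h])
      have h2 : t ≤ - α j / β j := h1
      rw [le_div_iff₀ h] at h2
      linarith
  have hf1 : α j₁ + t * β j₁ = 0 := by
    rw [ht]; field_simp; ring
  set w := w₀ + t • n with hw
  have hwinner : ∀ j, inner ℝ w (q j) = inner ℝ w (q j₀) + (α j + t * β j) := by
    intro j
    simp only [hαdef, hβdef, hw, inner_add_left, real_inner_smul_left, inner_sub_right]
    ring
  have hMle : ∀ j, inner ℝ w (q j) ≤ inner ℝ w (q j₀) := by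
    intro j; rw [hwinner j]; linarith [hfle j]
  have hk1T := hval j₁ hj₁ne
  set k₁ := (j₁ - j₀).val with hk₁
  have hk1N : k₁ < N := ZMod.val_lt _
  have hj1eq : j₀ + (k₁ : ZMod N) = j₁ := by
    rw [hk₁, ZMod.natCast_zmod_val]; ring
  have hle1 : ka ≤ k₁ := Finset.min'_le _ _ hk1T
  have hle2 : k₁ ≤ kb := Finset.le_max' _ _ hk1T
  have haW : q (j₀ + ka) - q j₀ ∈ W := Submodule.subset_span (by simp)
  have hbW : q (j₀ + kb) - q j₀ ∈ W := Submodule.subset_span (by simp)
  have hfa : inner ℝ w (q (j₀ + ka)) < inner ℝ w (q j₀) := by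
    rw [hwinner]
    have h1 : β (j₀ + ka) = 0 := hort _ haW
    have h2 : α (j₀ + ka) < 0 := hα0 _ hka1
    rw [h1]; linarith
  have hfb : inner ℝ w (q (j₀ + kb)) < inner ℝ w (q j₀) := by
    rw [hwinner]
    have h1 : β (j₀ + kb) = 0 := hort _ hbW
    have h2 : α (j₀ + kb) < 0 := hα0 _ hkb1
    rw [h1]; linarith
  have hf1' : inner ℝ w (q (j₀ + k₁)) = inner ℝ w (q j₀) := by
    rw [hj1eq, hwinner, hf1, add_zero]
  have hka0 : 0 < ka := by
    rcases Nat.eq_zero_or_pos ka with h | h
    · exfalso; apply hka1; rw [h]; simp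
    · exact h
  have hne1 : ka ≠ k₁ := by
    intro h; rw [h] at hfa; linarith
  have hne2 : k₁ ≠ kb := by
    intro h; rw [← h] at hfb; linarith
  rcases flip_vec hq hmax hMle hk1N rfl hf1' with h | h
  · have := h ka hka0 (lt_of_le_of_ne hle1 hne1)
    linarith
  · have := h kb (lt_of_le_of_ne hle2 hne2) hkbN
    linarith

end Pool.Agent.Lib.MP_30679c_gt
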