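import Pool.Agent.Lib.MP_30679c_gt.Stretch

/-!
Closed curves: inscribed polygons, the inequality, and the passage to the limit.
-/

namespace Pool.Agent.Lib.MP_30679c_gt

open Real MeasureTheory Set Filter Topology

variable {E : Type*} [NormedAddCommGroup E] [InnerProductSpace ℝ E]

/-- A closed curve together with a continuous monotone function controlling its length. -/
structure Curve (E : Type*) [NormedAddCommGroup E] where
  γ : ℝ → E
  V : ℝ → ℝ
  L : ℝ
  hclosed : γ 0 = γ 1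
  hV0 : V 0 = 0
  hV1 : V 1 = L
  hmono : MonotoneOn V (Icc 0 1)
  hcont : ContinuousOn V (Icc 0 1)
  hlip : ∀ s ∈ Icc (0:ℝ) 1, ∀ t ∈ Icc (0:ℝ) 1, s ≤ t → ‖γ t - γ s‖ ≤ V t - V s

namespace Curve

variable (C : Curve E)

lemma div_mem {N k : ℕ} (hN : 0 < N) (hk : k ≤ N) : (k : ℝ) / N ∈ Icc (0:ℝ) 1 := by
  have hN' : (0:ℝ) < N := by exact_mod_cast hN
  refine ⟨by positivity, ?_⟩
  rw [div_le_one hN']; exact_mod_cast hk

omit [InnerProductSpace ℝ E] in
lemma exists_steps {η : ℝ} (hη : 0 < η) : ∃ N : ℕ, 0 < N ∧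
    ∀ k < N, C.V (((k + 1 : ℕ) : ℝ) / N) - C.V ((k : ℝ) / N) ≤ η := by
  have huc : UniformContinuousOn C.V (Icc 0 1) :=
    isCompact_Icc.uniformContinuousOn_of_continuous C.hcont
  rw [Metric.uniformContinuousOn_iff] at huc
  obtain ⟨δ, hδ, h⟩ := huc η hη
  obtain ⟨n, hn⟩ := exists_nat_one_div_lt hδ
  refine ⟨n + 1, Nat.succ_pos n, fun k hk => ?_⟩
  have h1 := h _ (div_mem (Nat.succ_pos n) hk) _ (div_mem (Nat.succ_pos n) hk.le) (by
    rw [Real.dist_eq, ← sub_div]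
    push_cast
    rw [add_sub_cancel_left, abs_of_pos (by positivity)]
    exact hn)
  rw [Real.dist_eq] at h1
  exact (le_abs_self _).trans h1.le

/-- The inscribed polygon. -/
noncomputable def poly (N : ℕ) (i : ZMod N) : E := C.γ ((i.val : ℝ) / N)

omit [InnerProductSpace ℝ E] in
lemma poly_natCast {N : ℕ} [NeZero N] {k : ℕ} (hk : k ≤ N) :
    C.poly N (k : ZMod N) = C.γ ((k : ℝ) / N) := by
  unfold poly
  rcases lt_or_eq_of_le hk with h | h
  · rw [ZMod.val_natCast, Nat.mod_eq_of_lt h]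
  · rw [h, ZMod.natCast_self, ZMod.val_zero]
    have : ((N : ℝ) / N) = 1 := div_self (by exact_mod_cast NeZero.ne N)
    rw [this, Nat.cast_zero, zero_div]; exact C.hclosed

omit [InnerProductSpace ℝ E] in
lemma poly_edge {N : ℕ} [NeZero N] {k : ℕ} (hk : k < N) :
    ‖C.poly N ((k : ZMod N) + 1) - C.poly N (k : ZMod N)‖
      ≤ C.V (((k + 1 : ℕ) : ℝ) / N) - C.V ((k : ℝ) / N) := by
  have hN : 0 < N := Nat.pos_of_ne_zero (NeZero.ne N)
  rw [← Nat.cast_succ, C.poly_natCast hk, C.poly_natCast hk.le]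
  apply C.hlip _ (div_mem hN hk.le) _ (div_mem hN hk)
  gcongr; exact Nat.le_succ k

omit [InnerProductSpace ℝ E] in
lemma sum_edges {N : ℕ} [NeZero N] :
    ∑ i : ZMod N, ‖C.poly N (i + 1) - C.poly N i‖ ≤ C.L := by
  rw [sum_zmod_eq_sum_range (fun i => ‖C.poly N (i + 1) - C.poly N i‖) 0]
  simp only [zero_add]
  calc ∑ m ∈ Finset.range N, ‖C.poly N ((m : ZMod N) + 1) - C.poly N (m : ZMod N)‖
      ≤ ∑ m ∈ Finset.range N, (C.V (((m + 1 : ℕ) : ℝ) / N) - C.V ((m : ℝ) / N)) :=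
        Finset.sum_le_sum fun m hm => C.poly_edge (Finset.mem_range.mp hm)
    _ = C.V ((N : ℝ) / N) - C.V (((0 : ℕ) : ℝ) / N) :=
        Finset.sum_range_sub (fun m => C.V ((m : ℝ) / N)) N
    _ = C.L := by
        have : ((N : ℝ) / N) = 1 := div_self (by exact_mod_cast NeZero.ne N)
        rw [this, C.hV1, Nat.cast_zero, zero_div, C.hV0, sub_zero]

omit [InnerProductSpace ℝ E] in
lemma floor_facts {N : ℕ} (hN : 0 < N) {η : ℝ} (hη0 : 0 ≤ η)
    (hη : ∀ k < N, C.V (((k + 1 : ℕ) : ℝ) / N) - C.V ((k : ℝ) / N) ≤ η) {t : ℝ}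
    (ht : t ∈ Icc (0:ℝ) 1) : ⌊(N:ℝ) * t⌋₊ ≤ N ∧ ((⌊(N:ℝ) * t⌋₊ : ℝ) / N) ≤ t ∧
      C.V t - C.V ((⌊(N:ℝ) * t⌋₊ : ℝ) / N) ≤ η := by
  have hN' : (0:ℝ) < N := by exact_mod_cast hN
  have h0 : 0 ≤ (N:ℝ) * t := mul_nonneg hN'.le ht.1
  have h1 : ⌊(N:ℝ) * t⌋₊ ≤ N := by
    have : (N:ℝ) * t ≤ N := by nlinarith [ht.2]
    have := Nat.floor_le_floor this
    simpa using this
  have h2 : ((⌊(N:ℝ) * t⌋₊ : ℝ) / N) ≤ t := by
    rw [div_le_iff₀ hN', mul_comm t]; exact Nat.floor_le h0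
  refine ⟨h1, h2, ?_⟩
  rcases lt_or_eq_of_le h1 with h | h
  · have h3 : t ≤ ((⌊(N:ℝ) * t⌋₊ + 1 : ℕ) : ℝ) / N := by
      rw [le_div_iff₀ hN', mul_comm t]
      push_cast
      exact (Nat.lt_floor_add_one _).le
    have h4 := C.hmono ht (div_mem hN h) h3
    have h5 := hη _ h
    linarith
  · rw [h, div_self hN'.ne'] at h2
    have : t = 1 := le_antisymm ht.2 h2
    rw [h, div_self hN'.ne', this, sub_self]; exact hη0

/-- The planar inequality applied to a stretched inscribed polygon. -/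
lemma exists_body [FiniteDimensional ℝ E] {N : ℕ} [NeZero N] {η r r₀ : ℝ} (hη0 : 0 ≤ η)
    (hη : ∀ k < N, C.V (((k + 1 : ℕ) : ℝ) / N) - C.V ((k : ℝ) / N) ≤ η) (hr : 0 < r)
    (hr₀ : r + 2 * η ≤ r₀)
    (hfar : ∀ s ∈ Icc (0:ℝ) 1, ∃ t ∈ Icc (0:ℝ) 1, r₀ ≤ ‖C.γ s - C.γ t‖)
    (hL : C.L / r < 16 / 5) :
    ∃ (z : ZMod N → ℂ) (P : Body), Stretches (C.poly N) z ∧ z 0 = 0 ∧
      (∀ s ∈ P.S, ∃ i, s = (1 / r : ℝ) • z i) ∧ (∀ i, (1 / r : ℝ) • z i ∈ P.S) ∧
      π * (1 + P.c ^ 2 / 6) ≤ C.L / r := by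
  classical
  have hN : 0 < N := Nat.pos_of_ne_zero (NeZero.ne N)
  obtain ⟨z', hst', hsupp'⟩ := stretch (C.poly N)
  set z : ZMod N → ℂ := fun i => z' i - z' 0 with hz
  have hst : Stretches (C.poly N) z := by
    refine ⟨fun i => ?_, fun i j => ?_⟩
    · simp only [hz]; rw [sub_sub_sub_cancel_right]; exact hst'.1 i
    · simp only [hz]; rw [sub_sub_sub_cancel_right]; exact hst'.2 i j
  set S : Finset ℂ := Finset.univ.image (fun i => (1 / r : ℝ) • z i) with hS
  have hSmem : ∀ i, (1 / r : ℝ) • z i ∈ S := fun i => by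
    rw [hS]; exact Finset.mem_image_of_mem _ (Finset.mem_univ i)
  have hSmem' : ∀ s ∈ S, ∃ i, s = (1 / r : ℝ) • z i := by
    intro s hs
    rw [hS, Finset.mem_image] at hs
    obtain ⟨i, -, h⟩ := hs
    exact ⟨i, h.symm⟩
  have hSne : S.Nonempty := ⟨_, hSmem 0⟩
  have hrne : r ≠ 0 := hr.ne'
  have hrr : r * (1 / r) = 1 := by field_simp
  -- edges are short
  have hedge : ∀ i, ‖z' (i + 1) - z' i‖ ≤ η := by
    intro i
    have h1 := (hst'.1 i)
    have h2 := C.poly_edge (N := N) (k := i.val) (ZMod.val_lt i)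
    rw [ZMod.natCast_zmod_val] at h2
    exact h1.trans (h2.trans (hη _ (ZMod.val_lt i)))
  -- vertices are far from some other vertex
  have hvfar : ∀ i, ∃ j, r + η ≤ ‖z' i - z' j‖ := by
    intro i
    obtain ⟨t, ht, htf⟩ := hfar ((i.val : ℝ) / N) (div_mem hN (ZMod.val_lt i).le)
    obtain ⟨hf1, hf2, hf3⟩ := C.floor_facts hN hη0 hη ht
    refine ⟨((⌊(N:ℝ) * t⌋₊ : ℕ) : ZMod N), ?_⟩
    refine le_trans ?_ (hst'.2 i _)
    rw [C.poly_natCast hf1]
    have h3 : ‖C.γ t - C.γ ((⌊(N:ℝ) * t⌋₊ : ℝ) / N)‖ ≤ η :=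
      (C.hlip _ (div_mem hN hf1) _ ht hf2).trans hf3
    have h4 : ‖C.γ ((i.val : ℝ) / N) - C.γ t‖ ≤ ‖C.poly N i - C.γ ((⌊(N:ℝ) * t⌋₊ : ℝ) / N)‖
        + ‖C.γ t - C.γ ((⌊(N:ℝ) * t⌋₊ : ℝ) / N)‖ := by
      have e : C.γ ((i.val : ℝ) / N) - C.γ t = (C.poly N i - C.γ ((⌊(N:ℝ) * t⌋₊ : ℝ) / N))
          - (C.γ t - C.γ ((⌊(N:ℝ) * t⌋₊ : ℝ) / N)) := by
        simp only [poly]; abel
      rw [e]; exact norm_sub_le _ _
    linarith
  have H : ∀ x ∈ convexHull ℝ (S : Set ℂ), ∀ t : ℝ, (∀ s ∈ S, dot s t ≤ dot x t) →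
      ∃ s ∈ S, 1 ≤ ‖x - s‖ := by
    intro x hx t ht
    -- transport to the original polygon
    let A : ℂ →ᵃ[ℝ] ℂ := (r • (LinearMap.id : ℂ →ₗ[ℝ] ℂ)).toAffineMap + AffineMap.const ℝ ℂ (z' 0)
    have hA : ∀ y, A y = r • y + z' 0 := by intro y; simp [A]
    have hAS : A '' (S : Set ℂ) = Set.range z' := by
      ext y
      constructor
      · rintro ⟨s, hs, rfl⟩
        obtain ⟨i, rfl⟩ := hSmem' s hs
        refine ⟨i, ?_⟩
        rw [hA, smul_smul, hrr, one_smul]; simp [hz]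
      · rintro ⟨i, rfl⟩
        refine ⟨_, hSmem i, ?_⟩
        rw [hA, smul_smul, hrr, one_smul]; simp [hz]
    have hx' : r • x + z' 0 ∈ convexHull ℝ (Set.range z') := by
      rw [← hAS, ← AffineMap.image_convexHull, ← hA]
      exact Set.mem_image_of_mem _ hx
    obtain ⟨i, hi⟩ := hsupp' _ hx' t (by
      intro i
      have h1 := ht _ (hSmem i)
      rw [dot_smul, one_div, inv_mul_le_iff₀ hr] at h1
      simp only [hz, dot_sub] at h1
      rw [dot_add, dot_smul]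
      linarith)
    obtain ⟨j, hj⟩ := hvfar i
    refine ⟨_, hSmem j, ?_⟩
    have h2 : r + η ≤ ‖z' i - z' j‖ := hj
    have h3 : ‖r • x + z' 0 - z' i‖ ≤ η := hi.trans (hedge i)
    have h4 : ‖z' i - z' j‖ ≤ ‖r • x + z' 0 - z' j‖ + ‖r • x + z' 0 - z' i‖ := by
      have e : z' i - z' j = (r • x + z' 0 - z' j) - (r • x + z' 0 - z' i) := by abel
      rw [e]; exact norm_sub_le _ _
    have h5 : r • x + z' 0 - z' j = r • (x - (1 / r : ℝ) • z j) := by
      rw [smul_sub, smul_smul, hrr, one_smul]; simp only [hz]; abel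
    rw [h5, norm_smul, Real.norm_eq_abs, abs_of_pos hr] at h4
    have h6 : r * 1 ≤ r * ‖x - (1 / r : ℝ) • z j‖ := by linarith
    exact le_of_mul_le_mul_left h6 hr
  have hper : ∫ t in (0:ℝ)..(2 * π), sup S hSne t ≤ C.L / r := by
    have h1 := integral_sup_le hSne (fun i => (1 / r : ℝ) • z i) (fun s hs => by
      obtain ⟨i, hi⟩ := hSmem' s hs
      exact ⟨i, hi.symm⟩)
    refine h1.trans ?_
    have h2 : ∀ i, ‖(1 / r : ℝ) • z (i + 1) - (1 / r : ℝ) • z i‖
        = (1 / r) * ‖z (i + 1) - z i‖ := by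
      intro i
      rw [← smul_sub, norm_smul, Real.norm_eq_abs, abs_of_pos (by positivity)]
    simp_rw [h2]
    rw [← Finset.mul_sum, one_div, inv_mul_eq_div]
    gcongr
    exact (Finset.sum_le_sum fun i _ => hst.1 i).trans C.sum_edges
  rcases dichotomy hSne H with h | ⟨P, hP⟩
  · exfalso; linarith
  · refine ⟨z, P, hst, by simp [hz], fun s hs => hSmem' s (hP ▸ hs), fun i => hP ▸ hSmem i, ?_⟩
    have hK : ∀ t, P.hK t = sup S hSne t := by
      intro t
      unfold Body.hK sup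
      congr 1
    have hint : ∫ t in (0:ℝ)..(2 * π), P.hK t = ∫ t in (0:ℝ)..(2 * π), sup S hSne t := by
      congr 1; ext t; exact hK t
    rcases P.main with h | h
    · exfalso; rw [hint] at h; linarith
    · rw [hint] at h; exact h.trans hper

/-- The inequality for closed curves. -/
theorem not_far [FiniteDimensional ℝ E] (hL : C.L = π) {r₀ : ℝ} (hr₀ : 1 < r₀) :
    ¬ ∀ s ∈ Icc (0:ℝ) 1, ∃ t ∈ Icc (0:ℝ) 1, r₀ ≤ ‖C.γ s - C.γ t‖ := by
  intro hfar
  obtain ⟨N, hN, hη⟩ := C.exists_steps (η := (r₀ - 1) / 4) (by linarith)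
  have : NeZero N := ⟨hN.ne'⟩
  set r := (r₀ + 1) / 2 with hr
  have hr1 : 1 < r := by rw [hr]; linarith
  have hpi := pi_pos
  have hlt : C.L / r < π := by
    rw [hL, div_lt_iff₀ (by linarith)]; nlinarith
  obtain ⟨z, P, -, -, -, -, h⟩ := C.exists_body (r := r) (r₀ := r₀) (by linarith) hη (by linarith)
    (by rw [hr]; linarith) hfar (by linarith [pi_lt_d2])
  have : 0 ≤ π * (P.c ^ 2 / 6) := by positivity
  linarith

end Curve

namespace Body

variable (P : Body)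

/-- `v` is small when its mean is small. -/
lemma v_sq_le (t : ℝ) : P.v t ^ 2 ≤ 8 * π * P.c := by
  have hpi := pi_pos
  have hlip : ∀ s, P.v t - 2 * |s - t| ≤ P.v s := by
    intro s
    -- compare widths
    have hw : ∀ a b : ℝ, P.hD a + P.hD (a + π) - 2 * |a - b| ≤ P.hD b + P.hD (b + π) := by
      intro a b
      have h1 := P.le_hD (P.hY a) b
      have h2 := P.le_hD (P.hY (a + π)) (b + π)
      have h3 := abs_dot_sub_dot_le (P.Y a - P.Y (a + π)) a b
      have h4 : ‖P.Y a - P.Y (a + π)‖ ≤ 2 := by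
        obtain ⟨x, hx⟩ := P.hS
        have e : P.Y a - P.Y (a + π) = (P.Y a - x) - (P.Y (a + π) - x) := by ring
        rw [e]
        refine (norm_sub_le _ _).trans ?_
        have := P.hY a x hx
        have := P.hY (a + π) x hx
        linarith
      have h5 : dot (P.Y a - P.Y (a + π)) a - dot (P.Y a - P.Y (a + π)) b ≤ 2 * |a - b| := by
        refine (le_abs_self _).trans (h3.trans ?_)
        gcongr
      simp only [hD, dot_add_pi, dot_sub] at *
      linarith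
    have := hw s t
    simp only [v]
    linarith
  have hv0 := P.v_nonneg t
  have hv1 := P.v_le_one t
  set m := P.v t with hm
  have hint : ∀ a b, IntervalIntegrable P.v volume a b :=
    fun a b => P.continuous_v.intervalIntegrable a b
  have h1 : m ^ 2 / 4 ≤ ∫ s in t..(t + m / 2), P.v s := by
    have h2 : ∫ s in t..(t + m / 2), (m - 2 * (s - t)) ≤ ∫ s in t..(t + m / 2), P.v s := by
      apply intervalIntegral.integral_mono_on (by linarith)
        ((by fun_prop : Continuous fun s : ℝ => m - 2 * (s - t)).intervalIntegrable _ _) (hint _ _)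
      intro s hs
      have := hlip s
      rw [abs_of_nonneg (by linarith [hs.1])] at this
      exact this
    refine le_trans (le_of_eq ?_) h2
    rw [intervalIntegral.integral_sub (by simp)
      ((by fun_prop : Continuous fun s : ℝ => 2 * (s - t)).intervalIntegrable _ _),
      intervalIntegral.integral_const_mul,
      intervalIntegral.integral_comp_sub_right (fun s => s)]
    simp
    ring
  have h3 : ∫ s in t..(t + m / 2), P.v s ≤ ∫ s in t..(t + 2 * π), P.v s := by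
    rw [← intervalIntegral.integral_add_adjacent_intervals (hint t (t + m / 2))
      (hint (t + m / 2) (t + 2 * π))]
    have : 0 ≤ ∫ s in (t + m / 2)..(t + 2 * π), P.v s :=
      intervalIntegral.integral_nonneg (by linarith [pi_gt_three]) fun s _ => P.v_nonneg s
    linarith
  rw [integral_base P.v_add_two_pi, P.integral_v] at h3
  linarith

/-- The width of the hull of `S` is close to one. -/
lemma width_close (t : ℝ) : |P.hK t + P.hK (t + π) - 1| ≤ P.v t := by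
  have h1 := P.hD_le_hK t
  have h2 := P.hD_le_hK (t + π)
  have h3 := P.hK_le_F t
  have h4 := P.hK_le_F (t + π)
  have h5 := P.v_eq' t
  have h6 : P.v t = 1 - P.hD t - P.hD (t + π) := rfl
  rw [abs_le]
  constructor <;> linarith

end Body

end Pool.Agent.Lib.MP_30679c_gt
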