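import Pool.Agent.Lib.MP_30679c_gt.Rigid2
import Pool.Agent.Lib.MP_30679c_gt.Boundary

/-!
The main theorem on the farthest distances of a closed curve.
-/

namespace Pool.Agent.Lib.MP_30679c_gt

open Real MeasureTheory Set Filter Topology
open scoped RealInnerProductSpace

section curve

variable {E : Type*} [NormedAddCommGroup E]

lemma variation_continuousOn {γ : ℝ → E} (hγ : ContinuousOn γ (Icc 0 1))
    (hbv : LocallyBoundedVariationOn γ (Icc 0 1)) :
    ContinuousOn (variationOnFromTo γ (Icc 0 1) 0) (Icc 0 1) := by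
  intro b hb
  have h0 : (0:ℝ) ∈ Icc (0:ℝ) 1 := ⟨le_rfl, zero_le_one⟩
  have hl : Tendsto γ (𝓝[Icc 0 1 ∩ Iio b] b) (𝓝 (γ b)) :=
    (hγ b hb).mono inter_subset_left
  have hr : Tendsto γ (𝓝[Icc 0 1 ∩ Ioi b] b) (𝓝 (γ b)) :=
    (hγ b hb).mono inter_subset_left
  have h1 := variationOnFromTo.tendsto_left h0 hb hbv hl
  have h2 := variationOnFromTo.tendsto_right h0 hb hbv hr
  rw [dist_self, sub_zero] at h1
  rw [dist_self, add_zero] at h2
  have h3 : Icc (0:ℝ) 1 ⊆ insert b ((Icc 0 1 ∩ Iio b) ∪ (Icc 0 1 ∩ Ioi b)) := by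
    intro x hx
    rcases lt_trichotomy x b with h | h | h
    · exact Or.inr (Or.inl ⟨hx, h⟩)
    · exact Or.inl h
    · exact Or.inr (Or.inr ⟨hx, h⟩)
  apply ContinuousWithinAt.mono _ h3
  rw [continuousWithinAt_insert_self]
  exact ContinuousWithinAt.union h1 h2

/-- A closed rectifiable curve as a `Curve`. -/
noncomputable def Curve.ofVariation (γ : ℝ → E) (hγ : ContinuousOn γ (Icc 0 1)) (hcl : γ 0 = γ 1)
    (L : ℝ) (hL : 0 ≤ L) (hlen : eVariationOn γ (Icc 0 1) = ENNReal.ofReal L) : Curve E :=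
  have hbv : LocallyBoundedVariationOn γ (Icc 0 1) :=
    BoundedVariationOn.locallyBoundedVariationOn
      (show eVariationOn γ (Icc 0 1) ≠ ⊤ by rw [hlen]; exact ENNReal.ofReal_ne_top)
  { γ := γ
    V := variationOnFromTo γ (Icc 0 1) 0
    L := L
    hclosed := hcl
    hV0 := variationOnFromTo.self _ _ _
    hV1 := by
      rw [variationOnFromTo.eq_of_le _ _ zero_le_one, inter_self, hlen, ENNReal.toReal_ofReal hL]
    hmono := variationOnFromTo.monotoneOn hbv ⟨le_rfl, zero_le_one⟩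
    hcont := variation_continuousOn hγ hbv
    hlip := by
      intro s hs t ht hst
      rw [variationOnFromTo.sub_right hbv (a := 0) ⟨le_rfl, zero_le_one⟩ ht hs,
        variationOnFromTo.eq_of_le _ _ hst, ← dist_eq_norm, dist_comm, dist_edist]
      apply ENNReal.toReal_mono (hbv s t hs ht)
      apply eVariationOn.edist_le
      exacts [⟨hs, le_rfl, hst⟩, ⟨ht, hst, le_rfl⟩] }

end curve

section far

variable {E : Type*} [NormedAddCommGroup E]

lemma farDist_isGreatest {C : Set E} (hC : IsCompact C) (hne : C.Nonempty) (x : E) :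
    IsGreatest ((fun y => dist x y) '' C) (farDist C x) := by
  have hc : IsCompact ((fun y => dist x y) '' C) := hC.image (continuous_const.dist continuous_id)
  exact ⟨hc.sSup_mem (hne.image _), hc.isLUB_sSup (hne.image _) |>.1⟩

lemma continuous_farDist {C : Set E} (hC : IsCompact C) : Continuous (farDist C) :=
  hC.continuous_sSup (f := fun x y => dist x y) continuous_dist

lemma exists_isLeast {C : Set E} (hC : IsCompact C) (hne : C.Nonempty) :
    ∃ m, IsLeast (farDist C '' C) m := by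
  have hc : IsCompact (farDist C '' C) := hC.image (continuous_farDist hC)
  exact ⟨_, hc.isLeast_sInf (hne.image _)⟩

end far

section width

variable {E : Type*} [NormedAddCommGroup E] [InnerProductSpace ℝ E]

lemma norm_sub_le_of_width {K : Set E} (hK : IsCompact K) (hw : HasConstantWidth K 1) {x y : E}
    (hx : x ∈ K) (hy : y ∈ K) : ‖x - y‖ ≤ 1 := by
  rcases eq_or_ne x y with h | h
  · rw [h, sub_self, norm_zero]; exact zero_le_one
  have hn : 0 < ‖x - y‖ := norm_pos_iff.mpr (sub_ne_zero.mpr h)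
  set u : E := ‖x - y‖⁻¹ • (x - y) with hu
  have hu1 : ‖u‖ = 1 := by
    rw [hu, norm_smul, norm_inv, norm_norm, inv_mul_cancel₀ hn.ne']
  have humem : u ∈ vectorSpan ℝ K :=
    Submodule.smul_mem _ _ (vsub_mem_vectorSpan ℝ hx hy)
  have hc : IsCompact ((fun y => ⟪u, y⟫) '' K) := hK.image (by fun_prop)
  have h1 : ⟪u, x⟫ ≤ sSup ((fun y => ⟪u, y⟫) '' K) := le_csSup hc.bddAbove ⟨x, hx, rfl⟩
  have h2 : sInf ((fun y => ⟪u, y⟫) '' K) ≤ ⟪u, y⟫ := csInf_le hc.bddBelow ⟨y, hy, rfl⟩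
  have h3 := hw u humem hu1
  have h4 : ⟪u, x⟫ - ⟪u, y⟫ = ‖x - y‖ := by
    rw [← inner_sub_right, hu, real_inner_smul_left, real_inner_self_eq_norm_sq]
    field_simp
  linarith

lemma exists_opposite [FiniteDimensional ℝ E] {K : Set E} (hK : IsCompact K)
    (hconv : Convex ℝ K) (hw : HasConstantWidth K 1) {x : E} (hx : x ∈ intrinsicFrontier ℝ K) :
    ∃ y ∈ intrinsicFrontier ℝ K, 1 ≤ ‖x - y‖ := by
  obtain ⟨hxK, u₀, hu₀, hu₀0, hsup⟩ := exists_support hconv hK.isClosed hx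
  have hn : 0 < ‖u₀‖ := norm_pos_iff.mpr hu₀0
  set u : E := ‖u₀‖⁻¹ • u₀ with hu
  have hu1 : ‖u‖ = 1 := by
    rw [hu, norm_smul, norm_inv, norm_norm, inv_mul_cancel₀ hn.ne']
  have humem : u ∈ vectorSpan ℝ K := Submodule.smul_mem _ _ hu₀
  have hsup' : ∀ y ∈ K, ⟪u, y⟫ ≤ ⟪u, x⟫ := by
    intro y hy
    rw [hu, real_inner_smul_left, real_inner_smul_left]
    exact mul_le_mul_of_nonneg_left (hsup y hy) (by positivity)
  obtain ⟨y, hyK, hy⟩ := hK.exists_isMinOn ⟨x, hxK⟩ (f := fun y => ⟪u, y⟫)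
    (by fun_prop)
  refine ⟨y, ?_, ?_⟩
  · apply mem_frontier_of_support hyK (u := -u) (Submodule.neg_mem _ humem)
    · intro h
      rw [neg_eq_zero] at h
      rw [h, norm_zero] at hu1
      exact zero_ne_one hu1
    · intro z hz
      rw [inner_neg_left, inner_neg_left]
      exact neg_le_neg (hy hz)
  · have h1 : sSup ((fun y => ⟪u, y⟫) '' K) = ⟪u, x⟫ :=
      IsGreatest.csSup_eq ⟨⟨x, hxK, rfl⟩, by rintro _ ⟨z, hz, rfl⟩; exact hsup' z hz⟩
    have h2 : sInf ((fun y => ⟪u, y⟫) '' K) = ⟪u, y⟫ :=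
      IsLeast.csInf_eq ⟨⟨y, hyK, rfl⟩, by rintro _ ⟨z, hz, rfl⟩; exact hy hz⟩
    have h3 := hw u humem hu1
    rw [h1, h2, ← inner_sub_right] at h3
    have h4 := real_inner_le_norm u (x - y)
    rw [hu1, one_mul] at h4
    linarith

lemma farDist_eq_one [FiniteDimensional ℝ E] {K : Set E} (hK : IsCompact K)
    (hconv : Convex ℝ K) (hw : HasConstantWidth K 1) {x : E} (hx : x ∈ intrinsicFrontier ℝ K) :
    farDist (intrinsicFrontier ℝ K) x = 1 := by
  obtain ⟨y, hy, hxy⟩ := exists_opposite hK hconv hw hx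
  have hsub := intrinsicFrontier_subset (𝕜 := ℝ) hK.isClosed
  apply IsGreatest.csSup_eq
  constructor
  · refine ⟨y, hy, ?_⟩
    simp only [dist_eq_norm]
    exact le_antisymm (norm_sub_le_of_width hK hw (hsub hx) (hsub hy)) hxy
  · rintro _ ⟨z, hz, rfl⟩
    simp only [dist_eq_norm]
    exact norm_sub_le_of_width hK hw (hsub hx) (hsub hz)

end width

namespace RData

variable {E : Type*} [NormedAddCommGroup E] [InnerProductSpace ℝ E] (R : RData E)

lemma inner_ee (θ : ℝ) (x : ℂ) : ⟪ee θ, x⟫ = dot x θ := by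
  rw [Complex.inner]
  simp only [Complex.mul_re, Complex.conj_re, Complex.conj_im, ee_re, ee_im, dot]
  ring

lemma continuous_dot (θ : ℝ) : Continuous fun x : ℂ => dot x θ := by
  unfold dot; fun_prop

lemma isClosed_K : IsClosed R.K := by
  have : R.K = ⋂ θ, {x | dot x θ ≤ R.H θ} := by ext x; simp [K]
  rw [this]
  exact isClosed_iInter fun θ => isClosed_le (continuous_dot θ) continuous_const

lemma isCompact_K : IsCompact R.K := by
  apply Metric.isCompact_of_isClosed_isBounded R.isClosed_K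
  apply Metric.isBounded_closedBall (x := R.X 0) (r := 1) |>.subset
  intro x hx
  rw [Metric.mem_closedBall, dist_eq_norm]
  exact R.norm_sub_le hx (R.X_mem 0)

lemma convex_K : Convex ℝ R.K := by
  intro x hx y hy a b ha hb hab θ
  rw [dot_add, dot_smul, dot_smul]
  have h1 := mul_le_mul_of_nonneg_left (hx θ) ha
  have h2 := mul_le_mul_of_nonneg_left (hy θ) hb
  have h3 : a * R.H θ + b * R.H θ = R.H θ := by rw [← add_mul, hab, one_mul]
  linarith

lemma vectorSpan_K : vectorSpan ℝ R.K = ⊤ := by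
  rw [eq_top_iff]
  intro z _
  have h : ∀ θ, ee θ ∈ vectorSpan ℝ R.K := by
    intro θ
    rw [← R.X_sub_X θ]
    exact vsub_mem_vectorSpan ℝ (R.X_mem _) (R.X_mem _)
  have e : z = z.re • ee 0 + z.im • ee (π / 2) := by
    apply Complex.ext <;> simp
  rw [e]
  exact Submodule.add_mem _ (Submodule.smul_mem _ _ (h _)) (Submodule.smul_mem _ _ (h _))

lemma frontier_K : intrinsicFrontier ℝ R.K = range R.X := by
  apply Subset.antisymm
  · intro x hx
    obtain ⟨hxK, u, -, hu0, hsup⟩ := exists_support R.convex_K R.isClosed_K hx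
    obtain ⟨θ, hθ⟩ := exists_dot_eq_norm u
    have hn : 0 < ‖u‖ := norm_pos_iff.mpr hu0
    have hu : u = ‖u‖ • ee θ := by
      have h1 : ‖(‖u‖⁻¹ • u : ℂ)‖ ≤ 1 := by
        rw [norm_smul, norm_inv, norm_norm, inv_mul_cancel₀ hn.ne']
      have h2 := eq_ee_of_dot (t := θ) h1 (by
        rw [dot_smul, hθ, inv_mul_cancel₀ hn.ne'])
      rw [← h2, smul_smul, mul_inv_cancel₀ hn.ne', one_smul]
    refine ⟨θ, (R.eq_X hxK ?_).symm⟩
    apply le_antisymm (hxK θ)
    have h3 := hsup _ (R.X_mem θ)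
    rw [hu, real_inner_smul_left, real_inner_smul_left, inner_ee, inner_ee, R.dot_X] at h3
    exact le_of_mul_le_mul_left h3 hn
  · rintro _ ⟨θ, rfl⟩
    apply mem_frontier_of_support (R.X_mem θ) (u := ee θ) (by rw [R.vectorSpan_K]; trivial)
    · intro h
      have := norm_ee θ
      rw [h, norm_zero] at this
      exact zero_ne_one this
    · intro y hy
      rw [inner_ee, inner_ee, R.dot_X]
      exact hy θ

/-- The isometric embedding. -/
noncomputable def emb : ℂ →ᵃⁱ[ℝ] E :=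
  (AffineIsometryEquiv.constVAdd ℝ E (R.Z 0)).toAffineIsometry.comp R.A.toAffineIsometry

lemma emb_apply (z : ℂ) : R.emb z = R.A z + R.Z 0 := by
  change R.Z 0 +ᵥ R.A z = _
  rw [vadd_eq_add, add_comm]

lemma range_eq' : R.γ '' Icc 0 1 = intrinsicFrontier ℝ (R.emb '' R.K) := by
  rw [AffineIsometry.intrinsicFrontier_image, R.frontier_K, R.range_eq]
  congr 1
  ext z
  exact (R.emb_apply z).symm

lemma vectorSpan_emb : vectorSpan ℝ (R.emb '' R.K) = LinearMap.range R.A.toLinearMap := by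
  have h := AffineMap.map_vectorSpan (k := ℝ) R.emb.toAffineMap (s := R.K)
  have e : (R.emb.toAffineMap : ℂ → E) '' R.K = R.emb '' R.K := rfl
  rw [e] at h
  rw [← h, R.vectorSpan_K, Submodule.map_top]
  rfl

lemma isPlaneConvexBody : IsPlaneConvexBody (R.emb '' R.K) := by
  refine ⟨R.isCompact_K.image R.emb.continuous, ?_, ?_⟩
  · exact R.convex_K.affine_image R.emb.toAffineMap
  · rw [R.vectorSpan_emb, LinearMap.finrank_range_of_inj R.A.injective, Complex.finrank_real_complex]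

lemma hasConstantWidth : HasConstantWidth (R.emb '' R.K) 1 := by
  intro u hu hu1
  rw [R.vectorSpan_emb] at hu
  obtain ⟨z, rfl⟩ := hu
  have hz1 : ‖z‖ = 1 := by
    rw [← hu1]; exact (R.A.norm_map z).symm
  obtain ⟨θ, hθ⟩ := exists_dot_eq_norm z
  have hz : z = ee θ := eq_ee_of_dot hz1.le (by rw [hθ, hz1])
  have key : ∀ x, ⟪R.A.toLinearMap z, R.emb x⟫ = dot x θ + ⟪R.A z, R.Z 0⟫ := by
    intro x
    rw [R.emb_apply, inner_add_right]
    change ⟪R.A z, R.A x⟫ + _ = _
    rw [R.inner_A, hz, inner_ee]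
    rfl
  have h1 : sSup ((fun y => ⟪R.A.toLinearMap z, y⟫) '' (R.emb '' R.K))
      = R.H θ + ⟪R.A z, R.Z 0⟫ := by
    apply IsGreatest.csSup_eq
    constructor
    · exact ⟨_, ⟨R.X θ, R.X_mem θ, rfl⟩, by simp only; rw [key, R.dot_X]⟩
    · rintro _ ⟨_, ⟨x, hx, rfl⟩, rfl⟩
      simp only
      rw [key]
      have := hx θ
      linarith
  have h2 : sInf ((fun y => ⟪R.A.toLinearMap z, y⟫) '' (R.emb '' R.K))
      = - R.H (θ + π) + ⟪R.A z, R.Z 0⟫ := by
    apply IsLeast.csInf_eq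
    constructor
    · refine ⟨_, ⟨R.X (θ + π), R.X_mem _, rfl⟩, ?_⟩
      simp only
      rw [key]
      have := R.dot_X (θ + π)
      rw [dot_add_pi] at this
      linarith
    · rintro _ ⟨_, ⟨x, hx, rfl⟩, rfl⟩
      simp only
      rw [key]
      have := hx (θ + π)
      rw [dot_add_pi] at this
      linarith
  rw [h1, h2]
  have := R.h4 θ
  linarith

end RData

/-- The main theorem. -/
theorem main {E : Type*} [NormedAddCommGroup E] [InnerProductSpace ℝ E] [FiniteDimensional ℝ E]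
    (γ : ℝ → E) (hγ : ContinuousOn γ (Icc 0 1)) (hcl : γ 0 = γ 1)
    (hlen : eVariationOn γ (Icc 0 1) = ENNReal.ofReal π) :
    ∃ m, IsLeast (farDist (γ '' Icc 0 1) '' (γ '' Icc 0 1)) m ∧ m ≤ 1 ∧
      (m = 1 ↔ ∃ K : Set E, IsPlaneConvexBody K ∧ HasConstantWidth K 1 ∧
        γ '' Icc 0 1 = intrinsicFrontier ℝ K) := by
  set C := γ '' Icc 0 1 with hC
  have hcomp : IsCompact C := isCompact_Icc.image_of_continuousOn hγ
  have hne : C.Nonempty := ⟨γ 0, 0, ⟨le_rfl, zero_le_one⟩, rfl⟩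
  obtain ⟨m, hm⟩ := exists_isLeast hcomp hne
  set D := Curve.ofVariation γ hγ hcl π pi_pos.le hlen with hD
  have hDγ : D.γ = γ := rfl
  have hDL : D.L = π := rfl
  have hfar : ∀ s ∈ Icc (0:ℝ) 1, ∃ t ∈ Icc (0:ℝ) 1, m ≤ ‖γ s - γ t‖ := by
    intro s hs
    obtain ⟨⟨_, ⟨t, ht, rfl⟩, h1⟩, -⟩ := farDist_isGreatest hcomp hne (γ s)
    refine ⟨t, ht, ?_⟩
    rw [← dist_eq_norm]
    have h1' : dist (γ s) (γ t) = farDist C (γ s) := h1
    rw [h1']
    exact hm.2 ⟨γ s, ⟨s, hs, rfl⟩, rfl⟩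
  have hm1 : m ≤ 1 := by
    by_contra hcon
    push Not at hcon
    exact D.not_far hDL hcon hfar
  refine ⟨m, hm, hm1, ?_, ?_⟩
  · intro hm1
    rw [hm1] at hfar
    obtain ⟨β, H, h1, h2, h3, h4, h5⟩ := D.exists_limit hDL hfar
    have hβc : ContinuousOn β (Icc 0 1) := by
      intro t ht
      have hV : Tendsto (fun s => |D.V s - D.V t|) (𝓝[Icc 0 1] t) (𝓝 0) := by
        have := ((D.hcont t ht).tendsto.sub_const (D.V t)).abs
        simpa using this
      rw [ContinuousWithinAt, tendsto_iff_norm_sub_tendsto_zero]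
      refine squeeze_zero' (Eventually.of_forall fun _ => norm_nonneg _) ?_ hV
      filter_upwards [self_mem_nhdsWithin] with s hs
      rcases le_total s t with h | h
      · have := h2 s hs t ht h
        rw [norm_sub_rev]
        have h6 := neg_abs_le (D.V s - D.V t)
        linarith
      · have := h2 t ht s hs h
        exact this.trans (le_abs_self _)
    let R : RData E :=
      { γ := γ, β := β, H := H, hβc := hβc, h1 := h1, h2 := h3, h3 := h4, h4 := h5, hfar := hfar }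
    exact ⟨_, R.isPlaneConvexBody, R.hasConstantWidth, R.range_eq'⟩
  · rintro ⟨K, hK, hw, hCK⟩
    obtain ⟨⟨x, hx, hxm⟩, -⟩ := hm
    rw [hCK] at hx hxm
    rw [← hxm]
    exact farDist_eq_one hK.1 hK.2.1 hw hx

end Pool.Agent.Lib.MP_30679c_gt
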