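import Mathlib

/-!
Two facts about functions of one real variable: an induction over the components of the set
where a nonnegative function is positive, and Wirtinger's inequality.
-/

namespace Pool.Agent.Lib.MP_30679c_gt

open Real MeasureTheory Set Filter Topology

/-- If the integral of `φ` over each component of `{g > 0}` is nonnegative and `-g ≤ φ`, then the
integral of `φ` between two zeros of `g` is nonnegative. -/
lemma comp_induction {g φ : ℝ → ℝ} (hg : Continuous g) (hg0 : ∀ t, 0 ≤ g t)
    (hφi : ∀ a b, IntervalIntegrable φ volume a b) (hφ : ∀ t, - g t ≤ φ t)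
    (hcomp : ∀ p q, p < q → g p = 0 → g q = 0 → (∀ t ∈ Ioo p q, 0 < g t) →
      0 ≤ ∫ t in p..q, φ t)
    {a b : ℝ} (hab : a ≤ b) (ha : g a = 0) (hb : g b = 0) : 0 ≤ ∫ t in a..b, φ t := by
  have key : ∀ η : ℝ, 0 < η → 0 ≤ (∫ t in a..b, φ t) + η * (b - a) := by
    intro η hη
    by_contra hneg
    push Not at hneg
    set G : ℝ → ℝ := fun x => (∫ t in a..x, φ t) + η * (x - a) with hG
    have hGc : Continuous G := by
      apply Continuous.add
      · exact intervalIntegral.continuous_primitive hφi a
      · fun_prop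
    have hGadd : ∀ x y, G y = G x + (∫ t in x..y, φ t) + η * (y - x) := by
      intro x y
      simp only [hG]
      rw [← intervalIntegral.integral_add_adjacent_intervals (hφi a x) (hφi x y)]; ring
    set N : Set ℝ := {z | z ∈ Icc a b ∧ g z = 0 ∧ G z < 0} with hN
    have hbN : b ∈ N := ⟨⟨hab, le_rfl⟩, hb, hneg⟩
    have hNne : N.Nonempty := ⟨b, hbN⟩
    have hNbdd : BddBelow N := ⟨a, fun z hz => hz.1.1⟩
    set x := sInf N with hx
    have hxcl : x ∈ closure N := csInf_mem_closure hNne hNbdd
    have hsub : N ⊆ {z | z ∈ Icc a b ∧ g z = 0 ∧ G z ≤ 0} := fun z hz => ⟨hz.1, hz.2.1, hz.2.2.le⟩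
    have hclosed : IsClosed {z | z ∈ Icc a b ∧ g z = 0 ∧ G z ≤ 0} := by
      have h1 : IsClosed {z : ℝ | z ∈ Icc a b} := isClosed_Icc
      have h2 : IsClosed {z : ℝ | g z = 0} := isClosed_eq hg continuous_const
      have h3 : IsClosed {z : ℝ | G z ≤ 0} := isClosed_le hGc continuous_const
      exact h1.inter (h2.inter h3)
    have hxm : x ∈ {z | z ∈ Icc a b ∧ g z = 0 ∧ G z ≤ 0} := hclosed.closure_subset_iff.mpr hsub hxcl
    obtain ⟨hxI, hgx, hGx⟩ := hxm
    have hbelow : ∀ z ∈ Icc a b, z < x → g z = 0 → 0 ≤ G z := by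
      intro z hz hzx hgz
      by_contra hlt
      push Not at hlt
      have : x ≤ z := csInf_le hNbdd ⟨hz, hgz, hlt⟩
      linarith
    rcases lt_or_eq_of_le hGx with hGx' | hGx'
    · -- `G x < 0`
      set Z' : Set ℝ := {z | z ∈ Icc a x ∧ g z = 0 ∧ 0 ≤ G z} with hZ'
      have hZc : IsCompact Z' := by
        apply isCompact_Icc.of_isClosed_subset (s := Icc a x)
        · have h1 : IsClosed {z : ℝ | z ∈ Icc a x} := isClosed_Icc
          have h2 : IsClosed {z : ℝ | g z = 0} := isClosed_eq hg continuous_const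
          have h3 : IsClosed {z : ℝ | 0 ≤ G z} := isClosed_le continuous_const hGc
          exact h1.inter (h2.inter h3)
        · exact fun z hz => hz.1
      have haZ : a ∈ Z' := ⟨⟨le_rfl, hxI.1⟩, ha, by simp [hG]⟩
      have hz := hZc.sSup_mem ⟨a, haZ⟩
      set z := sSup Z' with hzdef
      obtain ⟨hzI, hgz, hGz⟩ := hz
      have hzx : z < x := by
        rcases lt_or_eq_of_le hzI.2 with h | h
        · exact h
        · rw [h] at hGz; linarith
      have hpos : ∀ t ∈ Ioo z x, 0 < g t := by
        intro t ht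
        rcases lt_or_eq_of_le (hg0 t) with h | h
        · exact h
        · exfalso
          have htI : t ∈ Icc a b := ⟨by linarith [hzI.1, ht.1], by linarith [hxI.2, ht.2]⟩
          have h1 := hbelow t htI ht.2 h.symm
          have h2 : t ∈ Z' := ⟨⟨htI.1, ht.2.le⟩, h.symm, h1⟩
          have h3 : t ≤ z := le_csSup hZc.bddAbove h2
          linarith [ht.1]
      have h1 := hcomp z x hzx hgz hgx hpos
      have h2 := hGadd z x
      nlinarith
    · -- `G x = 0`
      have hxN : x ∉ N := fun h => by have := h.2.2; linarith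
      have hnear : ∀ᶠ t in 𝓝 x, g t < η := by
        have : Tendsto g (𝓝 x) (𝓝 (g x)) := hg.tendsto x
        rw [hgx] at this
        exact this.eventually (gt_mem_nhds hη)
      obtain ⟨δ, hδ, hball⟩ := Metric.eventually_nhds_iff.mp hnear
      obtain ⟨z, hzN, hzlt⟩ := (csInf_lt_iff hNbdd hNne).mp (show sInf N < x + δ by
        rw [← hx]; linarith)
      have hxz : x ≤ z := csInf_le hNbdd hzN
      have h1 : 0 ≤ (∫ t in x..z, φ t) + η * (z - x) := by
        have h2 : ∫ t in x..z, (-η) ≤ ∫ t in x..z, φ t := by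
          apply intervalIntegral.integral_mono_on hxz
            (continuous_const.intervalIntegrable _ _) (hφi _ _)
          intro t ht
          have h3 : g t < η := hball (by
            rw [Real.dist_eq, abs_lt]; constructor <;> linarith [ht.1, ht.2])
          linarith [hφ t]
        simp only [intervalIntegral.integral_const, smul_eq_mul] at h2
        linarith
      have h2 := hGadd x z
      have h3 := hzN.2.2
      linarith
  by_contra hneg
  push Not at hneg
  rcases eq_or_lt_of_le hab with h | h
  · subst h; simp at hneg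
  · have h1 := key (-(∫ t in a..b, φ t) / (2 * (b - a))) (by
      have : 0 < b - a := by linarith
      apply div_pos <;> linarith)
    have h2 : -(∫ t in a..b, φ t) / (2 * (b - a)) * (b - a) = -(∫ t in a..b, φ t) / 2 := by
      have : b - a ≠ 0 := by linarith
      field_simp
    linarith

/-- Wirtinger's inequality for functions vanishing at the end points of an interval of
length `π`. -/
lemma wirtinger_dirichlet {y y' : ℝ → ℝ} (hy : ∀ t, HasDerivAt y (y' t) t) (hy' : Continuous y')
    {z : ℝ} (h0 : y z = 0) (h1 : y (z + π) = 0) :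
    ∫ t in z..(z + π), y t ^ 2 ≤ ∫ t in z..(z + π), y' t ^ 2 := by
  have hyc : Continuous y := continuous_iff_continuousAt.mpr fun t => (hy t).continuousAt
  -- a bound for the derivative
  obtain ⟨M, hM⟩ : ∃ M, ∀ t ∈ Icc z (z + π), |y' t| ≤ M := by
    obtain ⟨M, hM⟩ := (isCompact_Icc (a := z) (b := z + π)).exists_bound_of_continuousOn
      hy'.continuousOn
    exact ⟨M, fun t ht => by simpa [Real.norm_eq_abs] using hM t ht⟩
  have hM0 : 0 ≤ M := (abs_nonneg _).trans (hM z ⟨le_rfl, by linarith [pi_pos]⟩)
  have hlip : ∀ s ∈ Icc z (z + π), ∀ t ∈ Icc z (z + π), |y s - y t| ≤ M * |s - t| := by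
    intro s hs t ht
    have := (convex_Icc z (z + π)).norm_image_sub_le_of_norm_hasDerivWithin_le
      (f := y) (f' := y') (C := M) (x := t) (y := s)
      (fun x _ => (hy x).hasDerivWithinAt)
      (fun x hx => by rw [Real.norm_eq_abs]; exact hM x hx) ht hs
    simpa [Real.norm_eq_abs] using this
  set H : ℝ → ℝ := fun t => y' t ^ 2 - y t ^ 2 with hH
  have hHc : Continuous H := by
    simp only [hH]; exact (hy'.pow 2).sub (hyc.pow 2)
  have hHi : ∀ a b, IntervalIntegrable H volume a b := fun a b => hHc.intervalIntegrable a b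
  have key : ∀ δ : ℝ, 0 < δ → δ < π / 2 →
      - (M ^ 2 * π * δ) ≤ ∫ t in (z + δ)..(z + π - δ), H t := by
    intro δ hδ hδ2
    set Q : ℝ → ℝ := fun t => y t ^ 2 * (cos (t - z) / sin (t - z)) with hQ
    have hsin : ∀ t ∈ Icc (z + δ) (z + π - δ), 0 < sin (t - z) := by
      intro t ht
      exact sin_pos_of_pos_of_lt_pi (by linarith [ht.1]) (by linarith [ht.2])
    have hQd : ∀ t ∈ Icc (z + δ) (z + π - δ), HasDerivAt Q
        (2 * y t * y' t * (cos (t - z) / sin (t - z)) - y t ^ 2 / sin (t - z) ^ 2) t := by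
      intro t ht
      have hs := hsin t ht
      have hs' : sin (t - z) ≠ 0 := hs.ne'
      have d1 : HasDerivAt (fun t => cos (t - z)) (- sin (t - z)) t := by
        have := (hasDerivAt_cos (t - z)).comp_sub_const t z
        exact this
      have d2 : HasDerivAt (fun t => sin (t - z)) (cos (t - z)) t := by
        have := (hasDerivAt_sin (t - z)).comp_sub_const t z
        exact this
      have d3 := ((hy t).pow 2).mul (d1.div d2 hs')
      refine d3.congr_deriv ?_
      have hcs := sin_sq_add_cos_sq (t - z)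
      simp only [Nat.cast_ofNat, Nat.add_one_sub_one, pow_one]
      have e : (-sin (t - z) * sin (t - z) - cos (t - z) * cos (t - z)) / sin (t - z) ^ 2
          = - 1 / sin (t - z) ^ 2 := by
        congr 1; linarith
      simp only [Pi.pow_apply, Pi.div_apply]
      rw [e]
      ring
    have hQint : IntervalIntegrable (fun t =>
        2 * y t * y' t * (cos (t - z) / sin (t - z)) - y t ^ 2 / sin (t - z) ^ 2)
        volume (z + δ) (z + π - δ) := by
      apply ContinuousOn.intervalIntegrable
      rw [uIcc_of_le (by linarith)]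
      apply ContinuousOn.sub
      · apply ContinuousOn.mul
        · exact ((continuous_const.mul hyc).mul hy').continuousOn
        · apply ContinuousOn.div
          · exact (by fun_prop : Continuous fun t : ℝ => cos (t - z)).continuousOn
          · exact (by fun_prop : Continuous fun t : ℝ => sin (t - z)).continuousOn
          · intro t ht; exact (hsin t ht).ne'
      · apply ContinuousOn.div
        · exact (hyc.pow 2).continuousOn
        · exact (by fun_prop : Continuous fun t : ℝ => sin (t - z) ^ 2).continuousOn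
        · intro t ht; exact pow_ne_zero 2 (hsin t ht).ne'
    have hFTC := intervalIntegral.integral_eq_sub_of_hasDerivAt
      (a := z + δ) (b := z + π - δ) (f := Q) (f' := fun t =>
        2 * y t * y' t * (cos (t - z) / sin (t - z)) - y t ^ 2 / sin (t - z) ^ 2)
      (by rw [uIcc_of_le (by linarith)]; exact hQd) hQint
    have hle : ∫ t in (z + δ)..(z + π - δ),
        (2 * y t * y' t * (cos (t - z) / sin (t - z)) - y t ^ 2 / sin (t - z) ^ 2)
        ≤ ∫ t in (z + δ)..(z + π - δ), H t := by
      apply intervalIntegral.integral_mono_on (by linarith) hQint (hHi _ _)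
      intro t ht
      have hs := hsin t ht
      have hs' : sin (t - z) ≠ 0 := hs.ne'
      have hcs := sin_sq_add_cos_sq (t - z)
      simp only [hH]
      have e : y' t ^ 2 - y t ^ 2 -
          (2 * y t * y' t * (cos (t - z) / sin (t - z)) - y t ^ 2 / sin (t - z) ^ 2)
          = (y' t - y t * (cos (t - z) / sin (t - z))) ^ 2 := by
        field_simp
        linear_combination (- y t ^ 2) * hcs
      nlinarith [sq_nonneg (y' t - y t * (cos (t - z) / sin (t - z)))]
    rw [hFTC] at hle
    have hsδ : 2 / π * δ ≤ sin δ := mul_le_sin hδ.le (by linarith)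
    have hsδ0 : 0 < sin δ := sin_pos_of_pos_of_lt_pi hδ (by linarith [pi_pos])
    have hcδ0 : 0 ≤ cos δ := cos_nonneg_of_mem_Icc ⟨by linarith, by linarith⟩
    have hratio : cos δ / sin δ * δ ≤ π / 2 := by
      have h2 : cos δ * δ ≤ π / 2 * sin δ := by
        have h3 : δ ≤ π / 2 * sin δ := by
          have := pi_pos
          calc δ = π / 2 * (2 / π * δ) := by field_simp
            _ ≤ π / 2 * sin δ := by gcongr
        nlinarith [cos_le_one δ]
      rw [div_mul_eq_mul_div, div_le_iff₀ hsδ0]
      exact h2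
    have hratio0 : 0 ≤ cos δ / sin δ := div_nonneg hcδ0 hsδ0.le
    have hQ1 : Q (z + δ) ≤ M ^ 2 * (π / 2) * δ := by
      have hb : |y (z + δ)| ≤ M * δ := by
        have := hlip (z + δ) ⟨by linarith, by linarith⟩ z ⟨le_rfl, by linarith [pi_pos]⟩
        rw [h0, sub_zero, add_sub_cancel_left, abs_of_pos hδ] at this
        exact this
      have hsq : y (z + δ) ^ 2 ≤ M ^ 2 * δ ^ 2 := by
        rw [← sq_abs, ← mul_pow]; exact pow_le_pow_left₀ (abs_nonneg _) hb 2
      simp only [hQ, add_sub_cancel_left]
      calc y (z + δ) ^ 2 * (cos δ / sin δ) ≤ M ^ 2 * δ ^ 2 * (cos δ / sin δ) := by gcongr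
        _ = M ^ 2 * δ * (cos δ / sin δ * δ) := by ring
        _ ≤ M ^ 2 * δ * (π / 2) := by gcongr
        _ = M ^ 2 * (π / 2) * δ := by ring
    have hQ2 : - (M ^ 2 * (π / 2) * δ) ≤ Q (z + π - δ) := by
      have hb : |y (z + π - δ)| ≤ M * δ := by
        have := hlip (z + π - δ) ⟨by linarith, by linarith⟩ (z + π) ⟨by linarith [pi_pos], le_rfl⟩
        rw [h1, sub_zero, show z + π - δ - (z + π) = -δ by ring, abs_neg, abs_of_pos hδ] at this
        exact this
      have hsq : y (z + π - δ) ^ 2 ≤ M ^ 2 * δ ^ 2 := by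
        rw [← sq_abs, ← mul_pow]; exact pow_le_pow_left₀ (abs_nonneg _) hb 2
      simp only [hQ]
      rw [show z + π - δ - z = π - δ by ring, cos_pi_sub, sin_pi_sub, neg_div, mul_neg, neg_le_neg_iff]
      calc y (z + π - δ) ^ 2 * (cos δ / sin δ) ≤ M ^ 2 * δ ^ 2 * (cos δ / sin δ) := by gcongr
        _ = M ^ 2 * δ * (cos δ / sin δ * δ) := by ring
        _ ≤ M ^ 2 * δ * (π / 2) := by gcongr
        _ = M ^ 2 * (π / 2) * δ := by ring
    linarith
  -- pass to the limit
  have hlim1 : Tendsto (fun δ : ℝ => ∫ t in (z + δ)..(z + π - δ), H t) (𝓝[>] 0)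
      (𝓝 (∫ t in z..(z + π), H t)) := by
    have hcont : Continuous (fun δ : ℝ => ∫ t in (z + δ)..(z + π - δ), H t) := by
      have e : (fun δ : ℝ => ∫ t in (z + δ)..(z + π - δ), H t)
          = fun δ => (∫ t in z..(z + π - δ), H t) - ∫ t in z..(z + δ), H t := by
        ext δ
        rw [intervalIntegral.integral_interval_sub_left (hHi _ _) (hHi _ _)]
      rw [e]
      exact ((intervalIntegral.continuous_primitive hHi z).comp (by fun_prop)).sub
        ((intervalIntegral.continuous_primitive hHi z).comp (by fun_prop))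
    have := (hcont.tendsto 0).mono_left (nhdsWithin_le_nhds (s := Ioi 0))
    simpa using this
  have hlim2 : Tendsto (fun δ : ℝ => - (M ^ 2 * π * δ)) (𝓝[>] 0) (𝓝 0) := by
    have hcont : Continuous (fun δ : ℝ => - (M ^ 2 * π * δ)) := by fun_prop
    have := (hcont.tendsto 0).mono_left (nhdsWithin_le_nhds (s := Ioi 0))
    simpa using this
  have hfin : 0 ≤ ∫ t in z..(z + π), H t := by
    apply le_of_tendsto_of_tendsto hlim2 hlim1
    filter_upwards [self_mem_nhdsWithin, nhdsWithin_le_nhds (Iio_mem_nhds (half_pos pi_pos))]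
      with δ hδ hδ2
    exact key δ hδ hδ2
  simp only [hH] at hfin
  rw [intervalIntegral.integral_sub (f := fun t => y' t ^ 2) (g := fun t => y t ^ 2)
    ((hy'.pow 2).intervalIntegrable _ _) ((hyc.pow 2).intervalIntegrable _ _)] at hfin
  linarith

/-- Wirtinger's inequality for `π`-periodic functions (with the constant of the Dirichlet
problem). -/
lemma wirtinger_periodic {y y' : ℝ → ℝ} (hy : ∀ t, HasDerivAt y (y' t) t) (hy' : Continuous y')
    (hper : ∀ t, y (t + π) = y t) (hper' : ∀ t, y' (t + π) = y' t) :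
    (∫ t in (0:ℝ)..(2 * π), y t ^ 2) - (∫ t in (0:ℝ)..(2 * π), y' t ^ 2)
      ≤ (∫ t in (0:ℝ)..(2 * π), y t) ^ 2 / (2 * π) := by
  have hyc : Continuous y := continuous_iff_continuousAt.mpr fun t => (hy t).continuousAt
  have hpi := pi_pos
  have hhalf : ∀ f : ℝ → ℝ, Continuous f → (∀ t, f (t + π) = f t) → ∀ z : ℝ,
      ∫ t in (0:ℝ)..(2 * π), f t = 2 * ∫ t in z..(z + π), f t := by
    intro f hf hfp z
    have hper : Function.Periodic f π := hfp
    have hi : ∀ a b, IntervalIntegrable f volume a b := fun a b => hf.intervalIntegrable a b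
    rw [← intervalIntegral.integral_add_adjacent_intervals (hi 0 π) (hi π (2 * π))]
    have h1 := hper.intervalIntegral_add_eq 0 z
    have h2 := hper.intervalIntegral_add_eq π z
    rw [zero_add] at h1
    rw [show π + π = 2 * π by ring] at h2
    rw [h1, h2]; ring
  set c := (∫ t in (0:ℝ)..(2 * π), y t) / (2 * π) with hc
  have hcI : ∫ t in (0:ℝ)..(2 * π), y t = 2 * π * c := by
    rw [hc]; field_simp
  obtain ⟨z, -, hz⟩ := exists_eq_const_mul_intervalIntegral_of_nonneg (a := 0) (b := 2 * π)
    (f := y) (g := fun _ => (1:ℝ)) (μ := volume) hyc.continuousOn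
    (continuous_const.intervalIntegrable _ _) (fun _ _ => zero_le_one)
  have hyz : y z = c := by
    simp only [mul_one, intervalIntegral.integral_const, sub_zero, smul_eq_mul] at hz
    rw [hc, hz]; field_simp
  have hw := wirtinger_dirichlet (y := fun t => y t - c) (y' := y')
    (fun t => (hy t).sub_const c) hy' (z := z) (by simp [hyz])
    (by simp [hper, hyz])
  have e1 := hhalf (fun t => (y t - c) ^ 2) (by fun_prop) (fun t => by simp [hper]) z
  have e2 := hhalf (fun t => y' t ^ 2) (by fun_prop) (fun t => by simp [hper']) z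
  have e3 : ∫ t in (0:ℝ)..(2 * π), (y t - c) ^ 2
      = (∫ t in (0:ℝ)..(2 * π), y t ^ 2) - 2 * π * c ^ 2 := by
    have : (fun t => (y t - c) ^ 2) = fun t => (y t ^ 2 - 2 * c * y t) + c ^ 2 := by
      ext t; ring
    rw [this, intervalIntegral.integral_add, intervalIntegral.integral_sub,
      intervalIntegral.integral_const_mul, hcI]
    · simp; ring
    · exact (hyc.pow 2).intervalIntegrable _ _
    · exact (continuous_const.mul hyc).intervalIntegrable _ _
    · exact ((hyc.pow 2).sub (continuous_const.mul hyc)).intervalIntegrable _ _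
    · exact continuous_const.intervalIntegrable _ _
  rw [hcI]
  have e4 : (2 * π * c) ^ 2 / (2 * π) = 2 * π * c ^ 2 := by field_simp
  rw [e4]
  linarith

end Pool.Agent.Lib.MP_30679c_gt
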