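import Pool.Agent.Lib.MP_30679c_gt.Comp
import Pool.Agent.Lib.MP_30679c_gt.Real

/-!
The planar inequality: the integral of the support function of the convex hull of `S` is at
least `π (1 + c ^ 2 / 6)` or at least `16 / 5`.
-/

namespace Pool.Agent.Lib.MP_30679c_gt

open Real MeasureTheory Set Filter Topology

lemma integral_shift {f : ℝ → ℝ} (hper : ∀ t, f (t + 2 * π) = f t) (s : ℝ) :
    ∫ t in (0:ℝ)..(2 * π), f (t + s) = ∫ t in (0:ℝ)..(2 * π), f t := by
  rw [intervalIntegral.integral_comp_add_right (fun t => f t)]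
  have hp : Function.Periodic f (2 * π) := hper
  have := hp.intervalIntegral_add_eq (0 + s) 0
  rw [show 2 * π + s = 0 + s + 2 * π by ring, this, zero_add]

lemma integral_base {f : ℝ → ℝ} (hper : ∀ t, f (t + 2 * π) = f t) (s : ℝ) :
    ∫ t in s..(s + 2 * π), f t = ∫ t in (0:ℝ)..(2 * π), f t := by
  have hp : Function.Periodic f (2 * π) := hper
  have := hp.intervalIntegral_add_eq s 0
  rw [this, zero_add]

/-- The perimeter of a triangle is at most the integral of any function which dominates the
support functions of its vertices. -/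
lemma triangle_le {h : ℝ → ℝ} (hc : Continuous h) (hper : ∀ t, h (t + 2 * π) = h t) {x y z : ℂ}
    (hx : ∀ t, dot x t ≤ h t) (hy : ∀ t, dot y t ≤ h t) (hz : ∀ t, dot z t ≤ h t) :
    ‖x - y‖ + ‖y - z‖ + ‖z - x‖ ≤ ∫ t in (0:ℝ)..(2 * π), h t := by
  have hpt : ∀ t, |dot (x - y) t| + |dot (y - z) t| + |dot (z - x) t| ≤ 2 * (h t + h (t + π)) := by
    intro t
    have h1 := hx t
    have h2 := hy t
    have h3 := hz t
    have h4 := hx (t + π)
    have h5 := hy (t + π)
    have h6 := hz (t + π)
    simp only [dot_add_pi, dot_sub] at *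
    rcases abs_cases (dot x t - dot y t) with ⟨e1, _⟩ | ⟨e1, _⟩ <;>
    rcases abs_cases (dot y t - dot z t) with ⟨e2, _⟩ | ⟨e2, _⟩ <;>
    rcases abs_cases (dot z t - dot x t) with ⟨e3, _⟩ | ⟨e3, _⟩ <;>
    rw [e1, e2, e3] <;> linarith
  have hi : ∀ w : ℂ, IntervalIntegrable (fun t => |dot w t|) volume 0 (2 * π) :=
    fun w => ((continuous_dot w).abs).intervalIntegrable _ _
  have hcp : Continuous (fun t => h (t + π)) := hc.comp (continuous_id.add continuous_const)
  have h1 : ∫ t in (0:ℝ)..(2 * π), (|dot (x - y) t| + |dot (y - z) t| + |dot (z - x) t|)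
      ≤ ∫ t in (0:ℝ)..(2 * π), 2 * (h t + h (t + π)) := by
    apply intervalIntegral.integral_mono_on (by positivity)
    · exact ((hi _).add (hi _)).add (hi _)
    · exact (continuous_const.mul (hc.add hcp)).intervalIntegrable _ _
    · intro t _; exact hpt t
  rw [intervalIntegral.integral_add ((hi _).add (hi _)) (hi _),
    intervalIntegral.integral_add (hi _) (hi _), integral_abs_dot, integral_abs_dot,
    integral_abs_dot, intervalIntegral.integral_const_mul,
    intervalIntegral.integral_add (hc.intervalIntegrable _ _) (hcp.intervalIntegrable _ _),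
    integral_shift hper] at h1
  linarith

namespace Body

variable (P : Body)

/-- The mean of `v`. -/
noncomputable def c : ℝ := (∫ t in (0:ℝ)..(2 * π), P.v t) / (2 * π)

lemma integral_v : ∫ t in (0:ℝ)..(2 * π), P.v t = 2 * π * P.c := by
  have := pi_pos
  rw [c]; field_simp

lemma c_nonneg : 0 ≤ P.c := by
  apply div_nonneg _ (by positivity)
  exact intervalIntegral.integral_nonneg (by positivity) fun t _ => P.v_nonneg t

lemma v_le_one (t : ℝ) : P.v t ≤ 1 := by
  have h := P.le_hD (P.hY (t + π)) t
  have h2 : P.hD (t + π) = - dot (P.Y (t + π)) t := by simp [hD]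
  simp only [v]
  linarith

lemma c_le_one : P.c ≤ 1 := by
  have hpi := pi_pos
  have h : ∫ t in (0:ℝ)..(2 * π), P.v t ≤ ∫ t in (0:ℝ)..(2 * π), (1:ℝ) :=
    intervalIntegral.integral_mono_on (by positivity) (P.continuous_v.intervalIntegrable _ _)
      (continuous_const.intervalIntegrable _ _) fun t _ => P.v_le_one t
  rw [P.integral_v] at h
  simp only [intervalIntegral.integral_const, sub_zero, smul_eq_mul, mul_one] at h
  nlinarith

lemma integral_F : ∫ t in (0:ℝ)..(2 * π), P.F t = π * (1 + P.c) := by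
  have h1 : ∫ t in (0:ℝ)..(2 * π), P.v t
      = ∫ t in (0:ℝ)..(2 * π), (P.F t + P.F (t + π) - 1) := by
    congr 1; ext t; exact P.v_eq' t
  have hF := P.continuous_F
  have hF' : Continuous (fun t => P.F (t + π)) := hF.comp (continuous_id.add continuous_const)
  have i1 : IntervalIntegrable (fun t => P.F t) volume 0 (2 * π) := hF.intervalIntegrable _ _
  have i2 : IntervalIntegrable (fun t => P.F (t + π)) volume 0 (2 * π) :=
    hF'.intervalIntegrable _ _
  rw [intervalIntegral.integral_sub (i1.add i2) (continuous_const.intervalIntegrable _ _),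
    intervalIntegral.integral_add i1 i2,
    integral_shift P.F_add_two_pi, P.integral_v] at h1
  simp only [intervalIntegral.integral_const, sub_zero, smul_eq_mul, mul_one] at h1
  linarith

/-- Difference quotient replacing the curvature measure of the disc hull. -/
noncomputable def R (h t : ℝ) : ℝ :=
  (P.F (t + h) + P.F (t - h) - 2 * cos h * P.F t) / (2 * (1 - cos h))

lemma continuous_R (h : ℝ) : Continuous (P.R h) := by
  unfold R
  have hF := P.continuous_F
  have h1 : Continuous (fun t => P.F (t + h)) := hF.comp (continuous_id.add continuous_const)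
  have h2 : Continuous (fun t => P.F (t - h)) := hF.comp (continuous_id.sub continuous_const)
  exact ((h1.add h2).sub (continuous_const.mul hF)).div_const _

lemma R_nonneg {h : ℝ} (hh : cos h < 1) (t : ℝ) : 0 ≤ P.R h t := by
  apply div_nonneg _ (by linarith)
  linarith [P.F_lower t h]

lemma R_le_one {h : ℝ} (hh : cos h < 1) (t : ℝ) : P.R h t ≤ 1 := by
  unfold R
  rw [div_le_one (by linarith)]
  linarith [P.F_upper t h]

lemma R_eq_one {h t : ℝ} (hh : cos h < 1) {d : ℂ} (h0 : P.Y (t + π) = d)
    (h1 : P.Y (t + h + π) = d) (h2 : P.Y (t - h + π) = d) : P.R h t = 1 := by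
  unfold R
  rw [P.F_of_const h0, P.F_of_const h1, P.F_of_const h2, div_eq_one_iff_eq (by linarith)]
  have := dot_sum_angle d t h
  linarith

lemma integral_R {h : ℝ} (hh : cos h < 1) :
    ∫ t in (0:ℝ)..(2 * π), P.R h t = π * (1 + P.c) := by
  unfold R
  have hF := P.continuous_F
  have h1 : Continuous (fun t => P.F (t + h)) := hF.comp (continuous_id.add continuous_const)
  have h2 : Continuous (fun t => P.F (t + -h)) := hF.comp (continuous_id.add continuous_const)
  have i0 : IntervalIntegrable (fun t => P.F t) volume 0 (2 * π) := hF.intervalIntegrable _ _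
  have i1 : IntervalIntegrable (fun t => P.F (t + h)) volume 0 (2 * π) :=
    h1.intervalIntegrable _ _
  have i2 : IntervalIntegrable (fun t => P.F (t + -h)) volume 0 (2 * π) :=
    h2.intervalIntegrable _ _
  simp_rw [sub_eq_add_neg _ h]
  rw [intervalIntegral.integral_div, intervalIntegral.integral_sub
    (i1.add i2) (i0.const_mul _),
    intervalIntegral.integral_add i1 i2,
    intervalIntegral.integral_const_mul, integral_shift P.F_add_two_pi,
    integral_shift P.F_add_two_pi, P.integral_F]
  have : (1 - cos h) ≠ 0 := by linarith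
  field_simp
  ring

lemma integral_R_mul_v {h : ℝ} (hh : cos h < 1) :
    ∫ t in (0:ℝ)..(2 * π), P.R h t * P.v t =
      (1 / 2) * ((∫ t in (0:ℝ)..(2 * π), P.v t) + ∫ t in (0:ℝ)..(2 * π), P.v t ^ 2)
      - (∫ t in (0:ℝ)..(2 * π), (P.v (t + h) - P.v t) ^ 2) / (4 * (1 - cos h)) := by
  have hF := P.continuous_F
  have hv := P.continuous_v
  have hne : (1 - cos h) ≠ 0 := by linarith
  have cR := P.continuous_R h
  have cRp : Continuous (fun t => P.R h (t + π)) := cR.comp (continuous_id.add continuous_const)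
  have cvp : Continuous (fun t => P.v (t + h)) := hv.comp (continuous_id.add continuous_const)
  have cvm : Continuous (fun t => P.v (t + -h)) := hv.comp (continuous_id.add continuous_const)
  have hRper : ∀ t, P.R h (t + 2 * π) = P.R h t := by
    intro t
    unfold R
    rw [show t + 2 * π + h = t + h + 2 * π by ring, show t + 2 * π - h = t - h + 2 * π by ring,
      P.F_add_two_pi, P.F_add_two_pi, P.F_add_two_pi]
  -- symmetrise
  have s1 : ∫ t in (0:ℝ)..(2 * π), P.R h t * P.v t
      = ∫ t in (0:ℝ)..(2 * π), P.R h (t + π) * P.v t := by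
    have := integral_shift (f := fun t => P.R h t * P.v t)
      (fun t => by simp only [hRper, P.v_add_two_pi]) π
    rw [← this]
    congr 1; ext t
    rw [P.v_add_pi]
  have s2 : (∫ t in (0:ℝ)..(2 * π), P.R h t * P.v t)
      = (1 / 2) * ∫ t in (0:ℝ)..(2 * π), (P.R h t + P.R h (t + π)) * P.v t := by
    have e : ∫ t in (0:ℝ)..(2 * π), (P.R h t + P.R h (t + π)) * P.v t
        = (∫ t in (0:ℝ)..(2 * π), P.R h t * P.v t) +
          ∫ t in (0:ℝ)..(2 * π), P.R h (t + π) * P.v t := by
      have j1 : IntervalIntegrable (fun t => P.R h t * P.v t) volume 0 (2 * π) :=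
        (cR.mul hv).intervalIntegrable _ _
      have j2 : IntervalIntegrable (fun t => P.R h (t + π) * P.v t) volume 0 (2 * π) :=
        (cRp.mul hv).intervalIntegrable _ _
      rw [← intervalIntegral.integral_add j1 j2]
      congr 1; ext t; ring
    rw [e, ← s1]; ring
  have s3 : ∀ t, (P.R h t + P.R h (t + π)) * P.v t
      = P.v t + (P.v (t + h) * P.v t + P.v (t + -h) * P.v t - 2 * cos h * P.v t ^ 2)
        / (2 * (1 - cos h)) := by
    intro t
    have e1 := P.v_eq' (t + h)
    have e2 := P.v_eq' (t - h)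
    have e3 := P.v_eq' t
    have e4 : P.R h t + P.R h (t + π)
        = 1 + (P.v (t + h) + P.v (t - h) - 2 * cos h * P.v t) / (2 * (1 - cos h)) := by
      unfold R
      rw [show t + π + h = t + h + π by ring, show t + π - h = t - h + π by ring, e1, e2, e3]
      field_simp
      ring
    rw [e4, ← sub_eq_add_neg]
    field_simp
  have i1 : IntervalIntegrable (fun t => P.v (t + h) * P.v t) volume 0 (2 * π) :=
    (cvp.mul hv).intervalIntegrable _ _
  have i2 : IntervalIntegrable (fun t => P.v (t + -h) * P.v t) volume 0 (2 * π) :=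
    (cvm.mul hv).intervalIntegrable _ _
  have i3 : IntervalIntegrable (fun t => P.v t ^ 2) volume 0 (2 * π) :=
    (hv.pow 2).intervalIntegrable _ _
  have i3' : IntervalIntegrable (fun t => P.v (t + h) ^ 2) volume 0 (2 * π) :=
    (cvp.pow 2).intervalIntegrable _ _
  have i4 : IntervalIntegrable (fun t => P.v t) volume 0 (2 * π) :=
    hv.intervalIntegrable _ _
  have s4 : ∫ t in (0:ℝ)..(2 * π), P.v (t + -h) * P.v t
      = ∫ t in (0:ℝ)..(2 * π), P.v (t + h) * P.v t := by
    have := integral_shift (f := fun t => P.v (t + h) * P.v t)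
      (fun t => by
        rw [show t + 2 * π + h = t + h + 2 * π by ring, P.v_add_two_pi, P.v_add_two_pi]) (-h)
    rw [← this]
    congr 1; ext t
    rw [show t + -h + h = t by ring]; ring
  have s5 : ∫ t in (0:ℝ)..(2 * π), (P.v (t + h) - P.v t) ^ 2
      = 2 * (∫ t in (0:ℝ)..(2 * π), P.v t ^ 2) -
        2 * ∫ t in (0:ℝ)..(2 * π), P.v (t + h) * P.v t := by
    have e : ∀ t, (P.v (t + h) - P.v t) ^ 2
        = (P.v (t + h) ^ 2 + P.v t ^ 2) - 2 * (P.v (t + h) * P.v t) := by
      intro t; ring
    simp_rw [e]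
    rw [intervalIntegral.integral_sub (i3'.add i3) (i1.const_mul 2),
      intervalIntegral.integral_add i3' i3, intervalIntegral.integral_const_mul,
      integral_shift (f := fun t => P.v t ^ 2) (fun t => by simp only [P.v_add_two_pi])]
    ring
  rw [s2]
  simp_rw [s3]
  rw [intervalIntegral.integral_add i4 (((i1.add i2).sub (i3.const_mul _)).div_const _),
    intervalIntegral.integral_div, intervalIntegral.integral_sub (i1.add i2) (i3.const_mul _),
    intervalIntegral.integral_add i1 i2, intervalIntegral.integral_const_mul, s4, s5]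
  field_simp
  ring

/-- The set where the gap is positive. -/
def B : Set ℝ := {t | 0 < P.gap t}

lemma isOpen_B : IsOpen P.B := isOpen_lt continuous_const P.continuous_gap

lemma intervalIntegrable_indicator {f : ℝ → ℝ} (hf : Continuous f) (a b : ℝ) :
    IntervalIntegrable (P.B.indicator f) volume a b := by
  rw [intervalIntegrable_iff]
  exact (intervalIntegrable_iff.mp (hf.intervalIntegrable a b)).indicator P.isOpen_B.measurableSet

/-- The sequence of steps. -/
noncomputable def hh (n : ℕ) : ℝ := 1 / ((n : ℝ) + 1)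

end Body

lemma hh_pos (n : ℕ) : 0 < Body.hh n := by unfold Body.hh; positivity

lemma hh_le_one (n : ℕ) : Body.hh n ≤ 1 := by
  unfold Body.hh
  rw [div_le_one (by positivity)]
  have : (0:ℝ) ≤ n := Nat.cast_nonneg n
  linarith

lemma hh_tendsto : Tendsto Body.hh atTop (𝓝 0) := tendsto_one_div_add_atTop_nhds_zero_nat

lemma cos_hh_lt (n : ℕ) : cos (Body.hh n) < 1 := by
  have h1 := hh_pos n
  have h2 := hh_le_one n
  have h3 := cos_lt_cos_of_nonneg_of_le_pi_div_two le_rfl
    (show Body.hh n ≤ π / 2 by linarith [pi_gt_three]) h1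
  simpa using h3

namespace Body

variable (P : Body)

lemma eventually_R_eq_one {t : ℝ} (ht : t ∈ P.B) : ∀ᶠ n in atTop, P.R (hh n) t = 1 := by
  obtain ⟨δ, hδ, hball⟩ := Metric.isOpen_iff.mp P.isOpen_B t ht
  have hev : ∀ᶠ n in atTop, hh n < δ / 2 := hh_tendsto.eventually (gt_mem_nhds (by linarith))
  filter_upwards [hev] with n hn
  have hn0 := hh_pos n
  obtain ⟨d, -, hd⟩ := P.exists_const (p := t - δ / 2) (q := t + δ / 2) (by linarith) (by
    intro u hu
    exact hball (by rw [Metric.mem_ball, Real.dist_eq, abs_lt]; constructor <;>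
      linarith [hu.1, hu.2]))
  exact P.R_eq_one (cos_hh_lt n) (hd t ⟨by linarith, by linarith⟩)
    (hd (t + hh n) ⟨by linarith, by linarith⟩) (hd (t - hh n) ⟨by linarith, by linarith⟩)

lemma indicator_le_of_tendsto {f : ℝ → ℝ} (hf : Continuous f) (hf0 : ∀ t, 0 ≤ f t) {C : ℝ}
    {Cn : ℕ → ℝ} (hCn : ∀ n, ∫ t in (0:ℝ)..(2 * π), P.R (hh n) t * f t ≤ Cn n)
    (hlim : Tendsto Cn atTop (𝓝 C)) :
    ∫ t in (0:ℝ)..(2 * π), P.B.indicator f t ≤ C := by
  have hm : MeasurableSet P.B := P.isOpen_B.measurableSet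
  have h1 : Tendsto (fun n => ∫ t in (0:ℝ)..(2 * π),
      P.B.indicator (fun t => P.R (hh n) t * f t) t) atTop
      (𝓝 (∫ t in (0:ℝ)..(2 * π), P.B.indicator f t)) := by
    apply intervalIntegral.tendsto_integral_filter_of_dominated_convergence f
    · filter_upwards with n
      have : Measurable (P.B.indicator (fun t => P.R (hh n) t * f t)) :=
        (((P.continuous_R _).mul hf).measurable).indicator hm
      exact this.aestronglyMeasurable
    · filter_upwards with n
      filter_upwards with t _
      by_cases ht : t ∈ P.B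
      · rw [indicator_of_mem ht, Real.norm_eq_abs, abs_of_nonneg
          (mul_nonneg (P.R_nonneg (cos_hh_lt n) t) (hf0 t))]
        nlinarith [P.R_le_one (cos_hh_lt n) t, hf0 t]
      · rw [indicator_of_notMem ht, norm_zero]; exact hf0 t
    · exact hf.intervalIntegrable _ _
    · filter_upwards with t _
      by_cases ht : t ∈ P.B
      · simp only [indicator_of_mem ht]
        apply tendsto_const_nhds.congr'
        filter_upwards [P.eventually_R_eq_one ht] with n hn
        rw [hn, one_mul]
      · simp only [indicator_of_notMem ht]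
        exact tendsto_const_nhds
  apply le_of_tendsto_of_tendsto h1 hlim
  filter_upwards with n
  refine le_trans ?_ (hCn n)
  apply intervalIntegral.integral_mono_on (by positivity)
    (P.intervalIntegrable_indicator ((P.continuous_R _).mul hf) _ _)
    (((P.continuous_R _).mul hf).intervalIntegrable _ _)
  intro t _
  by_cases ht : t ∈ P.B
  · rw [indicator_of_mem ht]
  · rw [indicator_of_notMem ht]
    exact mul_nonneg (P.R_nonneg (cos_hh_lt n) t) (hf0 t)

lemma integral_indicator_one :
    ∫ t in (0:ℝ)..(2 * π), P.B.indicator (fun _ => (1:ℝ)) t ≤ π * (1 + P.c) := by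
  apply P.indicator_le_of_tendsto continuous_const (fun _ => zero_le_one)
    (Cn := fun _ => π * (1 + P.c)) _ tendsto_const_nhds
  intro n
  simp only [mul_one]
  exact (P.integral_R (cos_hh_lt n)).le

lemma exists_bound_v' : ∃ M, 0 ≤ M ∧ ∀ t, |P.v' t| ≤ M := by
  obtain ⟨R, hR⟩ := (isCompact_DD P.hS).isBounded.exists_norm_le
  refine ⟨2 * R, ?_, fun t => ?_⟩
  · have := (norm_nonneg _).trans (hR _ (P.hY 0)); linarith
  · unfold v'
    have h1 := (abs_dot'_le (P.Y t) t).trans (hR _ (P.hY t))
    have h2 := (abs_dot'_le (P.Y (t + π)) (t + π)).trans (hR _ (P.hY (t + π)))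
    rw [abs_le] at h1 h2 ⊢
    constructor <;> linarith [h1.1, h1.2, h2.1, h2.2]

lemma tendsto_diff_quot :
    Tendsto (fun n => ∫ t in (0:ℝ)..(2 * π), ((P.v (t + hh n) - P.v t) / hh n) ^ 2) atTop
      (𝓝 (∫ t in (0:ℝ)..(2 * π), P.v' t ^ 2)) := by
  obtain ⟨M, hM0, hM⟩ := P.exists_bound_v'
  have hv := P.continuous_v
  apply intervalIntegral.tendsto_integral_filter_of_dominated_convergence (fun _ => M ^ 2)
  · filter_upwards with n
    have : Continuous (fun t => ((P.v (t + hh n) - P.v t) / hh n) ^ 2) := by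
      have cvp : Continuous (fun t => P.v (t + hh n)) :=
        hv.comp (continuous_id.add continuous_const)
      exact ((cvp.sub hv).div_const _).pow 2
    exact this.aestronglyMeasurable
  · filter_upwards with n
    filter_upwards with t _
    have h := (convex_univ (𝕜 := ℝ) (E := ℝ)).norm_image_sub_le_of_norm_hasDerivWithin_le
      (f := P.v) (f' := P.v') (C := M) (s := univ) (x := t) (y := t + hh n)
      (fun x _ => (P.hasDerivAt_v x).hasDerivWithinAt)
      (fun x _ => by rw [Real.norm_eq_abs]; exact hM x) (mem_univ _) (mem_univ _)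
    have hn := hh_pos n
    simp only [Real.norm_eq_abs, add_sub_cancel_left, abs_of_pos hn] at h
    rw [Real.norm_eq_abs, abs_of_nonneg (sq_nonneg _), ← sq_abs, abs_div, abs_of_pos hn]
    apply pow_le_pow_left₀ (by positivity)
    rw [div_le_iff₀ hn]
    exact h
  · exact continuous_const.intervalIntegrable _ _
  · filter_upwards with t _
    have h1 := (P.hasDerivAt_v t).tendsto_slope_zero_right
    have h2 : Tendsto hh atTop (𝓝[>] 0) := by
      rw [tendsto_nhdsWithin_iff]
      exact ⟨hh_tendsto, Eventually.of_forall hh_pos⟩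
    have h3 := (h1.comp h2).pow 2
    refine h3.congr fun n => ?_
    simp only [Function.comp_apply, smul_eq_mul]
    ring

lemma v'_add_pi (t : ℝ) : P.v' (t + π) = P.v' t := by
  have h1 := P.hasDerivAt_v (t + π)
  have h2 : HasDerivAt (fun u => P.v (u + π)) (P.v' (t + π)) t := h1.comp_add_const t π
  have h3 : (fun u => P.v (u + π)) = P.v := by ext u; exact P.v_add_pi u
  rw [h3] at h2
  exact h2.unique (P.hasDerivAt_v t)

lemma integral_indicator_v :
    ∫ t in (0:ℝ)..(2 * π), P.B.indicator P.v t ≤ π * P.c * (1 + P.c) := by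
  have hw := wirtinger_periodic P.hasDerivAt_v P.continuous_v' P.v_add_pi P.v'_add_pi
  have hpi := pi_pos
  have h1 : ∫ t in (0:ℝ)..(2 * π), P.B.indicator P.v t ≤
      (1 / 2) * ((∫ t in (0:ℝ)..(2 * π), P.v t) + ∫ t in (0:ℝ)..(2 * π), P.v t ^ 2)
      - (1 / 2) * ∫ t in (0:ℝ)..(2 * π), P.v' t ^ 2 := by
    apply P.indicator_le_of_tendsto P.continuous_v P.v_nonneg
      (Cn := fun n =>
        (1 / 2) * ((∫ t in (0:ℝ)..(2 * π), P.v t) + ∫ t in (0:ℝ)..(2 * π), P.v t ^ 2)
        - (1 / 2) * ∫ t in (0:ℝ)..(2 * π), ((P.v (t + hh n) - P.v t) / hh n) ^ 2)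
    · intro n
      rw [P.integral_R_mul_v (cos_hh_lt n)]
      have hn := hh_pos n
      have hc := cos_hh_lt n
      have h2 : (1 / 2) * ∫ t in (0:ℝ)..(2 * π), ((P.v (t + hh n) - P.v t) / hh n) ^ 2
          ≤ (∫ t in (0:ℝ)..(2 * π), (P.v (t + hh n) - P.v t) ^ 2) / (4 * (1 - cos (hh n))) := by
        simp_rw [div_pow]
        rw [intervalIntegral.integral_div]
        have hI : 0 ≤ ∫ t in (0:ℝ)..(2 * π), (P.v (t + hh n) - P.v t) ^ 2 :=
          intervalIntegral.integral_nonneg (by positivity) fun t _ => sq_nonneg _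
        have h3 : 4 * (1 - cos (hh n)) ≤ 2 * hh n ^ 2 := by
          linarith [one_sub_sq_div_two_le_cos (x := hh n)]
        calc (1 / 2) * ((∫ t in (0:ℝ)..(2 * π), (P.v (t + hh n) - P.v t) ^ 2) / hh n ^ 2)
            = (∫ t in (0:ℝ)..(2 * π), (P.v (t + hh n) - P.v t) ^ 2) / (2 * hh n ^ 2) := by
              field_simp
          _ ≤ _ := by
              apply div_le_div_of_nonneg_left hI (by linarith) h3
      linarith
    · exact tendsto_const_nhds.sub ((P.tendsto_diff_quot).const_mul _)
  rw [P.integral_v] at hw h1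
  have e4 : (2 * π * P.c) ^ 2 / (2 * π) = 2 * π * P.c ^ 2 := by field_simp
  rw [e4] at hw
  nlinarith

lemma exists_gap_eq_zero : ∃ t, P.gap t = 0 := by
  by_contra h
  push Not at h
  have hpos : ∀ t, 0 < P.gap t := fun t => lt_of_le_of_ne (P.gap_nonneg t) (h t).symm
  obtain ⟨d, -, hd⟩ := P.exists_const (p := 0) (q := 2 * π) (by positivity) (fun t _ => hpos t)
  have := P.sub_lt_pi hd
  linarith [pi_pos]

/-- The planar inequality. -/
theorem main : 16 / 5 ≤ (∫ t in (0:ℝ)..(2 * π), P.hK t) ∨
    π * (1 + P.c ^ 2 / 6) ≤ ∫ t in (0:ℝ)..(2 * π), P.hK t := by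
  have hpi := pi_pos
  by_cases hbig : ∃ p q, p < q ∧ P.gap p = 0 ∧ P.gap q = 0 ∧ (∀ t ∈ Ioo p q, 0 < P.gap t) ∧
      3 * cos ((q - p) / 2) < 4 * sin ((q - p) / 2)
  · left
    obtain ⟨p, q, hpq, hp, hq, hpos, htan⟩ := hbig
    obtain ⟨d, hdD, hd⟩ := P.exists_const hpq hpos
    have hlt := P.sub_lt_pi hd
    have hsp : d + ee p ∈ P.S := P.mem_of_gap_eq_zero (hd p ⟨le_rfl, hpq.le⟩) hp
    have hsq : d + ee q ∈ P.S := P.mem_of_gap_eq_zero (hd q ⟨hpq.le, le_rfl⟩) hq
    have htri := triangle_le P.continuous_hK P.hK_add_two_pi (x := d + ee p) (y := d + ee q)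
      (z := d) (fun t => P.le_hK hsp t) (fun t => P.le_hK hsq t)
      (fun t => (P.le_hD hdD t).trans (P.hD_le_hK t))
    have e1 : d + ee p - (d + ee q) = ee p - ee q := by ring
    have e2 : d + ee q - d = ee q := by ring
    have e3 : ‖d - (d + ee p)‖ = 1 := by rw [norm_sub_rev]; simp
    rw [e1, e2, norm_ee, e3] at htri
    have hs0 : 0 < sin ((q - p) / 2) := sin_pos_of_pos_of_lt_pi (by linarith) (by linarith)
    have hc0 : 0 < cos ((q - p) / 2) := cos_pos_of_mem_Ioo ⟨by linarith, by linarith⟩
    have hs : 3 / 5 < sin ((q - p) / 2) := by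
      have := sin_sq_add_cos_sq ((q - p) / 2)
      nlinarith
    have e4 : ‖ee p - ee q‖ = 2 * sin ((q - p) / 2) := by
      have h1 : ‖ee p - ee q‖ ^ 2 = (2 * sin ((q - p) / 2)) ^ 2 := by
        rw [norm_ee_sub_ee_sq, show p - q = -(2 * ((q - p) / 2)) by ring, cos_neg, cos_two_mul]
        have := sin_sq_add_cos_sq ((q - p) / 2)
        nlinarith
      exact (sq_eq_sq₀ (norm_nonneg _) (by positivity)).mp h1
    linarith
  · right
    push Not at hbig
    obtain ⟨t₀, ht₀⟩ := P.exists_gap_eq_zero
    have hc0 := P.c_nonneg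
    have hc1 := P.c_le_one
    set κ := min 1 (4 / 3 * P.c) with hκ
    have hκ1 : κ ≤ 1 := min_le_left _ _
    set φ : ℝ → ℝ := fun t => (1 - κ) * P.B.indicator P.v t
      + P.c ^ 2 / 6 * P.B.indicator (fun _ => (1:ℝ)) t - P.gap t with hφ
    have hi1 : ∀ a b, IntervalIntegrable (P.B.indicator P.v) volume a b :=
      fun a b => P.intervalIntegrable_indicator P.continuous_v a b
    have hi2 : ∀ a b, IntervalIntegrable (P.B.indicator (fun _ => (1:ℝ))) volume a b :=
      fun a b => P.intervalIntegrable_indicator continuous_const a b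
    have hi3 : ∀ a b, IntervalIntegrable P.gap volume a b :=
      fun a b => P.continuous_gap.intervalIntegrable a b
    have hφi : ∀ a b, IntervalIntegrable φ volume a b := fun a b =>
      (((hi1 a b).const_mul _).add ((hi2 a b).const_mul _)).sub (hi3 a b)
    have hφint : ∀ a b, ∫ t in a..b, φ t = (1 - κ) * (∫ t in a..b, P.B.indicator P.v t)
        + P.c ^ 2 / 6 * (∫ t in a..b, P.B.indicator (fun _ => (1:ℝ)) t)
        - ∫ t in a..b, P.gap t := by
      intro a b
      simp only [hφ]
      rw [intervalIntegral.integral_sub (((hi1 a b).const_mul _).add ((hi2 a b).const_mul _))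
        (hi3 a b), intervalIntegral.integral_add ((hi1 a b).const_mul _) ((hi2 a b).const_mul _),
        intervalIntegral.integral_const_mul, intervalIntegral.integral_const_mul]
    have hind : ∀ (f : ℝ → ℝ) {p q : ℝ}, p < q → (∀ t ∈ Ioo p q, 0 < P.gap t) →
        ∫ t in p..q, P.B.indicator f t = ∫ t in p..q, f t := by
      intro f p q hpq hpos
      apply intervalIntegral.integral_congr_ae
      rw [uIoc_of_le hpq.le]
      have : ∀ᵐ t ∂(volume : Measure ℝ), t ≠ q := by
        rw [ae_iff]; simp
      filter_upwards [this] with t htq ht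
      rw [indicator_of_mem]
      exact hpos t ⟨ht.1, lt_of_le_of_ne ht.2 htq⟩
    have hmain : 0 ≤ ∫ t in t₀..(t₀ + 2 * π), φ t := by
      apply comp_induction P.continuous_gap P.gap_nonneg hφi _ _ (by linarith) ht₀
        (by rw [P.gap_add_two_pi]; exact ht₀)
      · intro t
        simp only [hφ]
        have h1 : 0 ≤ (1 - κ) * P.B.indicator P.v t :=
          mul_nonneg (by linarith) (indicator_nonneg (fun t _ => P.v_nonneg t) t)
        have h2 : 0 ≤ P.c ^ 2 / 6 * P.B.indicator (fun _ => (1:ℝ)) t :=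
          mul_nonneg (by positivity) (indicator_nonneg (fun t _ => zero_le_one) t)
        linarith
      · intro p q hpq hp hq hpos
        rw [hφint, hind _ hpq hpos, hind _ hpq hpos]
        have h1 := P.comp_ineq hpq hp hq hpos hc0 (hbig p q hpq hp hq hpos)
        simp only [intervalIntegral.integral_const, smul_eq_mul, mul_one]
        rw [← hκ] at h1
        linarith
    have hφper : ∀ t, φ (t + 2 * π) = φ t := by
      intro t
      have hB : t + 2 * π ∈ P.B ↔ t ∈ P.B := by
        simp only [B, mem_ofPred_eq, P.gap_add_two_pi]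
      simp only [hφ]
      by_cases ht : t ∈ P.B
      · rw [indicator_of_mem ht, indicator_of_mem ht, indicator_of_mem (hB.mpr ht),
          indicator_of_mem (hB.mpr ht), P.v_add_two_pi, P.gap_add_two_pi]
      · have ht' : t + 2 * π ∉ P.B := fun h => ht (hB.mp h)
        rw [indicator_of_notMem ht, indicator_of_notMem ht, indicator_of_notMem ht',
          indicator_of_notMem ht', P.gap_add_two_pi]
    rw [integral_base hφper, hφint] at hmain
    have hA := P.integral_indicator_v
    have hB := P.integral_indicator_one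
    have hgap : ∫ t in (0:ℝ)..(2 * π), P.gap t
        = π * (1 + P.c) - ∫ t in (0:ℝ)..(2 * π), P.hK t := by
      rw [← P.integral_F, ← intervalIntegral.integral_sub (P.continuous_F.intervalIntegrable _ _)
        (P.continuous_hK.intervalIntegrable _ _)]
      rfl
    rw [hgap] at hmain
    set c := P.c with hcdef
    have h1 : (1 - κ) * (∫ t in (0:ℝ)..(2 * π), P.B.indicator P.v t)
        ≤ (1 - κ) * (π * c * (1 + c)) := by gcongr
    have h2 : c ^ 2 / 6 * (∫ t in (0:ℝ)..(2 * π), P.B.indicator (fun _ => (1:ℝ)) t)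
        ≤ c ^ 2 / 6 * (π * (1 + c)) := by gcongr
    have h3 : (1 - κ) * (π * c * (1 + c)) + c ^ 2 / 6 * (π * (1 + c)) ≤ π * c - π * c ^ 2 / 6 := by
      rcases le_total 1 (4 / 3 * c) with h | h
      · rw [hκ, min_eq_left h]
        have : c ^ 2 / 6 * (π * (1 + c)) ≤ π * c - π * c ^ 2 / 6 := by
          have h5 : c ^ 2 * (1 + c) + c ^ 2 ≤ 6 * c := by nlinarith
          nlinarith
        linarith
      · rw [hκ, min_eq_right h]
        have h5 : (1 - 4 / 3 * c) * (c * (1 + c)) + c ^ 2 / 6 * (1 + c) ≤ c - c ^ 2 / 6 := by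
          nlinarith [mul_nonneg hc0 (mul_nonneg hc0 hc0)]
        nlinarith
    linarith

end Body

end Pool.Agent.Lib.MP_30679c_gt
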