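import Pool.Agent.Lib.MP_30679c_gt.Ultra

/-!
Rigidity: an extremal closed curve is congruent to the boundary of a plane body of constant
width one.
-/

namespace Pool.Agent.Lib.MP_30679c_gt

open Real MeasureTheory Set Filter Topology

/-- The data of the rigidity argument. -/
structure RData (E : Type*) [NormedAddCommGroup E] [InnerProductSpace ℝ E] where
  γ : ℝ → E
  β : ℝ → ℂ
  H : ℝ → ℝ
  hβc : ContinuousOn β (Icc 0 1)
  h1 : ∀ s ∈ Icc (0:ℝ) 1, ∀ t ∈ Icc (0:ℝ) 1, ‖γ s - γ t‖ ≤ ‖β s - β t‖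
  h2 : ∀ t ∈ Icc (0:ℝ) 1, ∀ θ, dot (β t) θ ≤ H θ
  h3 : ∀ θ, ∃ t ∈ Icc (0:ℝ) 1, dot (β t) θ = H θ
  h4 : ∀ θ, H θ + H (θ + π) = 1
  hfar : ∀ s ∈ Icc (0:ℝ) 1, ∃ t ∈ Icc (0:ℝ) 1, 1 ≤ ‖γ s - γ t‖

namespace RData

variable {E : Type*} [NormedAddCommGroup E] [InnerProductSpace ℝ E] (R : RData E)

/-- The body of constant width. -/
def K : Set ℂ := {x | ∀ θ, dot x θ ≤ R.H θ}

lemma β_mem {t : ℝ} (ht : t ∈ Icc (0:ℝ) 1) : R.β t ∈ R.K := fun θ => R.h2 t ht θ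

lemma norm_sub_le {x y : ℂ} (hx : x ∈ R.K) (hy : y ∈ R.K) : ‖x - y‖ ≤ 1 := by
  apply norm_le_of_dot_le
  intro t
  have h1 := hx t
  have h2 := hy (t + π)
  have h3 := R.h4 t
  rw [dot_add_pi] at h2
  rw [dot_sub]
  linarith

/-- The support point. -/
noncomputable def X (θ : ℝ) : ℂ := R.β (R.h3 θ).choose

lemma X_mem (θ : ℝ) : R.X θ ∈ R.K := R.β_mem (R.h3 θ).choose_spec.1

lemma dot_X (θ : ℝ) : dot (R.X θ) θ = R.H θ := (R.h3 θ).choose_spec.2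

lemma H_add_two_pi (θ : ℝ) : R.H (θ + 2 * π) = R.H θ := by
  have h1 := R.h4 θ
  have h2 := R.h4 (θ + π)
  rw [show θ + π + π = θ + 2 * π by ring] at h2
  linarith

lemma sub_eq_ee {x y : ℂ} (hx : x ∈ R.K) (hy : y ∈ R.K) {θ : ℝ} (hxθ : dot x θ = R.H θ)
    (hyθ : dot y (θ + π) = R.H (θ + π)) : x - y = ee θ := by
  apply eq_ee_of_dot (R.norm_sub_le hx hy)
  rw [dot_sub]
  have := R.h4 θ
  rw [dot_add_pi] at hyθ
  linarith

lemma X_sub_X (θ : ℝ) : R.X θ - R.X (θ + π) = ee θ :=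
  R.sub_eq_ee (R.X_mem _) (R.X_mem _) (R.dot_X _) (R.dot_X _)

lemma eq_X {x : ℂ} (hx : x ∈ R.K) {θ : ℝ} (hxθ : dot x θ = R.H θ) : x = R.X θ := by
  have h1 := R.sub_eq_ee hx (R.X_mem (θ + π)) hxθ (R.dot_X _)
  have h2 := R.X_sub_X θ
  have : x - R.X (θ + π) = R.X θ - R.X (θ + π) := by rw [h1, h2]
  exact sub_left_inj.mp this

lemma X_add_two_pi (θ : ℝ) : R.X (θ + 2 * π) = R.X θ := by
  apply R.eq_X (R.X_mem _)
  have := R.dot_X (θ + 2 * π)
  rwa [dot_add_two_pi, R.H_add_two_pi] at this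

lemma exists_pair {x y : ℂ} (hx : x ∈ R.K) (hy : y ∈ R.K) (h : 1 ≤ ‖x - y‖) :
    ∃ θ, x = R.X θ ∧ y = R.X (θ + π) := by
  obtain ⟨θ, hθ⟩ := exists_dot_eq_norm (x - y)
  rw [dot_sub] at hθ
  have h1 := hx θ
  have h2 := hy (θ + π)
  have h3 := R.h4 θ
  have h4 := dot_add_pi y θ
  exact ⟨θ, R.eq_X hx (by linarith), R.eq_X hy (by linarith)⟩

lemma dot'_ee (a t : ℝ) : dot' (ee a) t = sin (a - t) := by
  simp [dot', sin_sub]

lemma norm_le_of_cone {a : ℂ} {m δ : ℝ} (hδ0 : 0 < δ) (hδ : δ < π / 2)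
    (h1 : 0 ≤ dot a (m + δ)) (h2 : dot a (m - δ) ≤ 0) :
    |dot a m| * cos δ ≤ dot' a m * sin δ ∧ ‖a‖ * cos δ ≤ dot' a m := by
  rw [dot_add_angle] at h1
  rw [dot_sub_angle] at h2
  have hc : 0 < cos δ := cos_pos_of_mem_Ioo ⟨by linarith, hδ⟩
  have hs : 0 < sin δ := sin_pos_of_pos_of_lt_pi hδ0 (by linarith [pi_pos])
  have h3 : |dot a m| * cos δ ≤ dot' a m * sin δ := by
    have e : |dot a m| * cos δ = |dot a m * cos δ| := by rw [abs_mul, abs_of_pos hc]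
    rw [e, abs_le]
    constructor <;> linarith
  refine ⟨h3, ?_⟩
  have h4 : 0 ≤ dot' a m := by
    by_contra hneg
    push Not at hneg
    have := mul_neg_of_neg_of_pos hneg hs
    have := mul_nonneg (abs_nonneg (dot a m)) hc.le
    linarith
  apply le_of_sq_le_sq _ h4
  rw [mul_pow, norm_sq_eq_dot a m]
  have h5 : (|dot a m| * cos δ) ^ 2 ≤ (dot' a m * sin δ) ^ 2 :=
    pow_le_pow_left₀ (mul_nonneg (abs_nonneg _) hc.le) h3 2
  rw [mul_pow, mul_pow, sq_abs] at h5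
  have h6 := sin_sq_add_cos_sq δ
  nlinarith

/-- The basic estimate for the support points. -/
lemma X_cone {m δ : ℝ} (hδ0 : 0 < δ) (hδ : δ < π / 2) :
    (|dot (R.X (m + δ) - R.X (m - δ)) m| * cos δ
        ≤ dot' (R.X (m + δ) - R.X (m - δ)) m * sin δ ∧
      ‖R.X (m + δ) - R.X (m - δ)‖ * cos δ ≤ dot' (R.X (m + δ) - R.X (m - δ)) m) ∧
    (|dot (R.X (m + δ + π) - R.X (m - δ + π)) m| * cos δ
        ≤ - dot' (R.X (m + δ + π) - R.X (m - δ + π)) m * sin δ ∧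
      ‖R.X (m + δ + π) - R.X (m - δ + π)‖ * cos δ
        ≤ - dot' (R.X (m + δ + π) - R.X (m - δ + π)) m) ∧
    dot' (R.X (m + δ) - R.X (m - δ)) m - dot' (R.X (m + δ + π) - R.X (m - δ + π)) m
      = 2 * sin δ := by
  have hneg : ∀ z : ℂ, ∀ t, dot' (-z) t = - dot' z t := by intro z t; simp [dot']; ring
  refine ⟨?_, ?_, ?_⟩
  · apply norm_le_of_cone hδ0 hδ
    · have := R.X_mem (m - δ) (m + δ)
      rw [← R.dot_X] at this
      rw [dot_sub]; linarith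
    · have := R.X_mem (m + δ) (m - δ)
      rw [← R.dot_X (m - δ)] at this
      rw [dot_sub]; linarith
  · have h := norm_le_of_cone (a := -(R.X (m + δ + π) - R.X (m - δ + π))) (m := m) hδ0 hδ (by
      have := R.X_mem (m - δ + π) (m + δ + π)
      rw [← R.dot_X (m + δ + π), dot_add_pi, dot_add_pi] at this
      rw [dot_neg, dot_sub]; linarith) (by
      have := R.X_mem (m + δ + π) (m - δ + π)
      rw [← R.dot_X (m - δ + π), dot_add_pi, dot_add_pi] at this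
      rw [dot_neg, dot_sub]; linarith)
    rw [dot_neg, hneg, abs_neg, norm_neg] at h
    exact h
  · have h1 := R.X_sub_X (m + δ)
    have h2 := R.X_sub_X (m - δ)
    have hsub : ∀ z w : ℂ, dot' (z - w) m = dot' z m - dot' w m := by
      intro z w; simp [dot']; ring
    have h3 : dot' (R.X (m + δ)) m - dot' (R.X (m + δ + π)) m = sin δ := by
      rw [← hsub, h1, dot'_ee]; ring_nf
    have h4 : dot' (R.X (m - δ)) m - dot' (R.X (m - δ + π)) m = - sin δ := by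
      rw [← hsub, h2, dot'_ee, ← sin_neg]; ring_nf
    rw [hsub, hsub]
    linarith

lemma X_tan {m δ : ℝ} (hδ0 : 0 < δ) (hδ : δ < π / 2) :
    ‖R.X (m + δ) - R.X (m - δ)‖ + ‖R.X (m + δ + π) - R.X (m - δ + π)‖ ≤ 2 * tan δ := by
  obtain ⟨⟨_, h1⟩, ⟨_, h2⟩, h3⟩ := R.X_cone (m := m) hδ0 hδ
  have hc : 0 < cos δ := cos_pos_of_mem_Ioo ⟨by linarith, hδ⟩
  rw [tan_eq_sin_div_cos, mul_div_assoc', le_div_iff₀ hc]
  linarith

lemma continuous_X : Continuous R.X := by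
  rw [Metric.continuous_iff]
  intro b ε hε
  -- `2 * tan δ → 0`
  have ht : Tendsto (fun δ => 2 * tan δ) (𝓝 0) (𝓝 0) := by
    have h := (continuousAt_tan.mpr (by simp : cos (0:ℝ) ≠ 0)).tendsto
    rw [tan_zero] at h
    simpa using h.const_mul 2
  obtain ⟨δ, hδ, hball⟩ := Metric.eventually_nhds_iff.mp (ht.eventually (gt_mem_nhds hε))
  refine ⟨min δ 1, lt_min hδ one_pos, fun a hab => ?_⟩
  rcases eq_or_ne a b with h | h
  · rw [h, dist_self]; exact hε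
  set d := |a - b| / 2 with hd
  have hd0 : 0 < d := by rw [hd]; have := abs_pos.mpr (sub_ne_zero.mpr h); linarith
  have hdlt : |a - b| < min δ 1 := by rwa [Real.dist_eq] at hab
  have hd1 : d < π / 2 := by
    rw [hd]; have := hdlt.trans_le (min_le_right _ _); linarith [pi_gt_three]
  have h2 := R.X_tan (m := (a + b) / 2) hd0 hd1
  have h3 : 2 * tan d < ε := hball (by
    rw [Real.dist_eq, sub_zero, abs_of_pos hd0, hd]
    have := hdlt.trans_le (min_le_left _ _)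
    linarith)
  have h4 : dist (R.X a) (R.X b) = ‖R.X ((a + b) / 2 + d) - R.X ((a + b) / 2 - d)‖ := by
    rcases abs_cases (a - b) with ⟨h5, _⟩ | ⟨h5, _⟩
    · rw [dist_eq_norm, hd, h5]; congr 3 <;> ring
    · rw [dist_comm, dist_eq_norm, hd, h5]; congr 3 <;> ring
  rw [h4]
  have := norm_nonneg (R.X ((a + b) / 2 + d + π) - R.X ((a + b) / 2 - d + π))
  linarith

/-- If two directions have the same support point, so have all directions between them. -/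
lemma X_between {φ ψ θ : ℝ} (h : R.X φ = R.X ψ) (hφψ : φ ≤ ψ) (hlt : ψ - φ < π) (h1 : φ ≤ θ)
    (h2 : θ ≤ ψ) : R.X θ = R.X φ := by
  rcases eq_or_lt_of_le hφψ with heq | hlt'
  · have : θ = φ := le_antisymm (heq ▸ h2) h1
    rw [this]
  symm
  apply R.eq_X (R.X_mem _)
  apply le_antisymm (R.X_mem φ θ)
  -- `e(θ)` is a nonnegative combination of `e(φ)` and `e(ψ)`
  have hs : 0 < sin (ψ - φ) := sin_pos_of_pos_of_lt_pi (by linarith) hlt
  have hs1 : 0 ≤ sin (ψ - θ) := sin_nonneg_of_nonneg_of_le_pi (by linarith) (by linarith)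
  have hs2 : 0 ≤ sin (θ - φ) := sin_nonneg_of_nonneg_of_le_pi (by linarith) (by linarith)
  have hid : ∀ x : ℂ, sin (ψ - φ) * dot x θ = sin (ψ - θ) * dot x φ + sin (θ - φ) * dot x ψ := by
    intro x
    simp only [dot, sin_sub]
    have e1 := sin_sq_add_cos_sq θ
    have e2 := sin_sq_add_cos_sq φ
    have e3 := sin_sq_add_cos_sq ψ
    ring
  have h3 := hid (R.X θ)
  have h4 := hid (R.X φ)
  have h5 := R.X_mem θ φ
  have h6 := R.X_mem θ ψ
  rw [← R.dot_X φ] at h5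
  rw [← R.dot_X ψ, ← h] at h6
  have h7 : sin (ψ - φ) * dot (R.X θ) θ ≤ sin (ψ - φ) * dot (R.X φ) θ := by
    rw [h3, h4]
    gcongr
  have h8 := le_of_mul_le_mul_left h7 hs
  rwa [R.dot_X] at h8

/-- Directions realised by a pair of parameters. -/
def Adm (φ s t : ℝ) : Prop :=
  s ∈ Icc (0:ℝ) 1 ∧ t ∈ Icc (0:ℝ) 1 ∧ R.β s = R.X φ ∧ R.β t = R.X (φ + π) ∧
    1 ≤ ‖R.γ s - R.γ t‖

lemma Adm.swap {φ s t : ℝ} (h : R.Adm φ s t) : R.Adm (φ + π) t s := by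
  obtain ⟨h1, h2, h3, h4, h5⟩ := h
  refine ⟨h2, h1, h4, ?_, ?_⟩
  · rw [h3, show φ + π + π = φ + 2 * π by ring, R.X_add_two_pi]
  · rwa [norm_sub_rev]

lemma Adm.sub_two_pi {φ s t : ℝ} (h : R.Adm (φ + 2 * π) s t) : R.Adm φ s t := by
  obtain ⟨h1, h2, h3, h4, h5⟩ := h
  refine ⟨h1, h2, ?_, ?_, h5⟩
  · rw [h3, R.X_add_two_pi]
  · rw [h4, show φ + 2 * π + π = φ + π + 2 * π by ring, R.X_add_two_pi]

lemma Adm.add_two_pi {φ s t : ℝ} (h : R.Adm φ s t) : R.Adm (φ + 2 * π) s t := by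
  have := (h.swap).swap
  rwa [show φ + π + π = φ + 2 * π by ring] at this

/-- The set of admissible directions. -/
def Φ : Set ℝ := {φ | ∃ s t, R.Adm φ s t}

lemma isClosed_Φ : IsClosed R.Φ := by
  rw [← isSeqClosed_iff_isClosed]
  intro φ φ₀ hφ hlim
  choose s t hst using hφ
  have hs : ∀ n, s n ∈ Icc (0:ℝ) 1 := fun n => (hst n).1
  have ht : ∀ n, t n ∈ Icc (0:ℝ) 1 := fun n => (hst n).2.1
  obtain ⟨s₀, hs₀, k, hk, hslim⟩ := (isCompact_Icc (a := (0:ℝ)) (b := 1)).tendsto_subseq hs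
  obtain ⟨t₀, ht₀, l, hl, htlim⟩ := (isCompact_Icc (a := (0:ℝ)) (b := 1)).tendsto_subseq
    (fun n => ht (k n))
  have hslim' : Tendsto (fun n => s (k (l n))) atTop (𝓝 s₀) := hslim.comp hl.tendsto_atTop
  have htlim' : Tendsto (fun n => t (k (l n))) atTop (𝓝 t₀) := htlim
  have hφlim : Tendsto (fun n => φ (k (l n))) atTop (𝓝 φ₀) :=
    hlim.comp (hk.tendsto_atTop.comp hl.tendsto_atTop)
  have hβs : Tendsto (fun n => R.β (s (k (l n)))) atTop (𝓝 (R.β s₀)) := by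
    apply (R.hβc s₀ hs₀).tendsto.comp
    rw [tendsto_nhdsWithin_iff]
    exact ⟨hslim', Eventually.of_forall fun n => hs _⟩
  have hβt : Tendsto (fun n => R.β (t (k (l n)))) atTop (𝓝 (R.β t₀)) := by
    apply (R.hβc t₀ ht₀).tendsto.comp
    rw [tendsto_nhdsWithin_iff]
    exact ⟨htlim', Eventually.of_forall fun n => ht _⟩
  have hX1 : Tendsto (fun n => R.X (φ (k (l n)))) atTop (𝓝 (R.X φ₀)) :=
    (R.continuous_X.tendsto _).comp hφlim
  have hX2 : Tendsto (fun n => R.X (φ (k (l n)) + π)) atTop (𝓝 (R.X (φ₀ + π))) :=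
    (R.continuous_X.tendsto _).comp (hφlim.add_const π)
  have e1 : R.β s₀ = R.X φ₀ := tendsto_nhds_unique hβs (hX1.congr fun n => (hst _).2.2.1.symm)
  have e2 : R.β t₀ = R.X (φ₀ + π) :=
    tendsto_nhds_unique hβt (hX2.congr fun n => (hst _).2.2.2.1.symm)
  refine ⟨s₀, t₀, hs₀, ht₀, e1, e2, ?_⟩
  -- limit of the distances
  have h5 : ∀ n, 1 - ‖R.β s₀ - R.β (s (k (l n)))‖ - ‖R.β t₀ - R.β (t (k (l n)))‖
      ≤ ‖R.γ s₀ - R.γ t₀‖ := by
    intro n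
    have h6 := (hst (k (l n))).2.2.2.2
    have h7 := R.h1 s₀ hs₀ _ (hs (k (l n)))
    have h8 := R.h1 t₀ ht₀ _ (ht (k (l n)))
    have h9 : ‖R.γ (s (k (l n))) - R.γ (t (k (l n)))‖ ≤ ‖R.γ s₀ - R.γ t₀‖
        + ‖R.γ s₀ - R.γ (s (k (l n)))‖ + ‖R.γ t₀ - R.γ (t (k (l n)))‖ := by
      have e : R.γ (s (k (l n))) - R.γ (t (k (l n))) = (R.γ s₀ - R.γ t₀)
          - (R.γ s₀ - R.γ (s (k (l n)))) + (R.γ t₀ - R.γ (t (k (l n)))) := by abel
      rw [e]
      have e1 := norm_add_le ((R.γ s₀ - R.γ t₀) - (R.γ s₀ - R.γ (s (k (l n)))))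
        (R.γ t₀ - R.γ (t (k (l n))))
      have e2 := _root_.norm_sub_le (R.γ s₀ - R.γ t₀) (R.γ s₀ - R.γ (s (k (l n))))
      linarith
    linarith
  have h10 : Tendsto (fun n => 1 - ‖R.β s₀ - R.β (s (k (l n)))‖ - ‖R.β t₀ - R.β (t (k (l n)))‖)
      atTop (𝓝 (1 - ‖R.β s₀ - R.β s₀‖ - ‖R.β t₀ - R.β t₀‖)) :=
    (tendsto_const_nhds.sub (tendsto_const_nhds.sub hβs).norm).sub
      (tendsto_const_nhds.sub hβt).norm
  have h11 := le_of_tendsto' h10 h5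
  simpa using h11

/-- Each point of the boundary is the support point in an admissible direction. -/
lemma exists_adm (φ : ℝ) : ∃ ψ ∈ R.Φ, R.X ψ = R.X φ := by
  obtain ⟨hs, -⟩ := (R.h3 φ).choose_spec
  set s := (R.h3 φ).choose with hsdef
  have hβ : R.β s = R.X φ := rfl
  obtain ⟨t, ht, hst⟩ := R.hfar s hs
  obtain ⟨ψ, h1, h2⟩ := R.exists_pair (R.β_mem hs) (R.β_mem ht) (hst.trans (R.h1 s hs t ht))
  exact ⟨ψ, ⟨s, t, hs, ht, h1, h2, hst⟩, by rw [← h1, hβ]⟩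

lemma Φ_periodic (φ : ℝ) : φ + π ∈ R.Φ ↔ φ ∈ R.Φ := by
  constructor
  · rintro ⟨s, t, h⟩
    refine ⟨t, s, ?_⟩
    have h' := h.swap
    rw [show φ + π + π = φ + 2 * π by ring] at h'
    exact Adm.sub_two_pi R h'
  · rintro ⟨s, t, h⟩
    exact ⟨t, s, h.swap⟩

lemma Φ_periodic' (φ : ℝ) : φ + 2 * π ∈ R.Φ ↔ φ ∈ R.Φ := by
  rw [show φ + 2 * π = φ + π + π by ring, R.Φ_periodic, R.Φ_periodic]

/-- Outside the admissible directions the support point is one of two points. -/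
lemma X_gap {a b : ℝ} (hab : ∀ φ ∈ Ioo a b, φ ∉ R.Φ) {φ : ℝ} (hφ : φ ∈ Ioo a b) :
    R.X φ = R.X a ∨ R.X φ = R.X b := by
  obtain ⟨ψ₀, hψ₀, hX₀⟩ := R.exists_adm φ
  -- move `ψ` to within distance `π` of `φ`
  have hpi := pi_pos
  obtain ⟨ψ, hψ, hX, hψ1, hψ2⟩ : ∃ ψ ∈ R.Φ, R.X ψ = R.X φ ∧ φ - π ≤ ψ ∧ ψ < φ + π := by
    have hperX : Function.Periodic R.X (2 * π) := R.X_add_two_pi
    have hperΦ : Function.Periodic (fun x => x ∈ R.Φ) (2 * π) := fun x =>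
      propext (R.Φ_periodic' x)
    set n := toIcoDiv (by positivity : (0:ℝ) < 2 * π) (φ - π) ψ₀ with hn
    refine ⟨ψ₀ - n • (2 * π), ?_, ?_, ?_, ?_⟩
    · have h := hperΦ.sub_zsmul_eq n (x := ψ₀)
      rw [eq_iff_iff] at h
      exact h.mpr hψ₀
    · rw [hperX.sub_zsmul_eq n, hX₀]
    · exact (sub_toIcoDiv_zsmul_mem_Ico (by positivity : (0:ℝ) < 2 * π) (φ - π) ψ₀).1
    · have := (sub_toIcoDiv_zsmul_mem_Ico (by positivity : (0:ℝ) < 2 * π) (φ - π) ψ₀).2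
      linarith
  have hne : ψ ≠ φ - π := by
    intro h
    have h1 := R.X_sub_X ψ
    rw [hX, h, sub_add_cancel, sub_self] at h1
    have h2 := norm_ee (φ - π)
    rw [← h1, norm_zero] at h2
    exact zero_ne_one h2
  have hψab : ψ ∉ Ioo a b := fun h => hab ψ h hψ
  rcases lt_or_ge ψ φ with h | h
  · left
    have ha : ψ ≤ a := by
      by_contra hcon
      push Not at hcon
      exact hψab ⟨hcon, h.trans hφ.2⟩
    have h1 := R.X_between hX h.le (by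
      have := lt_of_le_of_ne hψ1 (Ne.symm hne); linarith) (θ := a) ha hφ.1.le
    rw [← hX, h1]
  · right
    have hb : b ≤ ψ := by
      by_contra hcon
      push Not at hcon
      exact hψab ⟨lt_of_lt_of_le hφ.1 h, hcon⟩
    have h1 := R.X_between hX.symm h (by linarith) (θ := b) hφ.2.le hb
    rw [h1]

lemma ee_injOn {a b : ℝ} (hab : b - a < 2 * π) : InjOn ee (Ioo a b) := by
  intro s hs t ht h
  have h1 := norm_ee_sub_ee_sq s t
  rw [h, sub_self, norm_zero] at h1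
  have h2 : cos (s - t) = 1 := by linarith
  have h3 := (cos_eq_one_iff_of_lt_of_lt (x := s - t) (by linarith [hs.1, ht.2])
    (by linarith [hs.2, ht.1])).mp h2
  linarith

theorem Φ_univ (φ : ℝ) : φ ∈ R.Φ := by
  by_contra hφ
  have hpi := pi_pos
  obtain ⟨δ, hδ, hball⟩ := Metric.isOpen_iff.mp R.isClosed_Φ.isOpen_compl φ hφ
  set ε := min δ 1 with hε
  have hε0 : 0 < ε := lt_min hδ one_pos
  have hgap : ∀ x ∈ Ioo (φ - ε) (φ + ε), x ∉ R.Φ := by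
    intro x hx
    apply hball
    rw [Metric.mem_ball, Real.dist_eq, abs_lt]
    have := min_le_left δ 1
    constructor <;> linarith [hx.1, hx.2]
  have hgap' : ∀ x ∈ Ioo (φ - ε + π) (φ + ε + π), x ∉ R.Φ := by
    intro x hx hxΦ
    have h1 := (R.Φ_periodic (x - π)).mp (by rwa [sub_add_cancel])
    exact hgap (x - π) ⟨by linarith [hx.1], by linarith [hx.2]⟩ h1
  have hfin : (ee '' Ioo (φ - ε) (φ + ε)).Finite := by
    apply (Set.toFinite {R.X (φ - ε) - R.X (φ - ε + π), R.X (φ - ε) - R.X (φ + ε + π),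
      R.X (φ + ε) - R.X (φ - ε + π), R.X (φ + ε) - R.X (φ + ε + π)}).subset
    rintro _ ⟨x, hx, rfl⟩
    rw [← R.X_sub_X x]
    rcases R.X_gap hgap hx with h1 | h1 <;>
    rcases R.X_gap hgap' (φ := x + π) ⟨by linarith [hx.1], by linarith [hx.2]⟩ with h2 | h2 <;>
    rw [h1, h2] <;> simp
  have hinj : InjOn ee (Ioo (φ - ε) (φ + ε)) := ee_injOn (by
    have := min_le_right δ 1
    have := pi_gt_three
    linarith)
  have hinf : (Ioo (φ - ε) (φ + ε)).Infinite := Ioo_infinite (by linarith)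
  exact hinf (hfin.of_finite_image hinj)

end RData

end Pool.Agent.Lib.MP_30679c_gt
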