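import Pool.Agent.Lib.MP_30679c_gt.Rigid

/-!
Rigidity, continued: the extremal curve lies in a plane and is congruent to the boundary of the
body of constant width.
-/

namespace Pool.Agent.Lib.MP_30679c_gt

open Real MeasureTheory Set Filter Topology
open scoped RealInnerProductSpace

lemma dot'_add' (z w : ℂ) (t : ℝ) : dot' (z + w) t = dot' z t + dot' w t := by
  simp only [dot', Complex.add_re, Complex.add_im]; ring

lemma dot'_smul' (r : ℝ) (z : ℂ) (t : ℝ) : dot' (r • z) t = r * dot' z t := by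
  simp only [dot', Complex.smul_re, Complex.smul_im, smul_eq_mul]; ring

/-- A function of two variables with the triangle inequality and a first order estimate. -/
lemma subdivision {D : ℝ → ℝ → ℝ} (htri : ∀ a b c, D a c ≤ D a b + D b c) {c : ℝ}
    (h : ∀ ε > 0, ∃ δ₀ > 0, ∀ m δ, 0 < δ → δ < δ₀ → D (m - δ) (m + δ) ≤ (c + ε) * (2 * δ))
    {a b : ℝ} (hab : a < b) : D a b ≤ c * (b - a) := by
  have key : ∀ ε > 0, D a b ≤ (c + ε) * (b - a) := by
    intro ε hε
    obtain ⟨δ₀, hδ₀, hD⟩ := h ε hε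
    obtain ⟨n, hn⟩ := exists_nat_gt ((b - a) / (2 * δ₀))
    have hab' := sub_pos.mpr hab
    have hnpos : 0 < (n : ℝ) := lt_trans (by positivity) hn
    set w := (b - a) / n with hw
    have hw0 : 0 < w := div_pos hab' hnpos
    have hw1 : w / 2 < δ₀ := by
      rw [div_lt_iff₀ (by positivity)] at hn
      rw [hw, div_div, div_lt_iff₀ (by positivity)]
      nlinarith
    have hstep : ∀ x, D x (x + w) ≤ (c + ε) * w := by
      intro x
      have := hD (x + w / 2) (w / 2) (by positivity) hw1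
      rw [show x + w / 2 - w / 2 = x by ring, show x + w / 2 + w / 2 = x + w by ring,
        show 2 * (w / 2) = w by ring] at this
      exact this
    have hsum : ∀ k : ℕ, 0 < k → D a (a + k * w) ≤ k * ((c + ε) * w) := by
      intro k hk
      induction k with
      | zero => omega
      | succ k ih =>
        rcases Nat.eq_zero_or_pos k with h0 | h0
        · subst h0; simpa using hstep a
        · have h1 := htri a (a + k * w) (a + (k + 1 : ℕ) * w)
          have h2 := hstep (a + k * w)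
          have e : a + ((k + 1 : ℕ) : ℝ) * w = a + k * w + w := by push_cast; ring
          rw [e] at h1 ⊢
          push_cast
          linarith [ih h0]
    have hfin := hsum n (by exact_mod_cast hnpos)
    have e1 : (n : ℝ) * w = b - a := by rw [hw]; field_simp
    rw [show (n : ℝ) * ((c + ε) * w) = (c + ε) * (n * w) by ring, e1,
      show a + (b - a) = b by ring] at hfin
    exact hfin
  by_contra hcon
  push Not at hcon
  have hab' := sub_pos.mpr hab
  have h1 := key ((D a b - c * (b - a)) / (2 * (b - a))) (div_pos (by linarith) (by linarith))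
  have h2 : (c + (D a b - c * (b - a)) / (2 * (b - a))) * (b - a)
      = c * (b - a) + (D a b - c * (b - a)) / 2 := by
    field_simp
  rw [h2] at h1
  linarith

lemma tendsto_tan_zero : Tendsto tan (𝓝 0) (𝓝 0) := by
  have h := (continuousAt_tan.mpr (by simp : cos (0:ℝ) ≠ 0)).tendsto
  rwa [tan_zero] at h

lemma arcsin_tan_small {ε : ℝ} (hε : 0 < ε) : ∃ δ₀ > 0, ∀ δ, 0 < δ → δ < δ₀ →
    arcsin (tan δ) ≤ (1 + ε) * δ := by
  have h1 : HasDerivAt tan (1 / cos 0 ^ 2) 0 := hasDerivAt_tan (by simp)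
  have h2 : HasDerivAt arcsin (1 / √(1 - (tan 0) ^ 2)) (tan 0) :=
    hasDerivAt_arcsin (by simp) (by simp)
  have h3 : HasDerivAt (fun x => arcsin (tan x)) 1 0 := by
    have := h2.comp 0 h1
    simpa [Function.comp_def] using this
  rw [hasDerivAt_iff_isLittleO_nhds_zero] at h3
  have h4 := h3.def hε
  obtain ⟨δ₀, hδ₀, hball⟩ := Metric.eventually_nhds_iff.mp h4
  refine ⟨δ₀, hδ₀, fun δ hδ0 hδ => ?_⟩
  have h5 := hball (y := δ) (by rw [Real.dist_eq, sub_zero, abs_of_pos hδ0]; exact hδ)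
  simp only [zero_add, tan_zero, arcsin_zero, sub_zero, smul_eq_mul, mul_one] at h5
  rw [Real.norm_eq_abs, Real.norm_eq_abs, abs_of_pos hδ0] at h5
  have h6 := le_abs_self (arcsin (tan δ) - δ)
  linarith

section angle

variable {E : Type*} [NormedAddCommGroup E] [InnerProductSpace ℝ E]

lemma norm_sub_eq_two_sin {x y : E} (hx : ‖x‖ = 1) (hy : ‖y‖ = 1) :
    ‖x - y‖ = 2 * sin (InnerProductGeometry.angle x y / 2) := by
  have h1 := InnerProductGeometry.inner_eq_cos_angle_of_norm_eq_one hx hy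
  have h2 := norm_sub_sq_real x y
  set α := InnerProductGeometry.angle x y with hα
  have h3 : 0 ≤ α := InnerProductGeometry.angle_nonneg x y
  have h4 : α ≤ π := InnerProductGeometry.angle_le_pi x y
  have h5 : 0 ≤ sin (α / 2) := sin_nonneg_of_nonneg_of_le_pi (by linarith) (by linarith)
  have h6 : cos α = 1 - 2 * sin (α / 2) ^ 2 := by
    have := cos_sq' (α / 2)
    have h7 := cos_two_mul (α / 2)
    rw [show 2 * (α / 2) = α by ring] at h7
    rw [h7, this]; ring
  have h8 : ‖x - y‖ ^ 2 = (2 * sin (α / 2)) ^ 2 := by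
    rw [h2, h1, h6, hx, hy]; ring
  exact (sq_eq_sq₀ (norm_nonneg _) (by positivity)).mp h8

lemma angle_le_of_norm_sub {x y : E} (hx : ‖x‖ = 1) (hy : ‖y‖ = 1) {r : ℝ} (hr : ‖x - y‖ ≤ 2 * r) :
    InnerProductGeometry.angle x y ≤ 2 * arcsin r := by
  rw [norm_sub_eq_two_sin hx hy] at hr
  set α := InnerProductGeometry.angle x y with hα
  have h3 : 0 ≤ α := InnerProductGeometry.angle_nonneg x y
  have h4 : α ≤ π := InnerProductGeometry.angle_le_pi x y
  have h5 : arcsin (sin (α / 2)) ≤ arcsin r := monotone_arcsin (by linarith)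
  rw [arcsin_sin (by linarith) (by linarith)] at h5
  linarith

end angle

namespace RData

variable {E : Type*} [NormedAddCommGroup E] [InnerProductSpace ℝ E] (R : RData E)

/-- The first parameter realising a direction. -/
noncomputable def σ (φ : ℝ) : ℝ := (R.Φ_univ φ).choose

/-- The second parameter realising a direction. -/
noncomputable def τ (φ : ℝ) : ℝ := (R.Φ_univ φ).choose_spec.choose

lemma adm (φ : ℝ) : R.Adm φ (R.σ φ) (R.τ φ) := (R.Φ_univ φ).choose_spec.choose_spec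

/-- The point of the space curve with a given direction. -/
noncomputable def G (φ : ℝ) : E := R.γ (R.σ φ)

lemma G_eq {s φ : ℝ} (hs : s ∈ Icc (0:ℝ) 1) (h : R.β s = R.X φ) : R.γ s = R.G φ := by
  have h1 := R.h1 s hs _ (R.adm φ).1
  rw [h, (R.adm φ).2.2.1, sub_self, norm_zero] at h1
  exact sub_eq_zero.mp (norm_le_zero_iff.mp h1)

lemma G_congr {φ ψ : ℝ} (h : R.X φ = R.X ψ) : R.G φ = R.G ψ :=
  R.G_eq (R.adm φ).1 ((R.adm φ).2.2.1.trans h)

lemma norm_G_sub_le (φ ψ : ℝ) : ‖R.G φ - R.G ψ‖ ≤ ‖R.X φ - R.X ψ‖ := by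
  have h1 := R.h1 _ (R.adm φ).1 _ (R.adm ψ).1
  rwa [(R.adm φ).2.2.1, (R.adm ψ).2.2.1] at h1

lemma G_add_two_pi (φ : ℝ) : R.G (φ + 2 * π) = R.G φ := R.G_congr (R.X_add_two_pi φ)

/-- The unit vector joining opposite points. -/
noncomputable def U (φ : ℝ) : E := R.G φ - R.G (φ + π)

lemma norm_U (φ : ℝ) : ‖R.U φ‖ = 1 := by
  apply le_antisymm
  · have := R.norm_G_sub_le φ (φ + π)
    rwa [R.X_sub_X, norm_ee] at this
  · have h := R.adm φ
    have h1 : R.γ (R.τ φ) = R.G (φ + π) := R.G_eq h.2.1 h.2.2.2.1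
    have h2 := h.2.2.2.2
    rw [h1] at h2
    exact h2

lemma U_add_pi (φ : ℝ) : R.U (φ + π) = - R.U φ := by
  unfold U
  rw [show φ + π + π = φ + 2 * π by ring, R.G_add_two_pi, neg_sub]

lemma norm_U_sub {m δ : ℝ} (hδ0 : 0 < δ) (hδ : δ < π / 2) :
    ‖R.U (m - δ) - R.U (m + δ)‖ ≤ 2 * tan δ := by
  have h1 := R.X_tan (m := m) hδ0 hδ
  have h2 := R.norm_G_sub_le (m + δ) (m - δ)
  have h3 := R.norm_G_sub_le (m + δ + π) (m - δ + π)
  have h4 : R.U (m + δ) - R.U (m - δ) = (R.G (m + δ) - R.G (m - δ))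
      - (R.G (m + δ + π) - R.G (m - δ + π)) := by unfold U; abel
  rw [norm_sub_rev, h4]
  have h5 := _root_.norm_sub_le (R.G (m + δ) - R.G (m - δ)) (R.G (m + δ + π) - R.G (m - δ + π))
  linarith

lemma angle_U_le {a b : ℝ} (hab : a ≤ b) :
    InnerProductGeometry.angle (R.U a) (R.U b) ≤ b - a := by
  rcases eq_or_lt_of_le hab with h | h
  · rw [h, InnerProductGeometry.angle_self, sub_self]
    intro h0
    have := R.norm_U b
    rw [h0, norm_zero] at this
    exact zero_ne_one this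
  have := subdivision (D := fun x y => InnerProductGeometry.angle (R.U x) (R.U y)) (c := 1)
    (fun a b c => InnerProductGeometry.angle_le_angle_add_angle _ _ _) ?_ h
  · simpa using this
  · intro ε hε
    obtain ⟨δ₀, hδ₀, h1⟩ := arcsin_tan_small hε
    refine ⟨min δ₀ 1, lt_min hδ₀ one_pos, fun m δ hδ0 hδ => ?_⟩
    have h2 := angle_le_of_norm_sub (R.norm_U (m - δ)) (R.norm_U (m + δ)) (R.norm_U_sub hδ0
      (by have := hδ.trans_le (min_le_right _ _); linarith [pi_gt_three]))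
    have h3 := h1 δ hδ0 (hδ.trans_le (min_le_left _ _))
    linarith

lemma angle_U {a b : ℝ} (hab : a ≤ b) (hb : b ≤ a + π) :
    InnerProductGeometry.angle (R.U a) (R.U b) = b - a := by
  apply le_antisymm (R.angle_U_le hab)
  have h1 := R.angle_U_le hb
  have h2 := InnerProductGeometry.angle_le_angle_add_angle (R.U a) (R.U b) (R.U (a + π))
  have h3 : InnerProductGeometry.angle (R.U a) (R.U (a + π)) = π := by
    rw [R.U_add_pi]
    apply InnerProductGeometry.angle_self_neg_of_nonzero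
    intro h0
    have := R.norm_U a
    rw [h0, norm_zero] at this
    exact zero_ne_one this
  linarith

lemma inner_U {a b : ℝ} (hab : a ≤ b) (hb : b ≤ a + π) : ⟪R.U a, R.U b⟫ = cos (b - a) := by
  rw [InnerProductGeometry.inner_eq_cos_angle_of_norm_eq_one (R.norm_U a) (R.norm_U b),
    R.angle_U hab hb]

lemma inner_U_zero : ⟪R.U 0, R.U (π / 2)⟫ = 0 := by
  rw [R.inner_U (by positivity) (by linarith [pi_pos])]
  simp

lemma U_eq_aux {θ : ℝ} (h0 : 0 ≤ θ) (h1 : θ ≤ π) :
    R.U θ = cos θ • R.U 0 + sin θ • R.U (π / 2) := by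
  have e1 : ⟪R.U 0, R.U θ⟫ = cos θ := by
    rw [R.inner_U h0 (by linarith), sub_zero]
  have e2 : ⟪R.U θ, R.U (π / 2)⟫ = sin θ := by
    rcases le_total θ (π / 2) with h | h
    · rw [R.inner_U h (by linarith), cos_pi_div_two_sub]
    · rw [real_inner_comm, R.inner_U h (by linarith), cos_sub_pi_div_two]
  have e3 := R.inner_U_zero
  have n0 := R.norm_U 0
  have n1 := R.norm_U (π / 2)
  have nθ := R.norm_U θ
  rw [← sub_eq_zero, ← norm_eq_zero, ← sq_eq_zero_iff]
  rw [norm_sub_sq_real, norm_add_sq_real, inner_add_right, inner_smul_right, inner_smul_right,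
    real_inner_smul_left, real_inner_smul_right, norm_smul, norm_smul, e3, e2, nθ, n0, n1,
    real_inner_comm, e1]
  simp only [Real.norm_eq_abs, mul_one, mul_zero, sq_abs]
  have := sin_sq_add_cos_sq θ
  nlinarith

lemma U_eq (θ : ℝ) : R.U θ = cos θ • R.U 0 + sin θ • R.U (π / 2) := by
  have hper : Function.Periodic
      (fun θ => ‖R.U θ - (cos θ • R.U 0 + sin θ • R.U (π / 2))‖) π := by
    intro x
    simp only
    rw [R.U_add_pi, cos_add_pi, sin_add_pi, ← norm_neg]
    congr 1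
    simp only [neg_smul]
    abel
  obtain ⟨y, hy, h⟩ := hper.exists_mem_Ico₀ pi_pos θ
  rw [R.U_eq_aux hy.1 hy.2.le, sub_self, norm_zero] at h
  exact sub_eq_zero.mp (norm_eq_zero.mp h)

/-- The isometric embedding of the plane, linear part. -/
noncomputable def Alin : ℂ →ₗ[ℝ] E where
  toFun z := z.re • R.U 0 + z.im • R.U (π / 2)
  map_add' z w := by simp only [Complex.add_re, Complex.add_im, add_smul]; abel
  map_smul' r z := by
    simp only [Complex.smul_re, Complex.smul_im, smul_eq_mul, mul_smul, smul_add, RingHom.id_apply]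

/-- The isometric embedding of the plane. -/
noncomputable def A : ℂ →ₗᵢ[ℝ] E where
  toLinearMap := R.Alin
  norm_map' z := by
    have h : ‖R.Alin z‖ ^ 2 = ‖z‖ ^ 2 := by
      change ‖z.re • R.U 0 + z.im • R.U (π / 2)‖ ^ 2 = _
      rw [norm_add_sq_real, real_inner_smul_left, real_inner_smul_right, R.inner_U_zero,
        norm_smul, norm_smul, R.norm_U, R.norm_U, norm_sq_eq]
      simp
    exact (sq_eq_sq₀ (norm_nonneg _) (norm_nonneg _)).mp h

lemma A_apply (z : ℂ) : R.A z = z.re • R.U 0 + z.im • R.U (π / 2) := rfl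

lemma A_ee (θ : ℝ) : R.A (ee θ) = R.U θ := by
  rw [R.U_eq θ]; rfl

/-- The difference between the space curve and the embedded plane curve. -/
noncomputable def Z (φ : ℝ) : E := R.G φ - R.A (R.X φ)

lemma Z_add_pi (φ : ℝ) : R.Z (φ + π) = R.Z φ := by
  have h1 : R.G (φ + π) = R.G φ - R.U φ := by unfold U; abel
  have h2 : R.X (φ + π) = R.X φ - ee φ := by rw [← R.X_sub_X φ]; abel
  unfold Z
  rw [h1, h2, map_sub, R.A_ee]
  abel

lemma inner_A (z w : ℂ) : ⟪R.A z, R.A w⟫ = ⟪z, w⟫ := R.A.inner_map_map z w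

lemma norm_Z_sub {m δ : ℝ} (hδ0 : 0 < δ) (hδ : δ < π / 2) :
    ‖R.Z (m - δ) - R.Z (m + δ)‖ ≤ 2 * (tan δ * sin δ) := by
  obtain ⟨⟨ha1, ha2⟩, ⟨hb1, hb2⟩, hab⟩ := R.X_cone (m := m) hδ0 hδ
  set a := R.X (m + δ) - R.X (m - δ) with ha
  set b := R.X (m + δ + π) - R.X (m - δ + π) with hb
  set z := R.Z (m + δ) - R.Z (m - δ) with hz
  have hc : 0 < cos δ := cos_pos_of_mem_Ioo ⟨by linarith, hδ⟩
  have hs : 0 < sin δ := sin_pos_of_pos_of_lt_pi hδ0 (by linarith [pi_pos])
  have e1 : z + R.A a = R.G (m + δ) - R.G (m - δ) := by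
    rw [hz, ha, map_sub]; unfold Z; abel
  have e2 : z + R.A b = R.G (m + δ + π) - R.G (m - δ + π) := by
    rw [hz, hb, map_sub, ← R.Z_add_pi (m + δ), ← R.Z_add_pi (m - δ)]; unfold Z; abel
  have f1 : ‖z + R.A a‖ ≤ ‖a‖ := by rw [e1]; exact R.norm_G_sub_le _ _
  have f2 : ‖z + R.A b‖ ≤ ‖b‖ := by rw [e2]; exact R.norm_G_sub_le _ _
  have g1 : ‖z‖ ^ 2 + 2 * ⟪z, R.A a⟫ ≤ 0 := by
    have := pow_le_pow_left₀ (norm_nonneg _) f1 2
    rw [norm_add_sq_real, R.A.norm_map] at this
    linarith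
  have g2 : ‖z‖ ^ 2 + 2 * ⟪z, R.A b⟫ ≤ 0 := by
    have := pow_le_pow_left₀ (norm_nonneg _) f2 2
    rw [norm_add_sq_real, R.A.norm_map] at this
    linarith
  have ha0 : 0 ≤ dot' a m := le_trans (by positivity) ha2
  have hb0 : 0 ≤ - dot' b m := le_trans (by positivity) hb2
  -- the combination
  set w : ℂ := (- dot' b m) • a + (dot' a m) • b with hw
  have g3 : 2 * sin δ * ‖z‖ ^ 2 + 2 * ⟪z, R.A w⟫ ≤ 0 := by
    have h1 := mul_le_mul_of_nonneg_left g1 hb0
    have h2 := mul_le_mul_of_nonneg_left g2 ha0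
    have h3 : ⟪z, R.A w⟫ = (- dot' b m) * ⟪z, R.A a⟫ + dot' a m * ⟪z, R.A b⟫ := by
      rw [hw, map_add, map_smul, map_smul, inner_add_right, inner_smul_right, inner_smul_right]
    rw [h3, ← hab]
    nlinarith
  have hw' : ‖w‖ ≤ 2 * tan δ * (dot' a m * (- dot' b m)) := by
    have k1 : dot' w m = 0 := by
      rw [hw, dot'_add', dot'_smul', dot'_smul']; ring
    have k2 : dot w m = (- dot' b m) * dot a m + dot' a m * dot b m := by
      rw [hw, dot_add, dot_smul, dot_smul]
    have k3 : ‖w‖ = |dot w m| := by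
      have := norm_sq_eq_dot w m
      rw [k1] at this
      rw [← abs_norm w]
      rw [← sq_eq_sq_iff_abs_eq_abs]
      linarith
    have k4 : |dot a m| ≤ dot' a m * tan δ := by
      rw [tan_eq_sin_div_cos, mul_div_assoc', le_div_iff₀ hc]; exact ha1
    have k5 : |dot b m| ≤ (- dot' b m) * tan δ := by
      rw [tan_eq_sin_div_cos, mul_div_assoc', le_div_iff₀ hc]; exact hb1
    rw [k3, k2]
    calc |(- dot' b m) * dot a m + dot' a m * dot b m|
        ≤ |(- dot' b m) * dot a m| + |dot' a m * dot b m| := abs_add_le _ _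
      _ = (- dot' b m) * |dot a m| + dot' a m * |dot b m| := by
          rw [abs_mul, abs_mul, abs_of_nonneg hb0, abs_of_nonneg ha0]
      _ ≤ (- dot' b m) * (dot' a m * tan δ) + dot' a m * ((- dot' b m) * tan δ) := by
          gcongr
      _ = _ := by ring
  have hprod : dot' a m * (- dot' b m) ≤ sin δ ^ 2 := by
    nlinarith [sq_nonneg (dot' a m - (- dot' b m))]
  have ht : 0 < tan δ := tan_pos_of_pos_of_lt_pi_div_two hδ0 hδ
  have hw'' : ‖w‖ ≤ 2 * tan δ * sin δ ^ 2 := hw'.trans (by gcongr)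
  have g4 : - ⟪z, R.A w⟫ ≤ ‖z‖ * ‖w‖ := by
    have := abs_real_inner_le_norm z (R.A w)
    rw [R.A.norm_map] at this
    linarith [neg_abs_le ⟪z, R.A w⟫]
  have g5 : ‖z‖ * (sin δ * ‖z‖) ≤ ‖z‖ * (2 * tan δ * sin δ ^ 2) := by
    have := mul_le_mul_of_nonneg_left hw'' (norm_nonneg z)
    nlinarith
  rw [norm_sub_rev, ← hz]
  rcases eq_or_lt_of_le (norm_nonneg z) with h | h
  · rw [← h]; positivity
  · have g6 := le_of_mul_le_mul_left g5 h
    have g7 : sin δ * ‖z‖ ≤ sin δ * (2 * (tan δ * sin δ)) := by linarith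
    exact le_of_mul_le_mul_left g7 hs

lemma Z_eq_aux {a b : ℝ} (h : a < b) : R.Z a = R.Z b := by
  have := subdivision (D := fun x y => ‖R.Z x - R.Z y‖) (c := 0)
    (fun a b c => by
      have := norm_add_le (R.Z a - R.Z b) (R.Z b - R.Z c)
      simpa using this) ?_ h
  · simp only [zero_mul] at this
    exact sub_eq_zero.mp (norm_le_zero_iff.mp this)
  · intro ε hε
    obtain ⟨δ₀, hδ₀, hball⟩ := Metric.eventually_nhds_iff.mp
      (tendsto_tan_zero.eventually (gt_mem_nhds hε))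
    refine ⟨min δ₀ 1, lt_min hδ₀ one_pos, fun m δ hδ0 hδ => ?_⟩
    have hδ' : δ < π / 2 := by
      have := hδ.trans_le (min_le_right _ _); linarith [pi_gt_three]
    have h1 := R.norm_Z_sub (m := m) hδ0 hδ'
    have h2 : tan δ < ε := hball (y := δ) (by
      rw [Real.dist_eq, sub_zero, abs_of_pos hδ0]; exact hδ.trans_le (min_le_left _ _))
    have h3 : sin δ ≤ δ := sin_le hδ0.le
    have h4 : 0 < sin δ := sin_pos_of_pos_of_lt_pi hδ0 (by linarith [pi_pos])
    have h5 : tan δ * sin δ ≤ ε * δ := mul_le_mul h2.le h3 h4.le hε.le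
    linarith

lemma Z_eq (a b : ℝ) : R.Z a = R.Z b := by
  rcases lt_trichotomy a b with h | h | h
  · exact R.Z_eq_aux h
  · rw [h]
  · exact (R.Z_eq_aux h).symm

lemma G_eq_A (φ : ℝ) : R.G φ = R.A (R.X φ) + R.Z 0 := by
  rw [R.Z_eq 0 φ]; unfold Z; abel

/-- The extremal curve is the congruent image of the support points. -/
theorem range_eq : R.γ '' Icc 0 1 = (fun z => R.A z + R.Z 0) '' (range R.X) := by
  apply Subset.antisymm
  · rintro _ ⟨s, hs, rfl⟩
    obtain ⟨t, ht, hst⟩ := R.hfar s hs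
    obtain ⟨φ, h1, h2⟩ := R.exists_pair (R.β_mem hs) (R.β_mem ht) (hst.trans (R.h1 s hs t ht))
    exact ⟨R.X φ, mem_range_self φ, by simp only; rw [R.G_eq hs h1, R.G_eq_A]⟩
  · rintro _ ⟨_, ⟨φ, rfl⟩, rfl⟩
    exact ⟨R.σ φ, (R.adm φ).1, R.G_eq_A φ⟩

end RData

end Pool.Agent.Lib.MP_30679c_gt
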