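import Pool.Agent.Lib.MP_30679c_gt.Flip
import Pool.Agent.Lib.MP_30679c_gt.Dich

/-!
Every closed polygon in a Euclidean space can be stretched to a plane polygon whose convex hull
has its boundary covered by the edges.
-/

namespace Pool.Agent.Lib.MP_30679c_gt

open Finset

variable {E : Type*} [NormedAddCommGroup E] [InnerProductSpace ℝ E]
variable {N : ℕ} [NeZero N]

/-- A subspace of dimension at most two embeds isometrically into the plane. -/
lemma exists_plane_map (a b : E) : ∃ f : E →ₗ[ℝ] ℂ, ∀ x ∈ Submodule.span ℝ {a, b}, ‖f x‖ = ‖x‖ := by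
  classical
  set W := Submodule.span ℝ {a, b} with hW
  have hfd : FiniteDimensional ℝ W := by
    rw [hW]; exact FiniteDimensional.span_of_finite ℝ (Set.toFinite _)
  have hfr : Module.finrank ℝ W ≤ 2 := by
    have h := finrank_span_finset_le_card (R := ℝ) ({a, b} : Finset E)
    rw [Finset.coe_pair] at h
    exact h.trans Finset.card_le_two
  set bas := stdOrthonormalBasis ℝ W with hbas
  have hc := Complex.orthonormalBasisOneI.orthonormal
  set v : Fin (Module.finrank ℝ W) → ℂ :=
    fun i => Complex.orthonormalBasisOneI (Fin.castLE hfr i) with hv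
  have hvo : Orthonormal ℝ v := hc.comp _ (Fin.castLE_injective hfr)
  set g : W →ₗ[ℝ] ℂ := bas.toBasis.constr ℝ v with hg
  have hgv : g ∘ bas.toBasis = v := by
    ext1 i
    simp only [hg, Function.comp_apply, Module.Basis.constr_basis]
  have hbo : Orthonormal ℝ bas.toBasis := by
    rw [bas.coe_toBasis]; exact bas.orthonormal
  set G := g.isometryOfOrthonormal hbo (by rw [hgv]; exact hvo) with hG
  refine ⟨G.toLinearMap.comp (W.orthogonalProjectionOnto : E →L[ℝ] W).toLinearMap, ?_⟩
  intro x hx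
  have h1 : W.orthogonalProjectionOnto x = ⟨x, hx⟩ := by
    have := W.orthogonalProjectionOnto_mem_subspace_eq_self ⟨x, hx⟩
    simpa using this
  simp only [LinearMap.comp_apply, ContinuousLinearMap.coe_coe, LinearIsometry.coe_toLinearMap]
  rw [h1, LinearIsometry.norm_map]
  rfl

/-- On a support line of the hull of a finite set, a point of the hull lies between two points
of the set. -/
lemma exists_between {S : Finset ℂ} {x : ℂ} (hx : x ∈ convexHull ℝ (S : Set ℂ)) {t : ℝ}
    (ht : ∀ s ∈ S, dot s t ≤ dot x t) :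
    (∃ s ∈ S, dot s t = dot x t ∧ dot' s t ≤ dot' x t) ∧
    (∃ s ∈ S, dot s t = dot x t ∧ dot' x t ≤ dot' s t) := by
  rw [Finset.mem_convexHull] at hx
  obtain ⟨w, hw0, hw1, hwx⟩ := hx
  rw [Finset.centerMass_eq_of_sum_1 _ _ hw1] at hwx
  simp only [id_eq] at hwx
  have hsum : ∀ (L : ℂ →ₗ[ℝ] ℝ), ∑ s ∈ S, w s * L s = L x := by
    intro L
    conv_rhs => rw [← hwx, map_sum]
    exact Finset.sum_congr rfl fun s _ => by rw [map_smul, smul_eq_mul]
  let L1 : ℂ →ₗ[ℝ] ℝ :=
    { toFun := fun z => dot z t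
      map_add' := fun z w => dot_add z w t
      map_smul' := fun r z => by rw [dot_smul]; rfl }
  let L2 : ℂ →ₗ[ℝ] ℝ :=
    { toFun := fun z => dot' z t
      map_add' := fun z w => by simp [dot']; ring
      map_smul' := fun r z => by simp [dot']; ring }
  have h1 : ∑ s ∈ S, w s * dot s t = dot x t := hsum L1
  have h2 : ∑ s ∈ S, w s * dot' s t = dot' x t := hsum L2
  have h3 : ∑ s ∈ S, w s * (dot x t - dot s t) = 0 := by
    simp_rw [mul_sub]
    rw [Finset.sum_sub_distrib, ← Finset.sum_mul, hw1, h1]; ring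
  have h4 : ∀ s ∈ S, w s * (dot x t - dot s t) = 0 := by
    rw [Finset.sum_eq_zero_iff_of_nonneg] at h3
    · exact h3
    · intro s hs
      exact mul_nonneg (hw0 s hs) (sub_nonneg.mpr (ht s hs))
  have h5 : ∀ s ∈ S, w s ≠ 0 → dot s t = dot x t := by
    intro s hs hws
    have := h4 s hs
    rcases mul_eq_zero.mp this with h | h
    · exact absurd h hws
    · linarith
  constructor
  · by_contra hcon
    push Not at hcon
    have hex : ∃ s ∈ S, w s ≠ 0 := by
      by_contra hno
      push Not at hno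
      rw [Finset.sum_eq_zero hno] at hw1
      exact zero_ne_one hw1
    have h6 : ∑ s ∈ S, w s * dot' x t < ∑ s ∈ S, w s * dot' s t := by
      apply Finset.sum_lt_sum
      · intro s hs
        by_cases hws : w s = 0
        · rw [hws]; simp
        · exact mul_le_mul_of_nonneg_left (hcon s hs (h5 s hs hws)).le (hw0 s hs)
      · obtain ⟨s, hs, hws⟩ := hex
        exact ⟨s, hs, mul_lt_mul_of_pos_left (hcon s hs (h5 s hs hws))
          (lt_of_le_of_ne (hw0 s hs) (Ne.symm hws))⟩
    rw [← Finset.sum_mul, hw1, h2] at h6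
    linarith
  · by_contra hcon
    push Not at hcon
    have hex : ∃ s ∈ S, w s ≠ 0 := by
      by_contra hno
      push Not at hno
      rw [Finset.sum_eq_zero hno] at hw1
      exact zero_ne_one hw1
    have h6 : ∑ s ∈ S, w s * dot' s t < ∑ s ∈ S, w s * dot' x t := by
      apply Finset.sum_lt_sum
      · intro s hs
        by_cases hws : w s = 0
        · rw [hws]; simp
        · exact mul_le_mul_of_nonneg_left (hcon s hs (h5 s hs hws)).le (hw0 s hs)
      · obtain ⟨s, hs, hws⟩ := hex
        exact ⟨s, hs, mul_lt_mul_of_pos_left (hcon s hs (h5 s hs hws))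
          (lt_of_le_of_ne (hw0 s hs) (Ne.symm hws))⟩
    rw [← Finset.sum_mul, hw1, h2] at h6
    linarith

/-- Discrete intermediate value property. -/
lemma exists_step_up {g : ℕ → ℝ} {a b : ℕ} (hab : a ≤ b) {y : ℝ} (ha : g a ≤ y) (hb : y ≤ g b)
    (hne : a ≠ b) : ∃ k, a ≤ k ∧ k < b ∧ g k ≤ y ∧ y ≤ g (k + 1) := by
  induction b with
  | zero => omega
  | succ b ih =>
    by_cases h : g b ≤ y
    · exact ⟨b, by omega, by omega, h, hb⟩
    · push Not at h
      have hab' : a ≠ b := by
        intro h2; rw [h2] at ha; linarith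
      obtain ⟨k, h1, h2, h3, h4⟩ := ih (by omega) h.le hab'
      exact ⟨k, h1, by omega, h3, h4⟩

lemma norm_sub_eq_of_dot {x y : ℂ} {t : ℝ} (h : dot x t = dot y t) :
    ‖x - y‖ = |dot' x t - dot' y t| := by
  have h1 := norm_sq_eq_dot (x - y) t
  have h2 : dot (x - y) t = 0 := by rw [dot_sub, h, sub_self]
  have h3 : dot' (x - y) t = dot' x t - dot' y t := by simp [dot']; ring
  rw [h2, h3] at h1
  rw [← sq_eq_sq₀ (norm_nonneg _) (abs_nonneg _), h1, sq_abs]; ring

/-- Chord stretching of closed polygons. -/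
theorem stretch [FiniteDimensional ℝ E] (p : ZMod N → E) :
    ∃ z : ZMod N → ℂ, Stretches p z ∧
      ∀ x ∈ convexHull ℝ (Set.range z), ∀ t : ℝ, (∀ i, dot (z i) t ≤ dot x t) →
        ∃ i, ‖x - z i‖ ≤ ‖z (i + 1) - z i‖ := by
  classical
  obtain ⟨q, hq, hmax⟩ := exists_maximizer p
  obtain ⟨j₀, a, b, hspan⟩ := planar_of_max hq hmax
  obtain ⟨f, hf⟩ := exists_plane_map a b
  have hnorm : ∀ i j, ‖f (q i) - f (q j)‖ = ‖q i - q j‖ := by
    intro i j
    rw [← map_sub]
    apply hf
    have : q i - q j = (q i - q j₀) - (q j - q j₀) := by abel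
    rw [this]
    exact Submodule.sub_mem _ (hspan i) (hspan j)
  refine ⟨fun i => f (q i), ⟨fun i => ?_, fun i j => ?_⟩, ?_⟩
  · simp only [hnorm]; exact hq.1 i
  · simp only [hnorm]; exact hq.2 i j
  intro x hx t ht
  -- the functional as an inner product
  obtain ⟨w, hw⟩ : ∃ w : E, ∀ y, inner ℝ w y = dot (f y) t := by
    let L : E →ₗ[ℝ] ℝ :=
      { toFun := fun z => dot (f z) t
        map_add' := fun z w => by simp
        map_smul' := fun r z => by rw [map_smul, dot_smul]; rfl }
    refine ⟨(InnerProductSpace.toDual ℝ E).symm (LinearMap.toContinuousLinearMap L), fun y => ?_⟩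
    rw [InnerProductSpace.toDual_symm_apply]
    rfl
  set z : ZMod N → ℂ := fun i => f (q i) with hz
  set S : Finset ℂ := univ.image z with hS
  have hSr : (S : Set ℂ) = Set.range z := by simp [hS]
  rw [← hSr] at hx
  have hts : ∀ s ∈ S, dot s t ≤ dot x t := by
    intro s hs
    simp only [hS, mem_image, mem_univ, true_and] at hs
    obtain ⟨i, rfl⟩ := hs
    exact ht i
  obtain ⟨⟨s, hs, hs1, hs2⟩, ⟨s', hs', hs'1, hs'2⟩⟩ := exists_between hx hts
  simp only [hS, mem_image, mem_univ, true_and] at hs hs'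
  obtain ⟨i₀, rfl⟩ := hs
  obtain ⟨i₁, rfl⟩ := hs'
  -- the flip property
  have hflip : ∀ {j : ZMod N} {k₁ : ℕ}, k₁ < N → dot (z j) t = dot x t →
      dot (z (j + k₁)) t = dot x t →
      (∀ k : ℕ, 0 < k → k < k₁ → dot (z (j + k)) t = dot x t) ∨
      (∀ k : ℕ, k₁ < k → k < N → dot (z (j + k)) t = dot x t) := by
    intro j k₁ hk1 h0 h1
    have := flip_vec hq hmax (w := w) (M := dot x t) (fun i => by rw [hw]; exact ht i) hk1
      (by rw [hw]; exact h0) (by rw [hw]; exact h1)
    simp only [hw] at this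
    exact this
  set k₁ := (i₁ - i₀).val with hk₁
  have hk1N : k₁ < N := ZMod.val_lt _
  have hi1 : i₀ + (k₁ : ZMod N) = i₁ := by
    rw [hk₁, ZMod.natCast_zmod_val]; ring
  -- conclusion from a step
  have hstep : ∀ i, dot (z i) t = dot x t → dot (z (i + 1)) t = dot x t →
      ((dot' (z i) t ≤ dot' x t ∧ dot' x t ≤ dot' (z (i + 1)) t) ∨
       (dot' (z (i + 1)) t ≤ dot' x t ∧ dot' x t ≤ dot' (z i) t)) →
      ∃ i, ‖x - z i‖ ≤ ‖z (i + 1) - z i‖ := by
    intro i h1 h2 h3
    refine ⟨i, ?_⟩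
    rw [norm_sub_eq_of_dot h1.symm, norm_sub_eq_of_dot (h2.trans h1.symm)]
    rcases h3 with ⟨h3, h4⟩ | ⟨h3, h4⟩
    · rw [abs_of_nonneg (by linarith), abs_of_nonneg (by linarith)]; linarith
    · rw [abs_of_nonpos (by linarith), abs_of_nonpos (by linarith)]; linarith
  by_cases hk0 : k₁ = 0
  · -- `x = z i₀`
    have hi : i₁ = i₀ := by rw [← hi1, hk0]; simp
    rw [hi] at hs'2
    refine ⟨i₀, ?_⟩
    rw [norm_sub_eq_of_dot hs1.symm]
    have : dot' x t - dot' (z i₀) t = 0 := by linarith
    rw [this, abs_zero]; exact norm_nonneg _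
  have hx1 : dot (z (i₀ + k₁)) t = dot x t := by rw [hi1]; exact hs'1
  rcases hflip hk1N hs1 hx1 with h | h
  · have hall : ∀ k : ℕ, k ≤ k₁ → dot (z (i₀ + k)) t = dot x t := by
      intro k hk
      rcases Nat.eq_zero_or_pos k with h0 | h0
      · rw [h0]; simpa using hs1
      · rcases lt_or_eq_of_le hk with h1 | h1
        · exact h k h0 h1
        · rw [h1]; exact hx1
    obtain ⟨k, -, hkb, hk1, hk2⟩ := exists_step_up (g := fun k => dot' (z (i₀ + k)) t)
      (Nat.zero_le k₁) (y := dot' x t) (by simpa using hs2) (by rw [hi1]; exact hs'2)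
      (Ne.symm hk0)
    have e : i₀ + ((k + 1 : ℕ) : ZMod N) = i₀ + k + 1 := by push_cast; ring
    apply hstep (i₀ + k) (hall k hkb.le)
    · rw [← e]; exact hall (k + 1) hkb
    · left; rw [← e]; exact ⟨hk1, hk2⟩
  · have hNN : i₀ + ((N : ℕ) : ZMod N) = i₀ := by simp
    have hall : ∀ k : ℕ, k₁ ≤ k → k ≤ N → dot (z (i₀ + k)) t = dot x t := by
      intro k hk hkN
      rcases lt_or_eq_of_le hk with h1 | h1
      · rcases lt_or_eq_of_le hkN with h2 | h2
        · exact h k h1 h2
        · rw [h2, hNN]; exact hs1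
      · rw [← h1]; exact hx1
    obtain ⟨k, hka, hkb, hk1, hk2⟩ := exists_step_up (g := fun k => - dot' (z (i₀ + k)) t)
      hk1N.le (y := - dot' x t) (by simp only [hi1]; linarith) (by simp only [hNN]; linarith)
      (by omega)
    have e : i₀ + ((k + 1 : ℕ) : ZMod N) = i₀ + k + 1 := by push_cast; ring
    apply hstep (i₀ + k) (hall k hka hkb.le)
    · rw [← e]; exact hall (k + 1) (by omega) hkb
    · right; rw [← e]; exact ⟨by linarith, by linarith⟩

/-! ### The length of a closed polygon -/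

lemma sum_zmod_eq_sum_range (f : ZMod N → ℝ) (j : ZMod N) :
    ∑ i, f i = ∑ m ∈ range N, f (j + m) := by
  symm
  apply Finset.sum_bij' (i := fun (m : ℕ) _ => j + (m : ZMod N))
    (j := fun (i : ZMod N) _ => ((i - j).val : ℕ))
  · intro m _; exact mem_univ _
  · intro i _; rw [mem_range]; exact ZMod.val_lt _
  · intro m hm
    rw [mem_range] at hm
    have e : j + (m : ZMod N) - j = m := by ring
    rw [e, ZMod.val_natCast, Nat.mod_eq_of_lt hm]
  · intro i _
    rw [ZMod.natCast_zmod_val]; ring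
  · intro m _; rfl

lemma abs_sub_le_sum (g : ℕ → ℝ) {a b : ℕ} (hab : a ≤ b) :
    |g b - g a| ≤ ∑ m ∈ Ico a b, |g (m + 1) - g m| := by
  rw [← Finset.sum_Ico_sub g hab]
  exact Finset.abs_sum_le_sum_abs _ _

lemma two_mul_sub_le_sum (a : ZMod N → ℝ) (j k : ZMod N) :
    2 * (a j - a k) ≤ ∑ i, |a (i + 1) - a i| := by
  rw [sum_zmod_eq_sum_range _ j]
  set g : ℕ → ℝ := fun m => a (j + m) with hg
  set k₁ := (k - j).val with hk₁
  have hk1N : k₁ ≤ N := (ZMod.val_lt _).le
  have e0 : g 0 = a j := by simp [hg]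
  have e1 : g k₁ = a k := by
    simp only [hg, hk₁]; rw [ZMod.natCast_zmod_val]; ring_nf
  have e2 : g N = a j := by simp [hg]
  have h1 := abs_sub_le_sum g (Nat.zero_le k₁)
  have h2 := abs_sub_le_sum g hk1N
  have h3 : ∑ m ∈ range N, |a (j + m + 1) - a (j + m)|
      = (∑ m ∈ Ico 0 k₁, |g (m + 1) - g m|) + ∑ m ∈ Ico k₁ N, |g (m + 1) - g m| := by
    rw [Finset.sum_Ico_consecutive _ (Nat.zero_le _) hk1N, Finset.range_eq_Ico]
    apply Finset.sum_congr rfl
    intro m _
    simp only [hg]
    push_cast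
    rw [add_assoc]
  rw [h3]
  rw [e0, e1] at h1
  rw [e1, e2] at h2
  have := neg_abs_le (a k - a j)
  have := le_abs_self (a j - a k)
  linarith

open MeasureTheory Real in
/-- The integral of the support function is at most the length of a closed polygon. -/
lemma integral_sup_le {S : Finset ℂ} (hS : S.Nonempty) (z : ZMod N → ℂ) (hz : ∀ s ∈ S, ∃ i, z i = s) :
    ∫ t in (0:ℝ)..(2 * π), sup S hS t ≤ ∑ i, ‖z (i + 1) - z i‖ := by
  have hpt : ∀ t, 2 * (sup S hS t + sup S hS (t + π)) ≤ ∑ i, |dot (z (i + 1) - z i) t| := by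
    intro t
    obtain ⟨s, hs, h1⟩ := exists_sup hS t
    obtain ⟨s', hs', h2⟩ := exists_sup hS (t + π)
    obtain ⟨i, hi⟩ := hz s hs
    obtain ⟨j, hj⟩ := hz s' hs'
    have h3 := two_mul_sub_le_sum (fun i => dot (z i) t) i j
    simp only [← dot_sub] at h3
    rw [h1, h2, dot_add_pi, ← hi, ← hj]
    refine le_trans (le_of_eq ?_) h3
    rw [dot_sub]; ring
  have hc := continuous_sup hS
  have hcp : Continuous (fun t => sup S hS (t + π)) := hc.comp (continuous_id.add continuous_const)
  have hi : ∀ w : ℂ, IntervalIntegrable (fun t => |dot w t|) volume 0 (2 * π) :=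
    fun w => ((continuous_dot w).abs).intervalIntegrable _ _
  have h1 : ∫ t in (0:ℝ)..(2 * π), 2 * (sup S hS t + sup S hS (t + π))
      ≤ ∫ t in (0:ℝ)..(2 * π), ∑ i, |dot (z (i + 1) - z i) t| := by
    apply intervalIntegral.integral_mono_on (by positivity)
    · exact (continuous_const.mul (hc.add hcp)).intervalIntegrable _ _
    · apply Continuous.intervalIntegrable
      exact continuous_finsetSum _ fun i _ => (continuous_dot _).abs
    · intro t _; exact hpt t
  rw [intervalIntegral.integral_finsetSum (fun i _ => hi _),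
    intervalIntegral.integral_const_mul,
    intervalIntegral.integral_add (hc.intervalIntegrable _ _) (hcp.intervalIntegrable _ _),
    integral_shift (sup_add_two_pi hS)] at h1
  simp_rw [integral_abs_dot] at h1
  rw [← Finset.mul_sum] at h1
  linarith

end Pool.Agent.Lib.MP_30679c_gt
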