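import Pool.Agent.Lib.MP_30679c_gt.Limit

/-!
The limit of the stretched inscribed polygons of an extremal closed curve.
-/

namespace Pool.Agent.Lib.MP_30679c_gt

open Real MeasureTheory Set Filter Topology

variable {E : Type*} [NormedAddCommGroup E] [InnerProductSpace ℝ E]

namespace Curve

variable (C : Curve E)

/-- The error function. -/
noncomputable def err (η : ℝ) : ℝ := √(√(8320 * η)) + 2 * η

lemma approx [FiniteDimensional ℝ E] (hL : C.L = π)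
    (hfar : ∀ s ∈ Icc (0:ℝ) 1, ∃ t ∈ Icc (0:ℝ) 1, 1 ≤ ‖C.γ s - C.γ t‖) {η : ℝ} (hη0 : 0 < η)
    (hη1 : η ≤ 1 / 200) :
    ∃ (B : ℝ → ℂ) (G : ℝ → ℝ), B 0 = 0 ∧
      (∀ s ∈ Icc (0:ℝ) 1, ∀ t ∈ Icc (0:ℝ) 1, ‖C.γ s - C.γ t‖ - 2 * η ≤ ‖B s - B t‖) ∧
      (∀ s ∈ Icc (0:ℝ) 1, ∀ t ∈ Icc (0:ℝ) 1, s ≤ t → ‖B t - B s‖ ≤ C.V t - C.V s + η) ∧
      (∀ t ∈ Icc (0:ℝ) 1, ∀ θ, dot (B t) θ ≤ G θ) ∧
      (∀ θ, ∃ t ∈ Icc (0:ℝ) 1, dot (B t) θ = G θ) ∧
      (∀ θ, |G θ + G (θ + π) - 1| ≤ err η) := by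
  obtain ⟨N, hN, hη⟩ := C.exists_steps hη0
  have : NeZero N := ⟨hN.ne'⟩
  have hN' : (0:ℝ) < N := by exact_mod_cast hN
  set r := 1 - 2 * η with hr
  have hr1 : 99 / 100 ≤ r := by rw [hr]; linarith
  have hr0 : 0 < r := by linarith
  have hrle : r ≤ 1 := by rw [hr]; linarith
  have hpi := pi_pos
  have hpi4 := pi_lt_d2
  obtain ⟨z, P, hst, hz0, hS1, hS2, hc⟩ := C.exists_body (r := r) (r₀ := 1) hη0.le hη hr0
    (by rw [hr]; linarith) hfar (by rw [hL, div_lt_iff₀ hr0]; linarith)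
  rw [hL] at hc
  -- chords of the polygon are controlled by `V`
  have hchord : ∀ a b : ℕ, a ≤ b → b ≤ N → ‖z (b : ZMod N) - z (a : ZMod N)‖
      ≤ C.V ((b : ℝ) / N) - C.V ((a : ℝ) / N) := by
    intro a b hab hbN
    induction b with
    | zero =>
      have : a = 0 := by omega
      subst this; simp
    | succ b ih =>
      rcases lt_or_eq_of_le hab with h | h
      · have h1 := ih (by omega) (by omega)
        have h2 := (hst.1 (b : ZMod N)).trans (C.poly_edge (N := N) (k := b) (by omega))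
        have e : z ((b + 1 : ℕ) : ZMod N) - z (a : ZMod N)
            = (z ((b : ZMod N) + 1) - z (b : ZMod N)) + (z (b : ZMod N) - z (a : ZMod N)) := by
          rw [Nat.cast_succ]; abel
        rw [e]
        refine (norm_add_le _ _).trans ?_
        linarith
      · subst h; simp
  refine ⟨fun t => z ((⌊(N:ℝ) * t⌋₊ : ℕ) : ZMod N), fun θ => r * P.hK θ, ?_, ?_, ?_, ?_, ?_, ?_⟩
  · simp [hz0]
  · intro s hs t ht
    obtain ⟨hs1, hs2, hs3⟩ := C.floor_facts hN hη0.le hη hs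
    obtain ⟨ht1, ht2, ht3⟩ := C.floor_facts hN hη0.le hη ht
    have h1 := hst.2 ((⌊(N:ℝ) * s⌋₊ : ℕ) : ZMod N) ((⌊(N:ℝ) * t⌋₊ : ℕ) : ZMod N)
    rw [C.poly_natCast hs1, C.poly_natCast ht1] at h1
    have h2 := (C.hlip _ (div_mem hN hs1) _ hs hs2).trans hs3
    have h3 := (C.hlip _ (div_mem hN ht1) _ ht ht2).trans ht3
    have e : C.γ s - C.γ t = (C.γ ((⌊(N:ℝ) * s⌋₊ : ℝ) / N) - C.γ ((⌊(N:ℝ) * t⌋₊ : ℝ) / N))
        + (C.γ s - C.γ ((⌊(N:ℝ) * s⌋₊ : ℝ) / N)) - (C.γ t - C.γ ((⌊(N:ℝ) * t⌋₊ : ℝ) / N)) := by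
      abel
    have h4 : ‖C.γ s - C.γ t‖ ≤ ‖C.γ ((⌊(N:ℝ) * s⌋₊ : ℝ) / N) - C.γ ((⌊(N:ℝ) * t⌋₊ : ℝ) / N)‖
        + ‖C.γ s - C.γ ((⌊(N:ℝ) * s⌋₊ : ℝ) / N)‖ + ‖C.γ t - C.γ ((⌊(N:ℝ) * t⌋₊ : ℝ) / N)‖ := by
      rw [e]
      exact (norm_sub_le _ _).trans (add_le_add_left (norm_add_le _ _) _)
    linarith
  · intro s hs t ht hst'
    obtain ⟨hs1, hs2, hs3⟩ := C.floor_facts hN hη0.le hη hs
    obtain ⟨ht1, ht2, ht3⟩ := C.floor_facts hN hη0.le hη ht
    have hfl : ⌊(N:ℝ) * s⌋₊ ≤ ⌊(N:ℝ) * t⌋₊ :=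
      Nat.floor_le_floor (mul_le_mul_of_nonneg_left hst' hN'.le)
    have h1 := hchord _ _ hfl ht1
    have h2 := C.hmono (div_mem hN ht1) ht ht2
    linarith
  · intro t ht θ
    have h1 := P.le_hK (hS2 ((⌊(N:ℝ) * t⌋₊ : ℕ) : ZMod N)) θ
    rw [dot_smul, one_div, inv_mul_le_iff₀ hr0] at h1
    exact h1
  · intro θ
    obtain ⟨s, hs, hsθ⟩ := P.exists_hK θ
    obtain ⟨i, hi⟩ := hS1 s hs
    refine ⟨(i.val : ℝ) / N, div_mem hN (ZMod.val_lt i).le, ?_⟩
    have e1 : (N : ℝ) * ((i.val : ℝ) / N) = (i.val : ℝ) := by field_simp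
    simp only [e1, Nat.floor_natCast, ZMod.natCast_zmod_val]
    rw [hsθ, hi, dot_smul]; field_simp
  · intro θ
    have hv := P.v_sq_le θ
    have hw := P.width_close θ
    have hv0 := P.v_nonneg θ
    have hc0 := P.c_nonneg
    have hc2 : P.c ^ 2 ≤ 13 * η := by
      have h1 : π * (1 + P.c ^ 2 / 6) * r ≤ π := by
        rw [le_div_iff₀ hr0] at hc; exact hc
      have h2 : (1 + P.c ^ 2 / 6) * r ≤ 1 := by
        by_contra hneg
        push Not at hneg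
        have := mul_lt_mul_of_pos_left hneg hpi
        linarith
      have h3 : P.c ^ 2 * r ≤ 12 * η := by rw [hr] at h2 ⊢; linarith
      have h4 : P.c ^ 2 * (99 / 100) ≤ 12 * η :=
        (mul_le_mul_of_nonneg_left hr1 (sq_nonneg _)).trans h3
      linarith
    have hv4 : P.v θ ^ 2 ≤ √(8320 * η) := by
      apply Real.le_sqrt_of_sq_le
      have h5 : (P.v θ ^ 2) ^ 2 ≤ (8 * π * P.c) ^ 2 := pow_le_pow_left₀ (sq_nonneg _) hv 2
      have h6 : (8 * π * P.c) ^ 2 = 64 * π ^ 2 * P.c ^ 2 := by ring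
      have h7 : π ^ 2 ≤ 10 := by nlinarith
      rw [h6] at h5
      calc (P.v θ ^ 2) ^ 2 ≤ 64 * π ^ 2 * P.c ^ 2 := h5
        _ ≤ 64 * 10 * P.c ^ 2 := by gcongr
        _ ≤ 64 * 10 * (13 * η) := by gcongr
        _ = 8320 * η := by ring
    have hv5 : P.v θ ≤ √(√(8320 * η)) := Real.le_sqrt_of_sq_le hv4
    have h8 : r * P.hK θ + r * P.hK (θ + π) - 1
        = r * (P.hK θ + P.hK (θ + π) - 1) - 2 * η := by rw [hr]; ring
    rw [h8]
    unfold err
    refine (abs_sub _ _).trans ?_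
    rw [abs_mul, abs_of_pos hr0, abs_of_pos (by positivity : (0:ℝ) < 2 * η)]
    have h9 : r * |P.hK θ + P.hK (θ + π) - 1| ≤ 1 * P.v θ :=
      mul_le_mul hrle hw (abs_nonneg _) zero_le_one
    linarith

omit [InnerProductSpace ℝ E] in
/-- Existence of limits along an ultrafilter of bounded sequences. -/
lemma exists_ulim {X : Type*} [PseudoMetricSpace X] [ProperSpace X] (U : Ultrafilter ℕ) (f : ℕ → X)
    {K : Set X} (hK : IsCompact K) (hf : ∀ n, f n ∈ K) : ∃ x ∈ K, Tendsto f U (𝓝 x) := by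
  rw [isCompact_iff_ultrafilter_le_nhds] at hK
  obtain ⟨x, hx, h⟩ := hK (U.map f) (by
    rw [Filter.le_principal_iff, Ultrafilter.coe_map, Filter.mem_map]
    exact Filter.univ_mem' hf)
  exact ⟨x, hx, h⟩

theorem exists_limit [FiniteDimensional ℝ E] (hL : C.L = π)
    (hfar : ∀ s ∈ Icc (0:ℝ) 1, ∃ t ∈ Icc (0:ℝ) 1, 1 ≤ ‖C.γ s - C.γ t‖) :
    ∃ (β : ℝ → ℂ) (H : ℝ → ℝ),
      (∀ s ∈ Icc (0:ℝ) 1, ∀ t ∈ Icc (0:ℝ) 1, ‖C.γ s - C.γ t‖ ≤ ‖β s - β t‖) ∧
      (∀ s ∈ Icc (0:ℝ) 1, ∀ t ∈ Icc (0:ℝ) 1, s ≤ t → ‖β t - β s‖ ≤ C.V t - C.V s) ∧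
      (∀ t ∈ Icc (0:ℝ) 1, ∀ θ, dot (β t) θ ≤ H θ) ∧
      (∀ θ, ∃ t ∈ Icc (0:ℝ) 1, dot (β t) θ = H θ) ∧
      (∀ θ, H θ + H (θ + π) = 1) := by
  set η : ℕ → ℝ := fun n => 1 / 200 * (1 / ((n:ℝ) + 1)) with hηdef
  have hη0 : ∀ n, 0 < η n := fun n => by simp only [hηdef]; positivity
  have hη1 : ∀ n, η n ≤ 1 / 200 := fun n => by
    have := hh_le_one n
    unfold Body.hh at this
    simp only [hηdef]; linarith
  have hηlim : Tendsto η atTop (𝓝 0) := by
    have := tendsto_one_div_add_atTop_nhds_zero_nat (𝕜 := ℝ)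
    have h := this.const_mul (1 / 200 : ℝ)
    rw [mul_zero] at h
    exact h
  choose B G hB0 hBlow hBup hBle hBeq hGw using
    fun n => C.approx hL hfar (hη0 n) (hη1 n)
  set U : Ultrafilter ℕ := hyperfilter ℕ with hU
  have hUle : (U : Filter ℕ) ≤ atTop := Nat.hyperfilter_le_atTop
  have hηU : Tendsto η U (𝓝 0) := hηlim.mono_left hUle
  have hVle : ∀ t ∈ Icc (0:ℝ) 1, C.V t ≤ π := fun t ht => by
    rw [← hL, ← C.hV1]; exact C.hmono ht ⟨zero_le_one, le_rfl⟩ ht.2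
  have hBbd : ∀ n, ∀ t ∈ Icc (0:ℝ) 1, ‖B n t‖ ≤ π + 1 := by
    intro n t ht
    have h1 := hBup n 0 ⟨le_rfl, zero_le_one⟩ t ht ht.1
    rw [hB0, sub_zero, C.hV0, sub_zero] at h1
    have := hη1 n
    have := hVle t ht
    linarith
  have hGbd : ∀ n θ, |G n θ| ≤ π + 1 := by
    intro n θ
    obtain ⟨t, ht, h⟩ := hBeq n θ
    rw [← h]; exact (abs_dot_le _ _).trans (hBbd n t ht)
  have hβ : ∀ t, ∃ b : ℂ, t ∈ Icc (0:ℝ) 1 → Tendsto (fun n => B n t) U (𝓝 b) := by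
    intro t
    by_cases ht : t ∈ Icc (0:ℝ) 1
    · obtain ⟨b, -, hb⟩ := exists_ulim U (fun n => B n t) (isCompact_closedBall (0:ℂ) (π + 1))
        (fun n => by rw [mem_closedBall_zero_iff]; exact hBbd n t ht)
      exact ⟨b, fun _ => hb⟩
    · exact ⟨0, fun h => absurd h ht⟩
  choose β hβlim using hβ
  have hH : ∀ θ, ∃ h : ℝ, Tendsto (fun n => G n θ) U (𝓝 h) := by
    intro θ
    obtain ⟨b, -, hb⟩ := exists_ulim U (fun n => G n θ) (isCompact_closedBall (0:ℝ) (π + 1))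
      (fun n => by rw [mem_closedBall_zero_iff]; exact hGbd n θ)
    exact ⟨b, hb⟩
  choose H hHlim using hH
  have hdotlim : ∀ t ∈ Icc (0:ℝ) 1, ∀ θ, Tendsto (fun n => dot (B n t) θ) U (𝓝 (dot (β t) θ)) := by
    intro t ht θ
    have hc : Continuous (fun z : ℂ => dot z θ) := by
      unfold dot
      exact (Complex.continuous_re.mul continuous_const).add
        (Complex.continuous_im.mul continuous_const)
    exact (hc.tendsto _).comp (hβlim t ht)
  refine ⟨β, H, ?_, ?_, ?_, ?_, ?_⟩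
  · intro s hs t ht
    have h1 : Tendsto (fun n => ‖C.γ s - C.γ t‖ - 2 * η n) U (𝓝 (‖C.γ s - C.γ t‖ - 2 * 0)) :=
      tendsto_const_nhds.sub (hηU.const_mul 2)
    have h2 : Tendsto (fun n => ‖B n s - B n t‖) U (𝓝 ‖β s - β t‖) :=
      ((hβlim s hs).sub (hβlim t ht)).norm
    have := le_of_tendsto_of_tendsto h1 h2 (Eventually.of_forall fun n => hBlow n s hs t ht)
    simpa using this
  · intro s hs t ht hst
    have h1 : Tendsto (fun n => C.V t - C.V s + η n) U (𝓝 (C.V t - C.V s + 0)) :=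
      tendsto_const_nhds.add hηU
    have h2 : Tendsto (fun n => ‖B n t - B n s‖) U (𝓝 ‖β t - β s‖) :=
      ((hβlim t ht).sub (hβlim s hs)).norm
    have := le_of_tendsto_of_tendsto h2 h1 (Eventually.of_forall fun n => hBup n s hs t ht hst)
    simpa using this
  · intro t ht θ
    exact le_of_tendsto_of_tendsto (hdotlim t ht θ) (hHlim θ)
      (Eventually.of_forall fun n => hBle n t ht θ)
  · intro θ
    choose τ hτ hτθ using fun n => hBeq n θ
    obtain ⟨t, ht, htlim⟩ := exists_ulim U τ (isCompact_Icc (a := (0:ℝ)) (b := 1)) hτ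
    refine ⟨t, ht, le_antisymm ?_ ?_⟩
    · exact le_of_tendsto_of_tendsto (hdotlim t ht θ) (hHlim θ)
        (Eventually.of_forall fun n => hBle n t ht θ)
    · have hVt : Tendsto (fun n => C.V (τ n)) U (𝓝 (C.V t)) := by
        have h1 : Tendsto τ U (𝓝[Icc 0 1] t) := by
          rw [tendsto_nhdsWithin_iff]
          exact ⟨htlim, Eventually.of_forall hτ⟩
        exact (C.hcont t ht).tendsto.comp h1
      have h2 : Tendsto (fun n => G n θ - (|C.V (τ n) - C.V t| + η n)) U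
          (𝓝 (H θ - (|C.V t - C.V t| + 0))) :=
        (hHlim θ).sub (((hVt.sub tendsto_const_nhds).abs).add hηU)
      have h3 := le_of_tendsto_of_tendsto h2 (hdotlim t ht θ) (Eventually.of_forall fun n => by
        have h4 : ‖B n (τ n) - B n t‖ ≤ |C.V (τ n) - C.V t| + η n := by
          rcases le_total (τ n) t with h | h
          · rw [norm_sub_rev, abs_sub_comm]
            refine (hBup n _ (hτ n) _ ht h).trans ?_
            gcongr
            exact le_abs_self _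
          · refine (hBup n _ ht _ (hτ n) h).trans ?_
            gcongr
            exact le_abs_self _
        have h5 := dot_le_norm (B n (τ n) - B n t) θ
        rw [dot_sub, hτθ n] at h5
        show G n θ - (|C.V (τ n) - C.V t| + η n) ≤ dot (B n t) θ
        linarith)
      simpa using h3
  · intro θ
    have h1 : Tendsto (fun n => |G n θ + G n (θ + π) - 1|) U (𝓝 |H θ + H (θ + π) - 1|) :=
      (((hHlim θ).add (hHlim (θ + π))).sub tendsto_const_nhds).abs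
    have h2 : Tendsto (fun n => err (η n)) U (𝓝 (err 0)) := by
      have hc : Continuous err := by unfold err; fun_prop
      exact (hc.tendsto 0).comp hηU
    have h3 := le_of_tendsto_of_tendsto h1 h2 (Eventually.of_forall fun n => hGw n θ)
    have h4 : err 0 = 0 := by simp [err]
    rw [h4] at h3
    have h5 := abs_eq_zero.mp (le_antisymm h3 (abs_nonneg _))
    linarith

end Curve

end Pool.Agent.Lib.MP_30679c_gt
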